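import Mathlib

/-! Exterior algebra on `m` generators: explicit basis, Koszul differential, signs. -/

set_option autoImplicit false

namespace Pool.Agent.Lib_helper42.Kz

open ExteriorAlgebra

universe u

variable {R : Type u} [CommRing R] {m : ℕ}

/-- The exterior algebra on `m` generators. -/
abbrev EA (R : Type u) [CommRing R] (m : ℕ) := ExteriorAlgebra R (Fin m → R)

/-- The generator `u_i`. -/
noncomputable def gen (i : Fin m) : EA R m := ι R (Pi.single i (1 : R))

theorem gen_sq (i : Fin m) : (gen i : EA R m) * gen i = 0 := ι_sq_zero _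

theorem gen_anti (i j : Fin m) : (gen i : EA R m) * gen j = - (gen j * gen i) := by
  rw [eq_neg_iff_add_eq_zero]
  exact ι_add_mul_swap _ _

/-- The exterior monomial `u_J`. -/
noncomputable def EE (J : Finset (Fin m)) : EA R m := ((J.sort (· ≤ ·)).map gen).prod

theorem EE_empty : (EE ∅ : EA R m) = 1 := by simp [EE]

theorem EE_insert_min (i : Fin m) (J : Finset (Fin m)) (h : ∀ j ∈ J, i < j) :
    (EE (insert i J) : EA R m) = gen i * EE J := by
  unfold EE
  rw [Finset.sort_insert (r := (· ≤ ·)) (fun b hb => (h b hb).le)
    (fun hi => lt_irrefl _ (h i hi))]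
  simp

/-- The sign `(-1)^{#{j ∈ J : j < i}}`. -/
def sgn (i : Fin m) (J : Finset (Fin m)) : ℤ := (-1) ^ (J.filter (· < i)).card

theorem sgn_mul_self (i : Fin m) (J : Finset (Fin m)) : sgn i J * sgn i J = 1 := by
  unfold sgn
  rw [← pow_add, ← two_mul, pow_mul]
  simp

theorem sgn_insert_lt {i j : Fin m} {J : Finset (Fin m)} (h : j < i) (hj : j ∉ J) :
    sgn i (insert j J) = - sgn i J := by
  unfold sgn
  rw [Finset.filter_insert, if_pos h, Finset.card_insert_of_notMem (by simp [hj]), pow_succ]
  ring

theorem sgn_insert_ge {i j : Fin m} {J : Finset (Fin m)} (h : ¬ j < i) :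
    sgn i (insert j J) = sgn i J := by
  unfold sgn
  rw [Finset.filter_insert, if_neg h]

theorem sgn_erase_self (i : Fin m) (J : Finset (Fin m)) : sgn i (J.erase i) = sgn i J := by
  unfold sgn
  congr 2
  ext j
  simp only [Finset.mem_filter, Finset.mem_erase]
  constructor
  · rintro ⟨⟨_, h⟩, h2⟩; exact ⟨h, h2⟩
  · rintro ⟨h, h2⟩; exact ⟨⟨ne_of_lt h2, h⟩, h2⟩

theorem sgn_of_forall_lt {i : Fin m} {J : Finset (Fin m)} (h : ∀ j ∈ J, i < j) :
    sgn i J = 1 := by
  unfold sgn
  have : J.filter (· < i) = ∅ := by
    rw [Finset.filter_eq_empty_iff]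
    intro j hj
    exact not_lt.mpr (h j hj).le
  rw [this]; simp

/-- Left multiplication by a generator. -/
theorem gen_mul_EE (i : Fin m) (J : Finset (Fin m)) :
    (gen i : EA R m) * EE J = if i ∈ J then 0 else sgn i J • EE (insert i J) := by
  induction J using Finset.induction_on_min with
  | empty =>
    have h := EE_insert_min (R := R) i ∅ (by simp)
    rw [h]
    simp [sgn]
  | insert j J hJ ih =>
    have hjJ : j ∉ J := fun h => lt_irrefl _ (hJ j h)
    rcases lt_trichotomy i j with hij | rfl | hij
    · have h1 : ∀ l ∈ insert j J, i < l := by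
        intro l hl
        rcases Finset.mem_insert.mp hl with rfl | hl
        · exact hij
        · exact hij.trans (hJ l hl)
      have h2 : i ∉ insert j J := fun h => lt_irrefl _ (h1 i h)
      rw [if_neg h2, sgn_of_forall_lt h1, EE_insert_min i _ h1, one_smul]
    · rw [if_pos (Finset.mem_insert_self _ _), EE_insert_min i _ hJ, ← mul_assoc, gen_sq, zero_mul]
    · rw [EE_insert_min j _ hJ, ← mul_assoc, gen_anti, neg_mul, mul_assoc, ih]
      by_cases hi : i ∈ J
      · rw [if_pos hi, if_pos (Finset.mem_insert_of_mem hi), mul_zero, neg_zero]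
      · have h2 : i ∉ insert j J := by
          rw [Finset.mem_insert]; push Not; exact ⟨ne_of_gt hij, hi⟩
        rw [if_neg hi, if_neg h2, sgn_insert_lt hij hjJ, mul_smul_comm, neg_smul]
        congr 2
        rw [Finset.insert_comm, EE_insert_min j]
        intro l hl
        rcases Finset.mem_insert.mp hl with rfl | hl
        · exact hij
        · exact hJ l hl

/-- The sign in the product of two exterior monomials. -/
def sgn2 (I J : Finset (Fin m)) : ℤ := ∏ i ∈ I, sgn i J

/-- Product of exterior monomials. -/
theorem EE_mul_EE (I J : Finset (Fin m)) :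
    (EE I : EA R m) * EE J = if Disjoint I J then sgn2 I J • EE (I ∪ J) else 0 := by
  induction I using Finset.induction_on_min with
  | empty => simp [EE_empty, sgn2]
  | insert i I hI ih =>
    have hiI : i ∉ I := fun h => lt_irrefl _ (hI i h)
    rw [EE_insert_min i _ hI, mul_assoc, ih]
    by_cases hd : Disjoint I J
    · rw [if_pos hd, mul_smul_comm, gen_mul_EE]
      by_cases hi : i ∈ J
      · have : ¬ Disjoint (insert i I) J := by
          rw [Finset.disjoint_insert_left]; push Not; intro h; exact absurd hi h
        rw [if_neg this, if_pos (Finset.mem_union_right _ hi), smul_zero]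
      · have : Disjoint (insert i I) J := by
          rw [Finset.disjoint_insert_left]; exact ⟨hi, hd⟩
        have h3 : i ∉ I ∪ J := by
          rw [Finset.mem_union]; push Not; exact ⟨hiI, hi⟩
        rw [if_pos this, if_neg h3, smul_smul, Finset.insert_union]
        congr 1
        rw [sgn2, sgn2, Finset.prod_insert hiI, mul_comm]
        congr 1
        unfold sgn
        congr 2
        ext j
        simp only [Finset.mem_filter, Finset.mem_union]
        constructor
        · rintro ⟨h | h, h2⟩
          · exact absurd (hI j h) (not_lt.mpr h2.le)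
          · exact ⟨h, h2⟩
        · rintro ⟨h, h2⟩; exact ⟨Or.inr h, h2⟩
    · have : ¬ Disjoint (insert i I) J := by
        rw [Finset.disjoint_insert_left]; push Not; intro _; exact hd
      rw [if_neg hd, if_neg this, mul_zero]

/-- The linear form with `e_i ↦ v_i`. -/
noncomputable def kform (v : Fin m → R) : Module.Dual R (Fin m → R) :=
  Fintype.linearCombination R v

theorem kform_single (v : Fin m → R) (i : Fin m) : kform v (Pi.single i 1) = v i := by
  unfold kform
  rw [Fintype.linearCombination_apply_single, one_smul]

/-- The Koszul differential. -/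
noncomputable def kd (v : Fin m → R) : EA R m →ₗ[R] EA R m :=
  CliffordAlgebra.contractLeft (kform v)

theorem kd_kd (v : Fin m → R) (x : EA R m) : kd v (kd v x) = 0 :=
  CliffordAlgebra.contractLeft_contractLeft _ _

theorem kd_one (v : Fin m → R) : kd v (1 : EA R m) = 0 :=
  CliffordAlgebra.contractLeft_one (Q := (0 : QuadraticForm R (Fin m → R))) (kform v)

theorem kd_gen_mul (v : Fin m → R) (i : Fin m) (x : EA R m) :
    kd v (gen i * x) = v i • x - gen i * kd v x := by
  unfold kd gen
  have := CliffordAlgebra.contractLeft_ι_mul (Q := (0 : QuadraticForm R (Fin m → R)))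
    (d := kform v) (Pi.single i 1) x
  rw [kform_single] at this
  exact this

/-- The Koszul differential on exterior monomials. -/
theorem kd_EE (v : Fin m → R) (J : Finset (Fin m)) :
    kd v (EE J : EA R m) = ∑ i ∈ J, sgn i J • (v i • EE (J.erase i)) := by
  induction J using Finset.induction_on_min with
  | empty => simp [EE_empty, kd_one]
  | insert i J hJ ih =>
    have hiJ : i ∉ J := fun h => lt_irrefl _ (hJ i h)
    rw [EE_insert_min i _ hJ, kd_gen_mul, ih, Finset.sum_insert hiJ]
    have h1 : sgn i (insert i J) = 1 := by
      rw [sgn_insert_ge (lt_irrefl i), sgn_of_forall_lt hJ]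
    rw [h1, one_smul, Finset.erase_insert hiJ, sub_eq_add_neg, Finset.mul_sum,
      ← Finset.sum_neg_distrib]
    congr 1
    refine Finset.sum_congr rfl ?_
    intro j hj
    have hij : i < j := hJ j hj
    rw [sgn_insert_lt hij hiJ, mul_smul_comm, mul_smul_comm, neg_smul]
    congr 3
    rw [Finset.erase_insert_of_ne (ne_of_lt hij), EE_insert_min i]
    intro l hl
    exact hJ l (Finset.mem_of_mem_erase hl)

/-- The graded Leibniz rule. -/
theorem kd_mul (v : Fin m → R) (x y : EA R m) :
    kd v (x * y) = kd v x * y + CliffordAlgebra.involute x * kd v y := by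
  induction x using CliffordAlgebra.left_induction with
  | algebraMap r =>
    unfold kd
    rw [CliffordAlgebra.contractLeft_algebraMap_mul, CliffordAlgebra.contractLeft_algebraMap,
      zero_mul, zero_add, AlgHom.commutes]
  | add x y hx hy => rw [add_mul, map_add, hx, hy, map_add, map_add, add_mul, add_mul]; abel
  | ι_mul x a hx =>
    have h1 : ∀ z : EA R m, kd v (CliffordAlgebra.ι 0 a * z) =
        kform v a • z - CliffordAlgebra.ι 0 a * kd v z := by
      intro z
      exact CliffordAlgebra.contractLeft_ι_mul (Q := (0 : QuadraticForm R (Fin m → R)))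
        (d := kform v) a z
    rw [mul_assoc, h1, h1, hx, map_mul, CliffordAlgebra.involute_ι]
    simp only [sub_mul, mul_add, smul_mul_assoc, neg_mul, mul_assoc]
    abel

theorem kd_involute (v : Fin m → R) (x : EA R m) :
    kd v (CliffordAlgebra.involute x) = - CliffordAlgebra.involute (kd v x) := by
  induction x using CliffordAlgebra.left_induction with
  | algebraMap r =>
    unfold kd
    rw [AlgHom.commutes, CliffordAlgebra.contractLeft_algebraMap, map_zero, neg_zero]
  | add x y hx hy => rw [map_add, map_add, hx, hy, map_add, map_add]; abel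
  | ι_mul x a hx =>
    have h1 : ∀ z : EA R m, kd v (CliffordAlgebra.ι 0 a * z) =
        kform v a • z - CliffordAlgebra.ι 0 a * kd v z := by
      intro z
      exact CliffordAlgebra.contractLeft_ι_mul (Q := (0 : QuadraticForm R (Fin m → R)))
        (d := kform v) a z
    rw [map_mul, CliffordAlgebra.involute_ι, neg_mul, map_neg, h1, h1, hx, map_sub, map_mul,
      CliffordAlgebra.involute_ι, map_smul, neg_mul, mul_neg]

end Pool.Agent.Lib_helper42.Kz
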