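import Mathlib
import Pool.Agent.Lib_helper42.Kz.Ext

/-! Koszul homology algebra of a sequence `v_1, ..., v_m` in a commutative `k`-algebra `R`. -/

set_option autoImplicit false

namespace Pool.Agent.Lib_helper42.Kz

universe u w

theorem kd_mul_zero {R : Type u} [CommRing R] {m : ℕ} (v : Fin m → R) {x y : EA R m}
    (hx : kd v x = 0) (hy : kd v y = 0) : kd v (x * y) = 0 := by
  rw [kd_mul, hx, hy, zero_mul, mul_zero, add_zero]

theorem kd_add_zero {R : Type u} [CommRing R] {m : ℕ} (v : Fin m → R) {x y : EA R m}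
    (hx : kd v x = 0) (hy : kd v y = 0) : kd v (x + y) = 0 := by
  rw [map_add, hx, hy, add_zero]

theorem kd_left {R : Type u} [CommRing R] {m : ℕ} (v : Fin m → R) {c a y : EA R m}
    (hc : kd v c = 0) (hy : kd v y = a) : kd v (CliffordAlgebra.involute c * y) = c * a := by
  rw [kd_mul, kd_involute, hc, map_zero, neg_zero, zero_mul, zero_add,
    CliffordAlgebra.involute_involute, hy]

theorem kd_right {R : Type u} [CommRing R] {m : ℕ} (v : Fin m → R) {b a y : EA R m}
    (hb : kd v b = 0) (hy : kd v y = a) : kd v (y * b) = a * b := by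
  rw [kd_mul, hb, mul_zero, add_zero, hy]

variable (k : Type w) [Field k] {R : Type u} [CommRing R] [Algebra k R] {m : ℕ}

theorem kd_algebraMap_zero (v : Fin m → R) (r : k) : kd v (algebraMap k (EA R m) r) = 0 := by
  rw [Algebra.algebraMap_eq_smul_one, ← IsScalarTower.algebraMap_smul R r (1 : EA R m),
    map_smul, kd_one, smul_zero]

/-- The subalgebra of Koszul cycles. -/
noncomputable def Zc (v : Fin m → R) : Subalgebra k (EA R m) where
  carrier := {x | kd v x = 0}
  mul_mem' := by
    intro x y hx hy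
    show kd v (x * y) = 0
    rw [kd_mul, show kd v x = 0 from hx, show kd v y = 0 from hy, zero_mul, mul_zero, add_zero]
  add_mem' := by
    intro x y hx hy
    show kd v (x + y) = 0
    rw [map_add, show kd v x = 0 from hx, show kd v y = 0 from hy, add_zero]
  algebraMap_mem' := by
    intro r
    show kd v (algebraMap k (EA R m) r) = 0
    rw [Algebra.algebraMap_eq_smul_one, ← IsScalarTower.algebraMap_smul R r (1 : EA R m),
      map_smul, kd_one, smul_zero]

theorem mem_Zc {v : Fin m → R} {x : EA R m} : x ∈ Zc k v ↔ kd v x = 0 := Iff.rfl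

/-- The ideal of Koszul boundaries in the algebra of cycles. -/
noncomputable def Bd (v : Fin m → R) : Ideal (Zc k v) where
  carrier := {z | ∃ y : EA R m, kd v y = z}
  add_mem' := by
    rintro a b ⟨y, hy⟩ ⟨z, hz⟩
    exact ⟨y + z, by rw [map_add, hy, hz]; rfl⟩
  zero_mem' := ⟨0, by rw [map_zero]; rfl⟩
  smul_mem' := by
    rintro c a ⟨y, hy⟩
    refine ⟨CliffordAlgebra.involute (c : EA R m) * y, ?_⟩
    have hc : kd v (c : EA R m) = 0 := c.2
    rw [kd_mul, kd_involute, hc, map_zero, neg_zero, zero_mul, zero_add,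
      CliffordAlgebra.involute_involute, hy]
    rfl

instance (v : Fin m → R) : (Bd k v).IsTwoSided := by
  constructor
  rintro a b ⟨y, hy⟩
  refine ⟨y * b, ?_⟩
  have hb : kd v (b : EA R m) = 0 := b.2
  rw [kd_mul, hb, mul_zero, add_zero, hy]
  rfl

/-- The Koszul homology algebra: Koszul cycles modulo Koszul boundaries. -/
def Tor (v : Fin m → R) := Zc k v ⧸ Bd k v

noncomputable instance (v : Fin m → R) : Ring (Tor k v) :=
  inferInstanceAs (Ring (Zc k v ⧸ Bd k v))

noncomputable instance (v : Fin m → R) : Algebra k (Tor k v) :=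
  inferInstanceAs (Algebra k (Zc k v ⧸ Bd k v))

/-- The class map. -/
noncomputable def cls (v : Fin m → R) : Zc k v →ₐ[k] Tor k v :=
  Ideal.Quotient.mkₐ k (Bd k v)

/-- The component of bidegree `(-i, 2j)` of the Koszul algebra: the `k`-span of the elements
`v_{a_1} ⋯ v_{a_p} u_{b_1} ⋯ u_{b_i}` with `p + i = j`. -/
noncomputable def bideg (v : Fin m → R) (i j : ℕ) : Submodule k (EA R m) :=
  Submodule.span k {x | ∃ (p : ℕ) (a : Fin p → Fin m) (b : Fin i → Fin m), p + i = j ∧
    x = (∏ t, v (a t)) • (List.ofFn fun t => gen (R := R) (b t)).prod}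

/-- The component of bidegree `(-i, 2j)` of the Koszul homology algebra. -/
noncomputable def torPart (v : Fin m → R) (i j : ℕ) : Submodule k (Tor k v) :=
  ((bideg k v i j).comap (Zc k v).val.toLinearMap).map (cls k v).toLinearMap

end Pool.Agent.Lib_helper42.Kz
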