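import Mathlib
import Pool.Agent.Lib_helper42.Kz.Defs

/-! The exterior monomials form a basis. -/

set_option autoImplicit false

namespace Pool.Agent.Lib_helper42.Kz

universe u w

variable {R : Type u} [CommRing R] {m : ℕ}

/-- The basis of exterior monomials. -/
noncomputable def bE (R : Type u) [CommRing R] (m : ℕ) :
    Module.Basis (Finset (Fin m)) R (EA R m) :=
  (Pi.basisFun R (Fin m)).ExteriorAlgebra

theorem bE_apply (J : Finset (Fin m)) : bE R m J = EE J := by
  unfold bE
  rw [ExteriorAlgebra.basis_apply]
  show ExteriorAlgebra.ιMulti R _ _ = _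
  rw [ExteriorAlgebra.ιMulti_apply]
  unfold EE
  rw [← Finset.listMap_orderEmbOfFin_finRange J rfl, List.map_map, ← List.ofFn_eq_map]
  congr 2
  funext t
  simp only [Function.comp, Pi.basisFun_apply, gen]
  rfl

end Pool.Agent.Lib_helper42.Kz
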