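import Mathlib
import Pool.Agent.Lib_helper42.Kz.Basis

/-! Reduction of Koszul cycles of a face ring to squarefree cycles. -/

set_option autoImplicit false

namespace Pool.Agent.Lib_helper42.Kz

universe u w

variable {k : Type w} [Field k] {R : Type u} [CommRing R] [Algebra k R] {m : ℕ}

/-- The monomial `v^α`. -/
noncomputable def mon (v : Fin m → R) (α : Fin m → ℕ) : R := ∏ i, v i ^ α i

/-- Indicator exponent vector. -/
def ind (σ : Finset (Fin m)) : Fin m → ℕ := fun i => if i ∈ σ then 1 else 0

/-- The linear-algebra data of a face ring that is used in the computation. -/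
structure FaceData (k : Type w) [Field k] {R : Type u} [CommRing R] [Algebra k R] {m : ℕ}
    (v : Fin m → R) (K : Finset (Fin m) → Prop) where
  span_mon : Submodule.span k (Set.range (mon v)) = ⊤
  T : Fin m → (R →ₗ[k] R)
  T_mon : ∀ i α, T i (mon v α) =
    if 2 ≤ α i then mon v (Function.update α i (α i - 1)) else 0
  c : Finset (Fin m) → (R →ₗ[k] k)
  c_mon : ∀ σ, K σ → ∀ α, c σ (mon v α) = if α = ind σ then 1 else 0
  mon_zero : ∀ σ, ¬ K σ → mon v (ind σ) = 0

theorem mon_mul (v : Fin m → R) (α β : Fin m → ℕ) : mon v α * mon v β = mon v (α + β) := by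
  unfold mon
  rw [← Finset.prod_mul_distrib]
  exact Finset.prod_congr rfl (fun i _ => (pow_add _ _ _).symm)

theorem mon_single (v : Fin m → R) (j : Fin m) : mon v (Pi.single j 1) = v j := by
  unfold mon
  rw [Finset.prod_eq_single j]
  · simp
  · intro i _ hi
    simp [Pi.single_eq_of_ne hi]
  · simp

theorem mon_mul_v (v : Fin m → R) (α : Fin m → ℕ) (j : Fin m) :
    mon v α * v j = mon v (α + Pi.single j 1) := by
  rw [← mon_mul, mon_single]

/-- A squarefree cell. -/
noncomputable def cell (v : Fin m → R) (σ J : Finset (Fin m)) : EA R m := mon v (ind σ) • EE J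

variable {v : Fin m → R} {K : Finset (Fin m) → Prop}

theorem FaceData.T_mul_ne (D : FaceData k v K) {i j : Fin m} (hij : j ≠ i) (α : Fin m → ℕ) :
    D.T i (mon v α * v j) = D.T i (mon v α) * v j := by
  rw [mon_mul_v, D.T_mon, D.T_mon]
  have h1 : (α + Pi.single j 1 : Fin m → ℕ) i = α i := by simp [Pi.single_eq_of_ne hij.symm]
  rw [h1]
  by_cases h : 2 ≤ α i
  · rw [if_pos h, if_pos h, mon_mul_v]
    congr 1
    funext l
    by_cases hl : l = i
    · subst hl
      simp [Pi.single_eq_of_ne hij.symm]
    · simp [Function.update_of_ne hl]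
  · rw [if_neg h, if_neg h, zero_mul]

theorem FaceData.T_mul_v (D : FaceData k v K) (i : Fin m) (α : Fin m → ℕ) :
    D.T i (mon v α) * v i = if 2 ≤ α i then mon v α else 0 := by
  rw [D.T_mon]
  by_cases h : 2 ≤ α i
  · rw [if_pos h, if_pos h, mon_mul_v]
    congr 1
    funext l
    by_cases hl : l = i
    · subst hl
      simp only [Pi.add_apply, Function.update_self, Pi.single_eq_same]
      omega
    · simp [Function.update_of_ne hl, Pi.single_eq_of_ne hl]
  · rw [if_neg h, if_neg h, zero_mul]

theorem FaceData.T_self (D : FaceData k v K) (i : Fin m) (α : Fin m → ℕ) :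
    D.T i (mon v α * v i) = if 2 ≤ α i + 1 then mon v α else 0 := by
  rw [mon_mul_v, D.T_mon]
  have h1 : (α + Pi.single i 1 : Fin m → ℕ) i = α i + 1 := by simp
  rw [h1]
  by_cases h : 2 ≤ α i + 1
  · rw [if_pos h, if_pos h]
    congr 1
    funext l
    by_cases hl : l = i
    · subst hl
      simp
    · simp [Function.update_of_ne hl, Pi.single_eq_of_ne hl]
  · rw [if_neg h, if_neg h]

/-- The contracting operator. -/
noncomputable def FaceData.sI (D : FaceData k v K) (i : Fin m) : EA R m →ₗ[k] EA R m :=
  ∑ J : Finset (Fin m), ((LinearMap.toSpanSingleton R (EA R m)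
    (gen i * EE J)).restrictScalars k) ∘ₗ (D.T i) ∘ₗ (((bE R m).coord J).restrictScalars k)

theorem FaceData.sI_apply (D : FaceData k v K) (i : Fin m) (f : R) (J : Finset (Fin m)) :
    D.sI i (f • EE J) = D.T i f • (gen i * EE J) := by
  unfold FaceData.sI
  rw [LinearMap.sum_apply, Finset.sum_eq_single J]
  · simp only [LinearMap.comp_apply, LinearMap.restrictScalars_apply, map_smul,
      Module.Basis.coord_apply, LinearMap.toSpanSingleton_apply]
    rw [← bE_apply J, Module.Basis.repr_self]
    simp
  · intro L _ hL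
    simp only [LinearMap.comp_apply, LinearMap.restrictScalars_apply, map_smul,
      Module.Basis.coord_apply, LinearMap.toSpanSingleton_apply]
    rw [← bE_apply J, Module.Basis.repr_self, Finsupp.single_eq_of_ne hL]
    simp
  · intro h; exact absurd (Finset.mem_univ _) h

/-- the homotopy identity on monomials. -/
theorem FaceData.homotopy (D : FaceData k v K) (i : Fin m) (α : Fin m → ℕ)
    (J : Finset (Fin m)) :
    kd v (D.sI i (mon v α • EE J)) + D.sI i (kd v (mon v α • EE J)) =
      if 2 ≤ α i + (if i ∈ J then 1 else 0) then mon v α • EE J else 0 := by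
  have e1 : kd v (D.sI i (mon v α • EE J)) =
      (D.T i (mon v α) * v i) • EE J - D.T i (mon v α) • (gen i * kd v (EE J)) := by
    rw [D.sI_apply, map_smul, kd_gen_mul, smul_sub, smul_smul]
  have e2 : D.T i (mon v α) • (gen i * kd v (EE J)) =
      ∑ j ∈ J, sgn j J • ((D.T i (mon v α) * v j) • (gen i * EE (J.erase j))) := by
    rw [kd_EE, Finset.mul_sum, Finset.smul_sum]
    refine Finset.sum_congr rfl ?_
    intro j _
    rw [mul_smul_comm, mul_smul_comm, smul_comm (D.T i (mon v α)) (sgn j J), smul_smul]
  have e3 : D.sI i (kd v (mon v α • EE J)) =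
      ∑ j ∈ J, sgn j J • (D.T i (mon v α * v j) • (gen i * EE (J.erase j))) := by
    rw [map_smul, kd_EE, Finset.smul_sum, map_sum]
    refine Finset.sum_congr rfl ?_
    intro j _
    rw [smul_comm (mon v α) (sgn j J), smul_smul, map_zsmul, D.sI_apply]
  rw [e1, e2, e3, sub_add_eq_add_sub, add_sub_assoc, ← Finset.sum_sub_distrib]
  by_cases hi : i ∈ J
  · rw [Finset.sum_eq_single i]
    · rw [gen_mul_EE, if_neg (Finset.notMem_erase i J), Finset.insert_erase hi, sgn_erase_self,
        if_pos hi, ← smul_sub, ← sub_smul, smul_comm (D.T i (mon v α * v i) - _) (sgn i J),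
        smul_smul (sgn i J), sgn_mul_self, one_smul, ← add_smul, add_sub_cancel, D.T_self]
      by_cases h : 2 ≤ α i + 1
      · rw [if_pos h, if_pos h]
      · rw [if_neg h, if_neg h, zero_smul]
    · intro j hj hji
      rw [D.T_mul_ne hji, sub_self]
    · intro h; exact absurd hi h
  · rw [Finset.sum_eq_zero]
    · rw [add_zero, if_neg hi, D.T_mul_v, add_zero]
      by_cases h : 2 ≤ α i
      · rw [if_pos h, if_pos h]
      · rw [if_neg h, if_neg h, zero_smul]
    · intro j hj
      have hji : j ≠ i := fun h => hi (h ▸ hj)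
      rw [D.T_mul_ne hji, sub_self]

/-- monomials whose multidegree is at most one at the places in `S`. -/
def goodSet (v : Fin m → R) (S : Finset (Fin m)) : Set (EA R m) :=
  {x | ∃ (α : Fin m → ℕ) (J : Finset (Fin m)),
    (∀ i ∈ S, α i + (if i ∈ J then 1 else 0) ≤ 1) ∧ x = mon v α • EE J}

open Pointwise in
theorem FaceData.span_top (D : FaceData k v K) :
    Submodule.span k (goodSet v ∅) = (⊤ : Submodule k (EA R m)) := by
  have h1 := Submodule.span_smul_of_span_eq_top (R := k) (S := R) (A := EA R m)
    (s := Set.range (mon v)) D.span_mon (Set.range (bE R m))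
  rw [(bE R m).span_eq] at h1
  have h2 : Set.range (mon v) • Set.range (bE R m) ⊆ goodSet v ∅ := by
    rintro _ ⟨_, ⟨α, rfl⟩, _, ⟨J, rfl⟩, rfl⟩
    refine ⟨α, J, by simp, ?_⟩
    simp only [bE_apply]
  rw [eq_top_iff]
  have h3 : (⊤ : Submodule k (EA R m)) = (⊤ : Submodule R (EA R m)).restrictScalars k := by
    simp
  rw [h3, ← h1]
  exact Submodule.span_mono h2

theorem FaceData.sqf_step (D : FaceData k v K) (S : Finset (Fin m)) :
    ∀ z : EA R m, kd v z = 0 → ∃ z' : EA R m, kd v z' = 0 ∧
      z' ∈ Submodule.span k (goodSet v S) ∧ ∃ y, kd v y = z - z' := by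
  induction S using Finset.induction_on with
  | empty =>
    intro z hz
    refine ⟨z, hz, ?_, 0, by simp⟩
    rw [D.span_top]; trivial
  | insert i S hi ih =>
    intro z hz
    obtain ⟨z', hz', hmem, y, hy⟩ := ih z hz
    refine ⟨z' - kd v (D.sI i z'), ?_, ?_, y + D.sI i z', ?_⟩
    · rw [map_sub, kd_kd, hz', sub_zero]
    · let E : EA R m →ₗ[k] EA R m := LinearMap.id -
        (((kd v).restrictScalars k) ∘ₗ (D.sI i) + (D.sI i) ∘ₗ ((kd v).restrictScalars k))
      have hE : E z' = z' - kd v (D.sI i z') := by
        show z' - (kd v (D.sI i z') + D.sI i (kd v z')) = _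
        rw [hz', map_zero, add_zero]
      rw [← hE]
      have hle : (Submodule.span k (goodSet v S)).map E ≤
          Submodule.span k (goodSet v (insert i S)) := by
        rw [Submodule.map_span, Submodule.span_le]
        rintro _ ⟨_, ⟨α, J, hg, rfl⟩, rfl⟩
        have hEx : E (mon v α • EE J) = mon v α • EE J -
          (if 2 ≤ α i + (if i ∈ J then 1 else 0) then mon v α • EE J else 0) := by
          rw [← D.homotopy]; rfl
        rw [hEx]
        by_cases h : 2 ≤ α i + (if i ∈ J then 1 else 0)
        · rw [if_pos h, sub_self]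
          exact Submodule.zero_mem _
        · rw [if_neg h, sub_zero]
          apply Submodule.subset_span
          refine ⟨α, J, ?_, rfl⟩
          intro l hl
          rcases Finset.mem_insert.mp hl with rfl | hl
          · omega
          · exact hg l hl
      exact hle ⟨z', hmem, rfl⟩
    · rw [map_add, hy]; abel

/-- The set of squarefree cells. -/
def cellSet (v : Fin m → R) (K : Finset (Fin m) → Prop) : Set (EA R m) :=
  {x | ∃ σ J : Finset (Fin m), K σ ∧ Disjoint σ J ∧ x = cell v σ J}

theorem FaceData.sqf (D : FaceData k v K) (z : EA R m) (hz : kd v z = 0) :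
    ∃ z' : EA R m, kd v z' = 0 ∧ z' ∈ Submodule.span k (cellSet v K) ∧ ∃ y, kd v y = z - z' := by
  obtain ⟨z', h1, h2, h3⟩ := D.sqf_step Finset.univ z hz
  refine ⟨z', h1, ?_, h3⟩
  have hle : Submodule.span k (goodSet v Finset.univ) ≤ Submodule.span k (cellSet v K) := by
    rw [Submodule.span_le]
    rintro _ ⟨α, J, hg, rfl⟩
    set σ := Finset.univ.filter (fun i => α i = 1) with hσ
    have hα : α = ind σ := by
      funext i
      have := hg i (Finset.mem_univ i)
      unfold ind
      by_cases h : α i = 1
      · rw [if_pos (by simp [hσ, h]), h]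
      · rw [if_neg (by simp [hσ, h])]
        omega
    have hd : Disjoint σ J := by
      rw [Finset.disjoint_left]
      intro i hi hiJ
      have h4 := hg i (Finset.mem_univ i)
      rw [if_pos hiJ] at h4
      have h5 : α i = 1 := by simpa [hσ] using hi
      omega
    by_cases hK : K σ
    · exact Submodule.subset_span ⟨σ, J, hK, hd, by rw [hα, cell]⟩
    · rw [hα, D.mon_zero σ hK, zero_smul]
      exact Submodule.zero_mem _
  exact hle h2

end Pool.Agent.Lib_helper42.Kz
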