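import Mathlib
import Pool.Agent.Lib_helper42.Kz.Sqf

/-! The face ring of a simplicial complex. -/

set_option autoImplicit false

namespace Pool.Agent.Lib_helper42.Kz

universe u w

open MvPolynomial

/-- The Stanley-Reisner ideal, generated by the monomials of the non-faces. -/
noncomputable def faceIdeal (k : Type w) [Field k] {m : ℕ} (K : Set (Finset (Fin m))) :
    Ideal (MvPolynomial (Fin m) k) :=
  Ideal.span {p | ∃ σ : Finset (Fin m), σ ∉ K ∧ p = ∏ i ∈ σ, X i}

/-- The face ring (Stanley-Reisner ring). -/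
abbrev FaceRing (k : Type w) [Field k] {m : ℕ} (K : Set (Finset (Fin m))) :=
  MvPolynomial (Fin m) k ⧸ faceIdeal k K

/-- The generators `v_i` of the face ring. -/
noncomputable def vv (k : Type w) [Field k] {m : ℕ} (K : Set (Finset (Fin m))) :
    Fin m → FaceRing k K := fun i => Ideal.Quotient.mk (faceIdeal k K) (X i)

section

variable (k : Type w) [Field k] {m : ℕ} (K : Set (Finset (Fin m)))

/-- exponent vector as a finsupp -/
noncomputable def fs (α : Fin m → ℕ) : Fin m →₀ ℕ := Finsupp.equivFunOnFinite.symm α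

theorem fs_apply (α : Fin m → ℕ) (i : Fin m) : fs α i = α i := rfl

theorem prod_X_eq (σ : Finset (Fin m)) :
    (∏ i ∈ σ, X i : MvPolynomial (Fin m) k) = monomial (fs (ind σ)) 1 := by
  rw [monomial_eq, C_1, one_mul, Finsupp.prod_fintype _ _ (fun i => pow_zero _)]
  rw [← Finset.prod_subset (Finset.subset_univ σ)]
  · refine Finset.prod_congr rfl ?_
    intro i hi
    rw [fs_apply, ind, if_pos hi, pow_one]
  · intro i _ hi
    rw [fs_apply, ind, if_neg hi, pow_zero]

theorem mon_vv (α : Fin m → ℕ) :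
    mon (vv k K) α = Ideal.Quotient.mk (faceIdeal k K) (monomial (fs α) 1) := by
  rw [monomial_eq, C_1, one_mul, Finsupp.prod_fintype _ _ (fun i => pow_zero _), map_prod]
  unfold mon
  refine Finset.prod_congr rfl ?_
  intro i _
  rw [map_pow]; rfl

variable {k K}

theorem monomial_mem_faceIdeal (β : Fin m →₀ ℕ) (h : β.support ∉ K) (a : k) :
    monomial β a ∈ faceIdeal k K := by
  have h1 : (∏ i ∈ β.support, X i : MvPolynomial (Fin m) k) ∈ faceIdeal k K :=
    Ideal.subset_span ⟨β.support, h, rfl⟩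
  have h2 : monomial β a = monomial (β - fs (ind β.support)) a *
      (∏ i ∈ β.support, X i : MvPolynomial (Fin m) k) := by
    rw [prod_X_eq, monomial_mul, mul_one]
    have h3 : β - fs (ind β.support) + fs (ind β.support) = β := by
      ext i
      rw [Finsupp.add_apply, Finsupp.tsub_apply, fs_apply, ind]
      by_cases hi : i ∈ β.support
      · rw [if_pos hi]
        have : β i ≠ 0 := Finsupp.mem_support_iff.mp hi
        omega
      · rw [if_neg hi]
        omega
    rw [h3]
  rw [h2]
  exact Ideal.mul_mem_left _ _ h1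

theorem coeff_of_mem_faceIdeal (hK : ∀ σ ∈ K, ∀ τ ⊆ σ, τ ∈ K) (p : MvPolynomial (Fin m) k)
    (hp : p ∈ faceIdeal k K) : ∀ β : Fin m →₀ ℕ, β.support ∈ K → coeff β p = 0 := by
  unfold faceIdeal at hp
  induction hp using Submodule.span_induction with
  | mem x hx =>
    intro β hβ
    obtain ⟨σ, hσ, rfl⟩ := hx
    rw [prod_X_eq, coeff_monomial, if_neg]
    rintro rfl
    apply hσ
    refine hK _ hβ σ ?_
    intro i hi
    rw [Finsupp.mem_support_iff, fs_apply, ind, if_pos hi]
    exact one_ne_zero
  | zero => intro β _; simp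
  | add x y _ _ hx hy => intro β hβ; rw [coeff_add, hx β hβ, hy β hβ, add_zero]
  | smul a x hx ih =>
    intro β hβ
    rw [smul_eq_mul, coeff_mul]
    refine Finset.sum_eq_zero ?_
    rintro ⟨γ, δ⟩ hγδ
    rw [Finset.HasAntidiagonal.mem_antidiagonal] at hγδ
    have hδ : δ.support ∈ K := by
      refine hK _ hβ _ ?_
      intro i hi
      rw [Finsupp.mem_support_iff] at hi ⊢
      have h1 : γ + δ = β := hγδ
      have h2 : β i = γ i + δ i := by rw [← h1, Finsupp.add_apply]
      have h3 : δ i ≠ 0 := hi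
      omega
    rw [ih δ hδ, mul_zero]

/-- lowering operator on polynomials -/
noncomputable def TT (k : Type w) [Field k] {m : ℕ} (i : Fin m) :
    MvPolynomial (Fin m) k →ₗ[k] MvPolynomial (Fin m) k :=
  (basisMonomials (Fin m) k).constr k
    (fun β => if 2 ≤ β i then monomial (β - Finsupp.single i 1) 1 else 0)

theorem TT_monomial (i : Fin m) (β : Fin m →₀ ℕ) :
    TT k i (monomial β 1) = if 2 ≤ β i then monomial (β - Finsupp.single i 1) 1 else 0 := by
  have := (basisMonomials (Fin m) k).constr_basis k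
    (fun β => if 2 ≤ β i then (monomial (β - Finsupp.single i 1) 1 : MvPolynomial (Fin m) k)
      else 0) β
  rw [coe_basisMonomials] at this
  exact this

theorem TT_mem (hK : ∀ σ ∈ K, ∀ τ ⊆ σ, τ ∈ K) (i : Fin m) (p : MvPolynomial (Fin m) k)
    (hp : p ∈ faceIdeal k K) : TT k i p ∈ faceIdeal k K := by
  rw [p.as_sum, map_sum]
  refine Submodule.sum_mem _ ?_
  intro β hβ
  have h1 : β.support ∉ K := by
    intro h
    exact (mem_support_iff.mp hβ) (coeff_of_mem_faceIdeal hK p hp β h)
  have h2 : monomial β (coeff β p) = coeff β p • (monomial β (1 : k)) := by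
    rw [smul_monomial, smul_eq_mul, mul_one]
  rw [h2, map_smul, TT_monomial]
  by_cases h : 2 ≤ β i
  · rw [if_pos h, smul_monomial]
    apply monomial_mem_faceIdeal
    have h3 : (β - Finsupp.single i 1).support = β.support := by
      ext j
      rw [Finsupp.mem_support_iff, Finsupp.mem_support_iff, Finsupp.tsub_apply]
      by_cases hj : j = i
      · subst hj
        rw [Finsupp.single_eq_same]; omega
      · rw [Finsupp.single_eq_of_ne hj]; omega
    rw [h3]; exact h1
  · rw [if_neg h, smul_zero]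
    exact Submodule.zero_mem _

/-- descend a `k`-linear map through the face ideal. -/
noncomputable def descend {N : Type*} [AddCommGroup N] [Module k N]
    (f : MvPolynomial (Fin m) k →ₗ[k] N) (hf : ∀ p ∈ faceIdeal k K, f p = 0) :
    FaceRing k K →ₗ[k] N where
  toFun := Quotient.lift (fun p => f p) (by
    intro a b hab
    have h : a - b ∈ faceIdeal k K := by
      rw [← Ideal.Quotient.eq]
      exact Quotient.sound hab
    have h2 := hf _ h
    rw [map_sub, sub_eq_zero] at h2
    exact h2)
  map_add' := by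
    intro x y
    obtain ⟨a, rfl⟩ := Ideal.Quotient.mk_surjective x
    obtain ⟨b, rfl⟩ := Ideal.Quotient.mk_surjective y
    exact map_add f a b
  map_smul' := by
    intro c x
    obtain ⟨a, rfl⟩ := Ideal.Quotient.mk_surjective x
    exact map_smul f c a

theorem descend_mk {N : Type*} [AddCommGroup N] [Module k N]
    (f : MvPolynomial (Fin m) k →ₗ[k] N) (hf : ∀ p ∈ faceIdeal k K, f p = 0)
    (p : MvPolynomial (Fin m) k) :
    descend f hf (Ideal.Quotient.mk (faceIdeal k K) p) = f p := rfl

/-- the composite of the lowering operator and the quotient map -/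
noncomputable def TTq (k : Type w) [Field k] {m : ℕ} (K : Set (Finset (Fin m))) (i : Fin m) :
    MvPolynomial (Fin m) k →ₗ[k] FaceRing k K :=
  ((Ideal.Quotient.mkₐ k (faceIdeal k K)).toLinearMap) ∘ₗ TT k i

theorem TTq_apply (i : Fin m) (p : MvPolynomial (Fin m) k) :
    TTq k K i p = Ideal.Quotient.mk (faceIdeal k K) (TT k i p) := rfl

theorem TTq_zero (hK : ∀ σ ∈ K, ∀ τ ⊆ σ, τ ∈ K) (i : Fin m) :
    ∀ p ∈ faceIdeal k K, TTq k K i p = 0 := by
  intro p hp
  rw [TTq_apply]
  exact Ideal.Quotient.eq_zero_iff_mem.mpr (TT_mem hK i p hp)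

theorem support_ind (σ : Finset (Fin m)) : (fs (ind σ)).support = σ := by
  ext i
  rw [Finsupp.mem_support_iff, fs_apply, ind]
  simp

theorem lcoeff_zero (hK : ∀ σ ∈ K, ∀ τ ⊆ σ, τ ∈ K) (σ : Finset (Fin m)) (hσ : σ ∈ K) :
    ∀ p ∈ faceIdeal k K, lcoeff k (fs (ind σ)) p = 0 := by
  intro p hp
  rw [lcoeff_apply]
  refine coeff_of_mem_faceIdeal hK p hp _ ?_
  rw [support_ind]; exact hσ

open Classical in
/-- the coefficient functional on the face ring -/
noncomputable def cc (k : Type w) [Field k] {m : ℕ} (K : Set (Finset (Fin m)))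
    (hK : ∀ σ ∈ K, ∀ τ ⊆ σ, τ ∈ K) (σ : Finset (Fin m)) : FaceRing k K →ₗ[k] k :=
  if h : σ ∈ K then descend (lcoeff k (fs (ind σ))) (lcoeff_zero hK σ h) else 0

theorem cc_mk (hK : ∀ σ ∈ K, ∀ τ ⊆ σ, τ ∈ K) (σ : Finset (Fin m)) (h : σ ∈ K)
    (p : MvPolynomial (Fin m) k) :
    cc k K hK σ (Ideal.Quotient.mk (faceIdeal k K) p) = coeff (fs (ind σ)) p := by
  unfold cc
  rw [dif_pos h]
  exact descend_mk _ _ p

theorem fs_coe (β : Fin m →₀ ℕ) : fs (fun i => β i) = β := by ext; rfl

/-- The face ring satisfies `FaceData`. -/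
noncomputable def faceData (k : Type w) [Field k] {m : ℕ} (K : Set (Finset (Fin m)))
    (hK : ∀ σ ∈ K, ∀ τ ⊆ σ, τ ∈ K) : FaceData k (vv k K) (fun σ => σ ∈ K) where
  span_mon := by
    rw [eq_top_iff]
    rintro x -
    obtain ⟨p, rfl⟩ := Ideal.Quotient.mk_surjective x
    rw [p.as_sum, map_sum]
    refine Submodule.sum_mem _ ?_
    intro β _
    have h2 : monomial β (coeff β p) = coeff β p • (monomial β (1 : k)) := by
      rw [smul_monomial, smul_eq_mul, mul_one]
    have h3 : Ideal.Quotient.mk (faceIdeal k K) (coeff β p • (monomial β (1 : k))) =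
      coeff β p • Ideal.Quotient.mk (faceIdeal k K) (monomial β (1 : k)) := rfl
    rw [h2, h3]
    refine Submodule.smul_mem _ _ (Submodule.subset_span ⟨fun i => β i, ?_⟩)
    rw [mon_vv, fs_coe]
  T := fun i => descend (TTq k K i) (TTq_zero hK i)
  T_mon := by
    intro i α
    rw [mon_vv, descend_mk, TTq_apply, TT_monomial, fs_apply]
    by_cases h : 2 ≤ α i
    · rw [if_pos h, if_pos h, mon_vv]
      have : fs α - Finsupp.single i 1 = fs (Function.update α i (α i - 1)) := by
        ext j
        rw [Finsupp.tsub_apply, fs_apply, fs_apply]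
        by_cases hj : j = i
        · subst hj; simp
        · rw [Finsupp.single_eq_of_ne hj, Function.update_of_ne hj, Nat.sub_zero]
      rw [this]
    · rw [if_neg h, if_neg h, map_zero]
  c := cc k K hK
  c_mon := by
    intro σ hσ α
    rw [mon_vv, cc_mk hK σ hσ, coeff_monomial]
    by_cases h : α = ind σ
    · rw [if_pos h, if_pos (by rw [h])]
    · rw [if_neg h, if_neg]
      intro h2
      exact h (Finsupp.equivFunOnFinite.symm.injective h2)
  mon_zero := by
    intro σ hσ
    rw [mon_vv, ← prod_X_eq]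
    exact Ideal.Quotient.eq_zero_iff_mem.mpr (Ideal.subset_span ⟨σ, hσ, rfl⟩)

end

end Pool.Agent.Lib_helper42.Kz
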