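import Mathlib
import Pool.Agent.Lib_helper42.Kz.FaceRing

/-! Coordinates on the Koszul algebra and the triangular independence lemma. -/

set_option autoImplicit false

namespace Pool.Agent.Lib_helper42.Kz

universe u w

theorem linInd_of_triangular {k : Type*} [Field k] {V : Type*} [AddCommGroup V] [Module k V]
    {ι : Type*} (f : ι → V) (g : ι → V →ₗ[k] k) (r : ι → ℕ)
    (h1 : ∀ i, g i (f i) ≠ 0) (h2 : ∀ i j, i ≠ j → g i (f j) ≠ 0 → r i < r j) :
    LinearIndependent k f := by
  classical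
  rw [linearIndependent_iff']
  intro s c hsum
  by_contra hcon
  push Not at hcon
  obtain ⟨i0, hi0, hc0⟩ := hcon
  let S := s.filter (fun i => c i ≠ 0)
  have hS : S.Nonempty := ⟨i0, Finset.mem_filter.mpr ⟨hi0, hc0⟩⟩
  obtain ⟨i, hiS, hmax⟩ := Finset.exists_max_image S r hS
  have hi : i ∈ s := (Finset.mem_filter.mp hiS).1
  have hci : c i ≠ 0 := (Finset.mem_filter.mp hiS).2
  have h3 : g i (∑ j ∈ s, c j • f j) = 0 := by rw [hsum, map_zero]
  rw [map_sum, Finset.sum_eq_single i] at h3
  · rw [map_smul, smul_eq_mul] at h3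
    exact (mul_ne_zero hci (h1 i)) h3
  · intro j hj hji
    rw [map_smul, smul_eq_mul]
    by_cases hcj : c j = 0
    · rw [hcj, zero_mul]
    · have : g i (f j) = 0 := by
        by_contra hne
        have h4 := h2 i j hji.symm hne
        have h5 := hmax j (Finset.mem_filter.mpr ⟨hj, hcj⟩)
        omega
      rw [this, mul_zero]
  · intro h; exact absurd hi h

variable {k : Type w} [Field k] {R : Type u} [CommRing R] [Algebra k R] {m : ℕ}
variable {v : Fin m → R} {K : Finset (Fin m) → Prop}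

theorem ind_inj {σ τ : Finset (Fin m)} (h : ind σ = ind τ) : σ = τ := by
  ext i
  have := congrFun h i
  unfold ind at this
  by_cases h1 : i ∈ σ <;> by_cases h2 : i ∈ τ <;> simp_all

theorem ind_insert {σ : Finset (Fin m)} {i : Fin m} (hi : i ∉ σ) :
    ind (insert i σ) = ind σ + Pi.single i 1 := by
  funext j
  by_cases hj : j = i
  · subst hj
    simp [ind, hi]
  · simp [ind, hj]

/-- coordinate functional -/
noncomputable def FaceData.coord (D : FaceData k v K) (σ J : Finset (Fin m)) : EA R m →ₗ[k] k :=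
  (D.c σ) ∘ₗ (((bE R m).coord J).restrictScalars k)

theorem FaceData.coord_smul (D : FaceData k v K) (σ J L : Finset (Fin m)) (f : R) :
    D.coord σ J (f • EE L) = if L = J then D.c σ f else 0 := by
  unfold FaceData.coord
  rw [LinearMap.comp_apply, LinearMap.restrictScalars_apply, map_smul,
    Module.Basis.coord_apply, ← bE_apply, Module.Basis.repr_self]
  by_cases h : L = J
  · subst h; simp
  · rw [Finsupp.single_eq_of_ne (Ne.symm h), smul_zero, map_zero, if_neg h]

theorem FaceData.coord_mon (D : FaceData k v K) (σ J L : Finset (Fin m)) (hσ : K σ)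
    (α : Fin m → ℕ) :
    D.coord σ J (mon v α • EE L) = if L = J ∧ α = ind σ then 1 else 0 := by
  rw [D.coord_smul, D.c_mon σ hσ]
  by_cases h : L = J
  · rw [if_pos h]
    by_cases h2 : α = ind σ
    · rw [if_pos h2, if_pos ⟨h, h2⟩]
    · rw [if_neg h2, if_neg (fun h3 => h2 h3.2)]
  · rw [if_neg h, if_neg (fun h3 => h h3.1)]

theorem kd_mon_EE (v : Fin m → R) (α : Fin m → ℕ) (J : Finset (Fin m)) :
    kd v (mon v α • EE J) =
      ∑ i ∈ J, sgn i J • (mon v (α + Pi.single i 1) • EE (J.erase i)) := by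
  rw [map_smul, kd_EE, Finset.smul_sum]
  refine Finset.sum_congr rfl ?_
  intro i _
  rw [smul_comm (mon v α) (sgn i J), smul_smul, mon_mul_v]

theorem kd_cell (v : Fin m → R) (σ J : Finset (Fin m)) (h : Disjoint σ J) :
    kd v (cell v σ J) = ∑ i ∈ J, sgn i J • cell v (insert i σ) (J.erase i) := by
  unfold cell
  rw [kd_mon_EE]
  refine Finset.sum_congr rfl ?_
  intro i hi
  have : i ∉ σ := fun h2 => (Finset.disjoint_left.mp h) h2 hi
  rw [ind_insert this]

theorem FaceData.coord_kd_cell (D : FaceData k v K) (τ L σ J : Finset (Fin m)) (hτ : K τ)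
    (h : Disjoint σ J) :
    D.coord τ L (kd v (cell v σ J)) =
      ∑ i ∈ J, sgn i J • (if J.erase i = L ∧ insert i σ = τ then (1 : k) else 0) := by
  rw [kd_cell v σ J h, map_sum]
  refine Finset.sum_congr rfl ?_
  intro i _
  rw [map_zsmul, cell, D.coord_mon τ L _ hτ]
  congr 1
  by_cases h1 : J.erase i = L
  · by_cases h2 : insert i σ = τ
    · rw [if_pos ⟨h1, by rw [h2]⟩, if_pos ⟨h1, h2⟩]
    · rw [if_neg (fun h3 => h2 (ind_inj h3.2)), if_neg (fun h3 => h2 h3.2)]
  · rw [if_neg (fun h3 => h1 h3.1), if_neg (fun h3 => h1 h3.1)]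

end Pool.Agent.Lib_helper42.Kz
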