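import Mathlib
import Pool.Agent.Lib_helper42.Kz.Coord

/-! Reconstruction of an algebra from its pairing, when all triple products vanish. -/

set_option autoImplicit false

namespace Pool.Agent.Lib_helper42.Kz

universe u w

/-- number of the dual basis element -/
def du (x : Fin 64) : Fin 64 :=
  if x.1 = 0 then 63 else if x.1 = 63 then 0
  else if x.1 ≤ 16 then ⟨(x.1 + 46) % 64, Nat.mod_lt _ (by norm_num)⟩
  else if 47 ≤ x.1 then ⟨x.1 - 46, by omega⟩
  else if x.1 ≤ 31 then ⟨(x.1 + 15) % 64, Nat.mod_lt _ (by norm_num)⟩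
  else ⟨x.1 - 15, by omega⟩

/-- the Gram matrix -/
def gr (x y : Fin 64) : ℤ := if y = du x then (if 47 ≤ x.1 ∧ x.1 ≤ 62 then -1 else 1) else 0

/-- first degree of the basis elements -/
def bi (x : Fin 64) : ℕ :=
  if x.1 = 0 then 0 else if x.1 ≤ 16 then 1 else if x.1 ≤ 46 then 2 else if x.1 ≤ 62 then 3 else 4

/-- second degree of the basis elements -/
def bj (x : Fin 64) : ℕ :=
  if x.1 = 0 then 0 else if x.1 ≤ 16 then 3 else if x.1 ≤ 46 then 4 else if x.1 ≤ 62 then 5 else 8

theorem gr_ne (x y : Fin 64) : gr x y ≠ 0 ↔ y = du x := by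
  unfold gr
  constructor
  · intro h
    by_contra h2
    rw [if_neg h2] at h
    exact h rfl
  · intro h
    rw [if_pos h]
    split_ifs <;> decide

theorem du_du (x : Fin 64) : du (du x) = x := by revert x; decide

theorem gr_du (x : Fin 64) : gr (du x) x = 1 ∨ gr (du x) x = -1 := by
  revert x; decide

theorem bi_du (x : Fin 64) : bi (du x) + bi x = 4 := by revert x; decide

theorem bj_du (x : Fin 64) : bj (du x) + bj x = 8 := by revert x; decide

/-- An algebra with a dual system of 64 elements. -/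
structure DualSys (k : Type w) [Field k] (A : Type u) [Ring A] [Algebra k A]
    (PA : ℕ → ℕ → Submodule k A) where
  h : Fin 64 → A
  l : A →ₗ[k] k
  fin : Module.Finite k A
  rk : Module.finrank k A ≤ 64
  one : h 0 = 1
  gram : ∀ x y, l (h x * h y) = ((gr x y : ℤ) : k)
  mem : ∀ x, h x ∈ PA (bi x) (bj x)
  mul_mem : ∀ i j i' j' a b, a ∈ PA i j → b ∈ PA i' j' → a * b ∈ PA (i + i') (j + j')
  vanish : ∀ i j a, a ∈ PA i j → ¬ (i = 4 ∧ j = 8) → l a = 0

variable {k : Type w} [Field k] {A : Type u} [Ring A] [Algebra k A]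
    {PA : ℕ → ℕ → Submodule k A}

theorem DualSys.gr_du_ne (x : Fin 64) : ((gr (du x) x : ℤ) : k) ≠ 0 := by
  rcases gr_du x with h | h <;> rw [h] <;> simp

theorem DualSys.linInd (S : DualSys k A PA) : LinearIndependent k S.h := by
  refine linInd_of_triangular S.h (fun x => S.l ∘ₗ LinearMap.mulLeft k (S.h (du x)))
    (fun _ => 0) ?_ ?_
  · intro x
    rw [LinearMap.comp_apply, LinearMap.mulLeft_apply, S.gram]
    exact gr_du_ne x
  · intro x y hxy h
    exfalso
    rw [LinearMap.comp_apply, LinearMap.mulLeft_apply, S.gram] at h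
    have h1 : gr (du x) y ≠ 0 := by
      intro h2; rw [h2] at h; exact h Int.cast_zero
    rw [gr_ne, du_du] at h1
    exact hxy h1.symm

theorem DualSys.finrank_eq (S : DualSys k A PA) : Fintype.card (Fin 64) = Module.finrank k A := by
  have := S.fin
  apply le_antisymm
  · exact S.linInd.fintype_card_le_finrank
  · rw [Fintype.card_fin]; exact S.rk

/-- the basis -/
noncomputable def DualSys.basis (S : DualSys k A PA) : Module.Basis (Fin 64) k A :=
  basisOfLinearIndependentOfCardEqFinrank S.linInd S.finrank_eq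

theorem DualSys.basis_apply (S : DualSys k A PA) (x : Fin 64) : S.basis x = S.h x := by
  unfold DualSys.basis
  rw [coe_basisOfLinearIndependentOfCardEqFinrank]

theorem DualSys.expand (S : DualSys k A PA) (a : A) (x : Fin 64) :
    S.l (S.h (du x) * a) = S.basis.repr a x * ((gr (du x) x : ℤ) : k) := by
  conv_lhs => rw [← S.basis.sum_repr a]
  rw [Finset.mul_sum, map_sum, Finset.sum_eq_single x]
  · rw [mul_smul_comm, map_smul, S.basis_apply, S.gram, smul_eq_mul]
  · intro y _ hy
    rw [mul_smul_comm, map_smul, S.basis_apply, S.gram]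
    have : gr (du x) y = 0 := by
      by_contra h
      have h1 := (gr_ne _ _).mp h
      rw [du_du] at h1
      exact hy h1
    rw [this, Int.cast_zero, smul_zero]
  · intro h; exact absurd (Finset.mem_univ _) h

theorem DualSys.eq_zero (S : DualSys k A PA) (a : A) (h : ∀ x, S.l (S.h x * a) = 0) : a = 0 := by
  rw [← S.basis.sum_repr a]
  refine Finset.sum_eq_zero ?_
  intro x _
  have h1 := S.expand a x
  rw [h (du x)] at h1
  have h2 : S.basis.repr a x = 0 := by
    rcases mul_eq_zero.mp h1.symm with h3 | h3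
    · exact h3
    · exact absurd h3 (gr_du_ne x)
  rw [h2, zero_smul]

theorem DualSys.mul_eq (S : DualSys k A PA) (x y : Fin 64) (hx : x ≠ 0) (hy : y ≠ 0) :
    S.h x * S.h y = ((gr x y : ℤ) : k) • S.h 63 := by
  rw [← sub_eq_zero]
  apply S.eq_zero
  intro z
  rw [mul_sub, map_sub, mul_smul_comm, map_smul, S.gram]
  by_cases hz : z = 0
  · subst hz
    rw [S.one, one_mul, S.gram]
    have : gr 0 63 = 1 := by decide
    rw [this]; simp
  · have h1 : gr z 63 = 0 := by
      by_contra h
      have := (gr_ne _ _).mp h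
      apply hz
      rw [← du_du z, ← this]
      decide
    rw [h1, Int.cast_zero, smul_zero, sub_zero]
    have h2 := S.mul_mem _ _ _ _ _ _ (S.mem z) (S.mul_mem _ _ _ _ _ _ (S.mem x) (S.mem y))
    apply S.vanish _ _ _ h2
    rintro ⟨_, h3⟩
    have h4 : ∀ x : Fin 64, x ≠ 0 → 3 ≤ bj x := by decide
    have := h4 x hx
    have := h4 y hy
    have := h4 z hz
    omega

theorem DualSys.part_eq (S : DualSys k A PA) (i j : ℕ) :
    PA i j = Submodule.span k {a | ∃ x, bi x = i ∧ bj x = j ∧ a = S.h x} := by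
  apply le_antisymm
  · intro a ha
    rw [← S.basis.sum_repr a]
    refine Submodule.sum_mem _ ?_
    intro x _
    by_cases hx : bi x = i ∧ bj x = j
    · refine Submodule.smul_mem _ _ (Submodule.subset_span ⟨x, hx.1, hx.2, S.basis_apply x⟩)
    · have h1 := S.expand a x
      have h2 := S.mul_mem _ _ _ _ _ _ (S.mem (du x)) ha
      have h3 := S.vanish _ _ _ h2 (by
        rintro ⟨h4, h5⟩
        have := bi_du x
        have := bj_du x
        exact hx ⟨by omega, by omega⟩)
      rw [h3] at h1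
      rcases mul_eq_zero.mp h1.symm with h4 | h4
      · rw [h4, zero_smul]; exact Submodule.zero_mem _
      · exact absurd h4 (gr_du_ne x)
  · rw [Submodule.span_le]
    rintro _ ⟨x, rfl, rfl, rfl⟩
    exact S.mem x

universe u'

variable {B : Type u'} [Ring B] [Algebra k B] {PB : ℕ → ℕ → Submodule k B}

theorem DualSys.exists_equiv (S : DualSys k A PA) (S' : DualSys k B PB) :
    ∃ φ : A ≃ₐ[k] B, ∀ i j, (PA i j).map φ.toLinearMap = PB i j := by
  let φ0 : A ≃ₗ[k] B := S.basis.equiv S'.basis (Equiv.refl _)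
  have hφ : ∀ x, φ0 (S.h x) = S'.h x := by
    intro x
    rw [← S.basis_apply, ← S'.basis_apply]
    simp [φ0]
  have hone : φ0 1 = 1 := by rw [← S.one, ← S'.one, hφ]
  have hmulb : ∀ x y, φ0 (S.h x * S.h y) = S'.h x * S'.h y := by
    intro x y
    by_cases hx : x = 0
    · subst hx; rw [S.one, S'.one, one_mul, one_mul, hφ]
    · by_cases hy : y = 0
      · subst hy; rw [S.one, S'.one, mul_one, mul_one, hφ]
      · rw [S.mul_eq x y hx hy, S'.mul_eq x y hx hy, map_smul, hφ]
  have hmul : ∀ a b, φ0 (a * b) = φ0 a * φ0 b := by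
    intro a b
    have h1 : (LinearMap.mul k A).compr₂ φ0.toLinearMap =
        (LinearMap.mul k B).compl₁₂ φ0.toLinearMap φ0.toLinearMap := by
      refine S.basis.ext (fun x => ?_)
      refine S.basis.ext (fun y => ?_)
      simp only [LinearMap.compr₂_apply, LinearMap.mul_apply', LinearMap.compl₁₂_apply,
        LinearEquiv.coe_coe, S.basis_apply]
      rw [hmulb, hφ, hφ]
    exact LinearMap.congr_fun₂ h1 a b
  refine ⟨AlgEquiv.ofLinearEquiv φ0 hone hmul, ?_⟩
  intro i j
  rw [S.part_eq, S'.part_eq, Submodule.map_span]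
  congr 1
  ext b
  constructor
  · rintro ⟨_, ⟨x, h1, h2, rfl⟩, rfl⟩
    exact ⟨x, h1, h2, hφ x⟩
  · rintro ⟨x, h1, h2, rfl⟩
    exact ⟨S.h x, ⟨x, h1, h2, rfl⟩, hφ x⟩

end Pool.Agent.Lib_helper42.Kz
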