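import Mathlib

/-! Bitmasks for subsets of `Fin 8`, and loops that are cheap to evaluate. -/

set_option autoImplicit false

namespace Pool.Agent.Lib_helper42.Kz

/-- The subset of `Fin 8` with bitmask `n`. -/
def T (n : ℕ) : Finset (Fin 8) := Finset.univ.filter (fun i => n.testBit i = true)

theorem mem_T {n : ℕ} {i : Fin 8} : i ∈ T n ↔ n.testBit i = true := by simp [T]

theorem testBit_ge {n : ℕ} (hn : n < 256) {i : ℕ} (hi : 8 ≤ i) : n.testBit i = false := by
  apply Nat.testBit_eq_false_of_lt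
  calc n < 2 ^ 8 := hn
    _ ≤ 2 ^ i := Nat.pow_le_pow_right (by norm_num) hi

theorem T_inj {a b : ℕ} (ha : a < 256) (hb : b < 256) (h : T a = T b) : a = b := by
  apply Nat.eq_of_testBit_eq
  intro i
  by_cases hi : i < 8
  · have := congrArg (fun S => (⟨i, hi⟩ : Fin 8) ∈ S) h
    simp only [mem_T, eq_iff_iff] at this
    exact Bool.eq_iff_iff.mpr this
  · rw [testBit_ge ha (not_lt.mp hi), testBit_ge hb (not_lt.mp hi)]

theorem T_surj (σ : Finset (Fin 8)) : ∃ n < 256, T n = σ := by
  have hinj : Function.Injective (fun n : Fin 256 => T n) := by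
    intro a b h
    exact Fin.ext (T_inj a.2 b.2 h)
  have hbij := (Fintype.bijective_iff_injective_and_card (fun n : Fin 256 => T n)).mpr
    ⟨hinj, by simp⟩
  obtain ⟨n, hn⟩ := hbij.2 σ
  exact ⟨n, n.2, hn⟩

/-- the bitmask of a subset -/
noncomputable def bm (σ : Finset (Fin 8)) : ℕ := (T_surj σ).choose

theorem bm_lt (σ : Finset (Fin 8)) : bm σ < 256 := (T_surj σ).choose_spec.1

theorem T_bm (σ : Finset (Fin 8)) : T (bm σ) = σ := (T_surj σ).choose_spec.2

theorem bm_T {n : ℕ} (hn : n < 256) : bm (T n) = n := T_inj (bm_lt _) hn (T_bm _)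

theorem disjoint_T {s t : ℕ} (hs : s < 256) : Disjoint (T s) (T t) ↔ s &&& t = 0 := by
  rw [Finset.disjoint_left]
  constructor
  · intro h
    apply Nat.eq_of_testBit_eq
    intro i
    rw [Nat.testBit_and, Nat.zero_testBit]
    by_cases hi : i < 8
    · have := @h ⟨i, hi⟩
      rw [mem_T, mem_T] at this
      by_cases h1 : s.testBit i = true
      · have h2 := this h1
        simp only [Bool.not_eq_true] at h2
        rw [h2, Bool.and_false]
      · simp only [Bool.not_eq_true] at h1
        rw [h1, Bool.false_and]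
    · rw [testBit_ge hs (not_lt.mp hi), Bool.false_and]
  · intro h i hi hi2
    rw [mem_T] at hi hi2
    have := congrArg (fun n => n.testBit i) h
    simp only [Nat.testBit_and, Nat.zero_testBit, hi, hi2] at this
    exact absurd this (by decide)

theorem xor_lt {s i : ℕ} (hs : s < 256) (hi : i < 8) : s ^^^ 2 ^ i < 256 := by
  have h1 : 2 ^ i < 2 ^ 8 := Nat.pow_lt_pow_right (by norm_num) hi
  exact Nat.xor_lt_two_pow (n := 8) hs h1

theorem mem_T_xor {s : ℕ} {i j : Fin 8} :
    j ∈ T (s ^^^ 2 ^ (i : ℕ)) ↔ (if j = i then j ∉ T s else j ∈ T s) := by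
  rw [mem_T, mem_T, Nat.testBit_xor, Nat.testBit_two_pow]
  by_cases h : j = i
  · subst h
    cases h1 : s.testBit j <;> simp
  · have h2 : ¬ ((i : ℕ) = (j : ℕ)) := fun h3 => h (Fin.ext h3.symm)
    cases h1 : s.testBit j <;> simp [h, h2]

theorem T_xor_insert {s : ℕ} {i : Fin 8} (h : i ∉ T s) : T (s ^^^ 2 ^ (i : ℕ)) = insert i (T s) := by
  ext j
  rw [mem_T_xor, Finset.mem_insert]
  by_cases hj : j = i
  · subst hj; simp [h]
  · simp [hj]

theorem T_xor_erase {s : ℕ} {i : Fin 8} (h : i ∈ T s) : T (s ^^^ 2 ^ (i : ℕ)) = (T s).erase i := by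
  ext j
  rw [mem_T_xor, Finset.mem_erase]
  by_cases hj : j = i
  · subst hj; simp [h]
  · simp [hj]

/-- bounded universal quantifier -/
def allBelow : ℕ → (ℕ → Bool) → Bool
  | 0, _ => true
  | n + 1, p => p n && allBelow n p

theorem allBelow_spec {n : ℕ} {p : ℕ → Bool} (h : allBelow n p = true) :
    ∀ i < n, p i = true := by
  induction n with
  | zero => intro i hi; omega
  | succ n ih =>
    rw [allBelow, Bool.and_eq_true] at h
    intro i hi
    rcases Nat.lt_succ_iff_lt_or_eq.mp hi with h1 | h1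
    · exact ih h.2 i h1
    · rw [h1]; exact h.1

/-- bounded sum -/
def sumBelow : ℕ → (ℕ → ℕ) → ℕ
  | 0, _ => 0
  | n + 1, p => p n + sumBelow n p

theorem sumBelow_eq (n : ℕ) (p : ℕ → ℕ) : ∑ i : Fin n, p i = sumBelow n p := by
  rw [Fin.sum_univ_eq_sum_range (fun i => p i) n]
  induction n with
  | zero => rfl
  | succ n ih => rw [Finset.sum_range_succ, ih, sumBelow, add_comm]

theorem card_pairs (p : ℕ → ℕ → Bool) (N : ℕ)
    (h : sumBelow 256 (fun s => sumBelow 256 (fun t => if p s t then 1 else 0)) = N) :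
    Fintype.card {x : Fin 256 × Fin 256 // p x.1 x.2 = true} = N := by
  rw [Fintype.card_subtype, Finset.card_filter, Fintype.sum_prod_type, ← h]
  rw [← sumBelow_eq 256 (fun s => sumBelow 256 (fun t => if p s t then 1 else 0))]
  refine Finset.sum_congr rfl ?_
  intro s _
  rw [← sumBelow_eq 256 (fun t => if p s t then 1 else 0)]

end Pool.Agent.Lib_helper42.Kz
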