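import Mathlib
import Pool.Agent.Lib_helper42.Kz.Coord
import Pool.Agent.Lib_helper42.Kz.Bits

/-! An upper bound on the dimension of the Koszul homology of a face ring on 8 vertices
from an acyclic matching. -/

set_option autoImplicit false

namespace Pool.Agent.Lib_helper42.Kz

universe u w

/-- vertex of a matching code -/
def cv (c : ℕ) : ℕ := (c - 1) % 8

/-- potential of a matching code -/
def cr (c : ℕ) : ℕ := (c - 1) / 8

/-- check of the matching at one cell -/
def okCell (F : ℕ) (cd : ℕ → ℕ → ℕ) (s t : ℕ) : Bool :=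
  (cd s t == 0) || ((s &&& t == 0) && F.testBit s && t.testBit (cv (cd s t)) &&
    F.testBit (s ^^^ 2 ^ cv (cd s t)) &&
    allBelow 8 (fun w => !(s.testBit w) ||
      ((cd (s ^^^ 2 ^ cv (cd s t) ^^^ 2 ^ w) (t ^^^ 2 ^ cv (cd s t) ^^^ 2 ^ w) == 0) ||
        Nat.blt (cr (cd s t))
          (cr (cd (s ^^^ 2 ^ cv (cd s t) ^^^ 2 ^ w) (t ^^^ 2 ^ cv (cd s t) ^^^ 2 ^ w))))))

/-- a valid matching table with the right number of entries -/
structure Matching (F : ℕ) (cd : ℕ → ℕ → ℕ) : Prop where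
  ok : allBelow 256 (fun s => allBelow 256 (okCell F cd s)) = true
  cntM : sumBelow 256 (fun s => sumBelow 256 (fun t => if cd s t != 0 then 1 else 0)) = 2304
  cntC : sumBelow 256 (fun s => sumBelow 256
    (fun t => if (s &&& t == 0 && F.testBit s) then 1 else 0)) = 4672

variable {k : Type w} [Field k] {R : Type u} [CommRing R] [Algebra k R]
variable {v : Fin 8 → R} {K : Finset (Fin 8) → Prop}

theorem ok_spec {F : ℕ} {cd : ℕ → ℕ → ℕ} (hM : Matching F cd) {s t : ℕ} (hs : s < 256)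
    (ht : t < 256) (hc : cd s t ≠ 0) :
    s &&& t = 0 ∧ F.testBit s = true ∧ t.testBit (cv (cd s t)) = true ∧
    F.testBit (s ^^^ 2 ^ cv (cd s t)) = true ∧
    ∀ w < 8, s.testBit w = true →
      cd (s ^^^ 2 ^ cv (cd s t) ^^^ 2 ^ w) (t ^^^ 2 ^ cv (cd s t) ^^^ 2 ^ w) ≠ 0 →
      cr (cd s t) < cr (cd (s ^^^ 2 ^ cv (cd s t) ^^^ 2 ^ w) (t ^^^ 2 ^ cv (cd s t) ^^^ 2 ^ w)) := by
  have h := allBelow_spec (allBelow_spec hM.ok s hs) t ht
  unfold okCell at h
  rw [Bool.or_eq_true, beq_iff_eq] at h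
  rcases h with h | h
  · exact absurd h hc
  · simp only [Bool.and_eq_true, beq_iff_eq] at h
    obtain ⟨⟨⟨⟨h1, h2⟩, h3⟩, h4⟩, h5⟩ := h
    refine ⟨h1, h2, h3, h4, ?_⟩
    intro w hw hsw hcw
    have h6 := allBelow_spec h5 w hw
    simp only [Bool.or_eq_true, Bool.not_eq_true', beq_iff_eq] at h6
    rcases h6 with h6 | h6 | h6
    · rw [hsw] at h6; exact absurd h6 (by decide)
    · exact absurd h6 hcw
    · exact Nat.blt_eq.mp h6

/-- the index type of lower cells -/
abbrev LowIdx (cd : ℕ → ℕ → ℕ) :=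
  {x : Fin 256 × Fin 256 // (fun s t => cd s t != 0) (x.1 : ℕ) (x.2 : ℕ) = true}

theorem cv_lt (c : ℕ) : cv c < 8 := Nat.mod_lt _ (by norm_num)

theorem lower_linInd (D : FaceData k v K) {F : ℕ} (hF : ∀ s < 256, K (T s) ↔ F.testBit s = true)
    {cd : ℕ → ℕ → ℕ} (hM : Matching F cd) :
    LinearIndependent k (fun x : LowIdx cd => kd v (cell v (T x.1.1) (T x.1.2))) := by
  have hne : ∀ x : LowIdx cd, cd x.1.1 x.1.2 ≠ 0 := by
    intro x
    simpa using x.2
  let V : LowIdx cd → Fin 8 := fun x => ⟨cv (cd x.1.1 x.1.2), cv_lt _⟩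
  refine linInd_of_triangular _
    (fun x => D.coord (insert (V x) (T x.1.1)) ((T x.1.2).erase (V x)))
    (fun x => cr (cd x.1.1 x.1.2)) ?_ ?_
  · intro x
    obtain ⟨h1, h2, h3, h4, _⟩ := ok_spec hM x.1.1.2 x.1.2.2 (hne x)
    have hd : Disjoint (T x.1.1) (T x.1.2) := (disjoint_T x.1.1.2).mpr h1
    have hVt : V x ∈ T x.1.2 := mem_T.mpr h3
    have hVs : V x ∉ T x.1.1 := fun h => (Finset.disjoint_left.mp hd) h hVt
    have hK : K (insert (V x) (T x.1.1)) := by
      rw [← T_xor_insert hVs, hF _ (xor_lt x.1.1.2 (V x).2)]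
      exact h4
    rw [D.coord_kd_cell _ _ _ _ hK hd, Finset.sum_eq_single (V x)]
    · rw [if_pos ⟨rfl, rfl⟩]
      intro h
      have := congrArg (fun z : k => sgn (V x) (T x.1.2) • z) h
      simp only [smul_smul, sgn_mul_self, one_smul, smul_zero] at this
      exact one_ne_zero this
    · intro i hi hiV
      rw [if_neg, smul_zero]
      rintro ⟨h5, _⟩
      have : i ∈ (T x.1.2).erase (V x) := Finset.mem_erase.mpr ⟨hiV, hi⟩
      rw [← h5] at this
      exact Finset.notMem_erase i _ this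
    · intro h; exact absurd hVt h
  · intro x y hxy hne0
    obtain ⟨h1, h2, h3, h4, h5⟩ := ok_spec hM x.1.1.2 x.1.2.2 (hne x)
    obtain ⟨g1, g2, g3, g4, _⟩ := ok_spec hM y.1.1.2 y.1.2.2 (hne y)
    have hd : Disjoint (T x.1.1) (T x.1.2) := (disjoint_T x.1.1.2).mpr h1
    have hdy : Disjoint (T y.1.1) (T y.1.2) := (disjoint_T y.1.1.2).mpr g1
    have hVt : V x ∈ T x.1.2 := mem_T.mpr h3
    have hVs : V x ∉ T x.1.1 := fun h => (Finset.disjoint_left.mp hd) h hVt
    have hK : K (insert (V x) (T x.1.1)) := by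
      rw [← T_xor_insert hVs, hF _ (xor_lt x.1.1.2 (V x).2)]
      exact h4
    rw [D.coord_kd_cell _ _ _ _ hK hdy] at hne0
    obtain ⟨i, hi, hi2⟩ := Finset.exists_ne_zero_of_sum_ne_zero hne0
    have hcond : (T y.1.2).erase i = (T x.1.2).erase (V x) ∧
        insert i (T y.1.1) = insert (V x) (T x.1.1) := by
      by_contra hcon
      rw [if_neg hcon, smul_zero] at hi2
      exact hi2 rfl
    obtain ⟨hc1, hc2⟩ := hcond
    have hiy : i ∉ T y.1.1 := fun h => (Finset.disjoint_left.mp hdy) h hi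
    by_cases hiV : i = V x
    · exfalso
      apply hxy
      have e1 : T y.1.1 = T x.1.1 := by
        rw [← Finset.erase_insert hiy, hc2, hiV, Finset.erase_insert hVs]
      have e2 : T y.1.2 = T x.1.2 := by
        rw [← Finset.insert_erase hi, hc1, hiV, Finset.insert_erase hVt]
      have e3 := T_inj y.1.1.2 x.1.1.2 e1
      have e4 := T_inj y.1.2.2 x.1.2.2 e2
      exact Subtype.ext (Prod.ext (Fin.ext e3.symm) (Fin.ext e4.symm))
    · have his : i ∈ T x.1.1 := by
        have : i ∈ insert (V x) (T x.1.1) := by rw [← hc2]; exact Finset.mem_insert_self _ _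
        exact (Finset.mem_insert.mp this).resolve_left hiV
      have hit : i ∉ T x.1.2 := fun h => (Finset.disjoint_left.mp hd) his h
      have e1 : T y.1.1 = T (x.1.1 ^^^ 2 ^ (V x : ℕ) ^^^ 2 ^ (i : ℕ)) := by
        have hmem : i ∈ T (x.1.1 ^^^ 2 ^ (V x : ℕ)) := by
          rw [T_xor_insert hVs]; exact Finset.mem_insert_of_mem his
        rw [T_xor_erase hmem, T_xor_insert hVs, ← hc2, Finset.erase_insert hiy]
      have e2 : T y.1.2 = T (x.1.2 ^^^ 2 ^ (V x : ℕ) ^^^ 2 ^ (i : ℕ)) := by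
        have hmem : i ∉ T (x.1.2 ^^^ 2 ^ (V x : ℕ)) := by
          rw [T_xor_erase hVt]; exact fun h => hit (Finset.mem_of_mem_erase h)
        rw [T_xor_insert hmem, T_xor_erase hVt, ← hc1, Finset.insert_erase hi]
      have e3 := T_inj y.1.1.2 (xor_lt (xor_lt x.1.1.2 (V x).2) i.2) e1
      have e4 := T_inj y.1.2.2 (xor_lt (xor_lt x.1.2.2 (V x).2) i.2) e2
      have h6 := h5 i i.2 (mem_T.mp his)
      have h7 : cd (x.1.1 ^^^ 2 ^ (V x : ℕ) ^^^ 2 ^ (i : ℕ))
          (x.1.2 ^^^ 2 ^ (V x : ℕ) ^^^ 2 ^ (i : ℕ)) ≠ 0 := by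
        rw [← e3, ← e4]; exact hne y
      have h8 := h6 h7
      show cr (cd x.1.1 x.1.2) < cr (cd y.1.1 y.1.2)
      rw [e3, e4]
      exact h8

/-- the span of the squarefree cells -/
noncomputable def Csf (k : Type w) [Field k] {R : Type u} [CommRing R] [Algebra k R]
    (v : Fin 8 → R) (K : Finset (Fin 8) → Prop) : Submodule k (EA R 8) :=
  Submodule.span k (cellSet v K)

theorem Csf_finite {F : ℕ} (hF : ∀ s < 256, K (T s) ↔ F.testBit s = true)
    {cd : ℕ → ℕ → ℕ} (hM : Matching F cd) :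
    Module.Finite k (Csf k v K) ∧ Module.finrank k (Csf k v K) ≤ 4672 := by
  let I := {x : Fin 256 × Fin 256 // (fun s t => (s &&& t == 0 && F.testBit s)) (x.1 : ℕ) (x.2 : ℕ) = true}
  let f : I → EA R 8 := fun x => cell v (T x.1.1) (T x.1.2)
  have hrange : Csf k v K = Submodule.span k (Set.range f) := by
    apply le_antisymm
    · unfold Csf
      rw [Submodule.span_le]
      rintro _ ⟨σ, J, hσ, hd, rfl⟩
      apply Submodule.subset_span
      refine ⟨⟨(⟨bm σ, bm_lt σ⟩, ⟨bm J, bm_lt J⟩), ?_⟩, ?_⟩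
      · simp only [Bool.and_eq_true, beq_iff_eq]
        refine ⟨?_, ?_⟩
        · rw [← disjoint_T (bm_lt σ), T_bm, T_bm]; exact hd
        · rw [← hF _ (bm_lt σ), T_bm]; exact hσ
      · show cell v (T (bm σ)) (T (bm J)) = _
        rw [T_bm, T_bm]
    · rw [Submodule.span_le]
      rintro _ ⟨x, rfl⟩
      apply Submodule.subset_span
      have hx := x.2
      simp only [Bool.and_eq_true, beq_iff_eq] at hx
      exact ⟨T x.1.1, T x.1.2, (hF _ x.1.1.2).mpr hx.2, (disjoint_T x.1.1.2).mpr hx.1, rfl⟩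
  have hcard : Fintype.card I = 4672 := card_pairs (fun s t => (s &&& t == 0 && F.testBit s)) _ hM.cntC
  rw [hrange]
  refine ⟨Module.Finite.span_of_finite k (Set.finite_range f), ?_⟩
  have := finrank_range_le_card (R := k) f
  rw [hcard] at this
  exact this

end Pool.Agent.Lib_helper42.Kz
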