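import Mathlib
import Pool.Agent.Lib_helper42.Kz.Rank

/-! The Koszul homology has dimension at most 64. -/

set_option autoImplicit false

namespace Pool.Agent.Lib_helper42.Kz

universe u w

variable {k : Type w} [Field k] {R : Type u} [CommRing R] [Algebra k R]
variable {v : Fin 8 → R} {K : Finset (Fin 8) → Prop}

theorem kd_mem_Csf (D : FaceData k v K) (x : EA R 8) (hx : x ∈ Csf k v K) :
    kd v x ∈ Csf k v K := by
  have hle : (Csf k v K).map ((kd v).restrictScalars k) ≤ Csf k v K := by
    unfold Csf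
    rw [Submodule.map_span, Submodule.span_le]
    rintro _ ⟨_, ⟨σ, J, hσ, hd, rfl⟩, rfl⟩
    rw [LinearMap.restrictScalars_apply, kd_cell v σ J hd]
    refine Submodule.sum_mem _ ?_
    intro i hi
    refine zsmul_mem ?_ _
    by_cases hK : K (insert i σ)
    · apply Submodule.subset_span
      refine ⟨insert i σ, J.erase i, hK, ?_, rfl⟩
      rw [Finset.disjoint_insert_left]
      exact ⟨Finset.notMem_erase i J, hd.mono_right (Finset.erase_subset i J)⟩
    · unfold cell
      rw [D.mon_zero _ hK, zero_smul]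
      exact Submodule.zero_mem _
  exact hle ⟨x, hx, rfl⟩

/-- the differential on squarefree chains -/
noncomputable def dC (D : FaceData k v K) : Csf k v K →ₗ[k] Csf k v K :=
  ((kd v).restrictScalars k).restrict (kd_mem_Csf D)

theorem dC_apply (D : FaceData k v K) (x : Csf k v K) :
    ((dC D x : Csf k v K) : EA R 8) = kd v x := rfl

theorem cls_eq_zero_iff (z : Zc k v) : cls k v z = 0 ↔ ∃ y, kd v y = z := by
  show Ideal.Quotient.mk (Bd k v) z = 0 ↔ _
  rw [Ideal.Quotient.eq_zero_iff_mem]
  rfl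

theorem cls_surj (x : Tor k v) : ∃ z, cls k v z = x := Ideal.Quotient.mk_surjective x

/-- the class map on squarefree cycles -/
noncomputable def gC (D : FaceData k v K) : LinearMap.ker (dC D) →ₗ[k] Tor k v where
  toFun z := cls k v ⟨((z : Csf k v K) : EA R 8), congrArg Subtype.val (LinearMap.mem_ker.mp z.2)⟩
  map_add' x y := by
    rw [← map_add]; rfl
  map_smul' c x := by
    rw [RingHom.id_apply, ← map_smul]; rfl

theorem gC_surj (D : FaceData k v K) : Function.Surjective (gC D) := by
  intro x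
  obtain ⟨z, rfl⟩ := cls_surj x
  obtain ⟨z', h1, h2, y, hy⟩ := D.sqf z.1 z.2
  refine ⟨⟨⟨z', h2⟩, ?_⟩, ?_⟩
  · rw [LinearMap.mem_ker]
    exact Subtype.ext h1
  · show cls k v ⟨z', _⟩ = cls k v z
    rw [← sub_eq_zero, ← map_sub, cls_eq_zero_iff]
    refine ⟨-y, ?_⟩
    rw [map_neg, hy]
    show -((z : EA R 8) - z') = z' - z
    abel

theorem finrank_Tor_le (D : FaceData k v K) {F : ℕ}
    (hF : ∀ s < 256, K (T s) ↔ F.testBit s = true)
    {cd : ℕ → ℕ → ℕ} (hM : Matching F cd) :
    Module.Finite k (Tor k v) ∧ Module.finrank k (Tor k v) ≤ 64 := by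
  classical
  obtain ⟨hfin, hle⟩ := Csf_finite (k := k) (v := v) hF hM
  have hkerfin : Module.Finite k (LinearMap.ker (dC D)) := inferInstance
  have hT : Module.Finite k (Tor k v) := Module.Finite.of_surjective (gC D) (gC_surj D)
  refine ⟨hT, ?_⟩
  have e1 := LinearMap.finrank_range_add_finrank_ker (dC D)
  have e2 := LinearMap.finrank_range_add_finrank_ker (K := k) (V := LinearMap.ker (dC D))
    (V₂ := Tor k v) (gC D)
  rw [LinearMap.range_eq_top.mpr (gC_surj D), finrank_top] at e2
  -- the rank of dC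
  have e3 : 2304 ≤ Module.finrank k (LinearMap.range (dC D)) := by
    have hne : ∀ x : LowIdx cd, cd x.1.1 x.1.2 ≠ 0 := by
      intro x
      simpa using x.2
    have hcell : ∀ x : LowIdx cd, cell v (T x.1.1) (T x.1.2) ∈ Csf k v K := by
      intro x
      obtain ⟨h1, h2, _⟩ := ok_spec hM x.1.1.2 x.1.2.2 (hne x)
      exact Submodule.subset_span ⟨T x.1.1, T x.1.2, (hF _ x.1.1.2).mpr h2,
        (disjoint_T x.1.1.2).mpr h1, rfl⟩
    let f : LowIdx cd → LinearMap.range (dC D) := fun x =>
      ⟨dC D ⟨cell v (T x.1.1) (T x.1.2), hcell x⟩, LinearMap.mem_range_self _ _⟩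
    have hlin : LinearIndependent k f := by
      have h0 := lower_linInd D hF hM
      let ι : LinearMap.range (dC D) →ₗ[k] EA R 8 :=
        (Csf k v K).subtype ∘ₗ (LinearMap.range (dC D)).subtype
      exact LinearIndependent.of_comp ι h0
    have hcard : Fintype.card (LowIdx cd) = 2304 := card_pairs (fun s t => cd s t != 0) _ hM.cntM
    have := hlin.fintype_card_le_finrank
    rw [hcard] at this
    exact this
  have e4 : Module.finrank k (LinearMap.range (dC D)) ≤ Module.finrank k (LinearMap.ker (gC D)) := by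
    have hle2 : LinearMap.range (dC D) ≤ (LinearMap.ker (gC D)).map (LinearMap.ker (dC D)).subtype := by
      rintro _ ⟨y, rfl⟩
      have h1 : dC D (dC D y) = 0 := Subtype.ext (kd_kd v _)
      refine ⟨⟨dC D y, LinearMap.mem_ker.mpr h1⟩, ?_, rfl⟩
      show gC D _ = 0
      show cls k v ⟨_, _⟩ = 0
      rw [cls_eq_zero_iff]
      exact ⟨(y : EA R 8), rfl⟩
    have h2 := Submodule.finrank_mono hle2
    rwa [Submodule.finrank_map_subtype_eq] at h2
  omega

end Pool.Agent.Lib_helper42.Kz
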