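import Mathlib
import Pool.Agent.Lib_helper42.Kz.Bits

/-! Moment-angle complexes and the Buchstaber invariants. -/

set_option autoImplicit false

namespace Pool.Agent.Lib_helper42.Kz

variable {m : ℕ}

/-- The moment-angle complex: the union over `σ ∈ K` of `(D²)^σ × (S¹)^{[m] \ σ}`. -/
def ZK (K : Set (Finset (Fin m))) : Set (Fin m → ℂ) :=
  ⋃ σ ∈ K, {z | (∀ i ∈ σ, ‖z i‖ ≤ 1) ∧ ∀ i, i ∉ σ → ‖z i‖ = 1}

/-- The real moment-angle complex: the union over `σ ∈ K` of `(D¹)^σ × (S⁰)^{[m] \ σ}`. -/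
def RZK (K : Set (Finset (Fin m))) : Set (Fin m → ℝ) :=
  ⋃ σ ∈ K, {x | (∀ i ∈ σ, |x i| ≤ 1) ∧ ∀ i, i ∉ σ → |x i| = 1}

/-- The subgroup `H` of the torus `T^m` acts freely on the moment-angle complex. -/
def ActsFreely (K : Set (Finset (Fin m))) (H : Subgroup (Fin m → Circle)) : Prop :=
  ∀ z ∈ ZK K, ∀ t ∈ H, (fun i => (t i : ℂ) * z i) = z → t = 1

/-- The subgroup `H` of `{1,-1}^m` acts freely on the real moment-angle complex. -/
def RActsFreely (K : Set (Finset (Fin m))) (H : Subgroup (Fin m → ℤˣ)) : Prop :=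
  ∀ x ∈ RZK K, ∀ t ∈ H, (fun i => (((t i : ℤ) : ℝ)) * x i) = x → t = 1

/-- The dimensions of the toric subgroups of `T^m` acting freely on the moment-angle complex. -/
def freeDims (K : Set (Finset (Fin m))) : Set ℕ :=
  {r | ∃ H : Subgroup (Fin m → Circle), Nonempty ((Fin r → Circle) ≃ₜ* H) ∧ ActsFreely K H}

/-- The ranks of the subgroups of `Z₂^m` acting freely on the real moment-angle complex. -/
def freeRanks (K : Set (Finset (Fin m))) : Set ℕ :=
  {r | ∃ H : Subgroup (Fin m → ℤˣ), Nonempty ((Fin r → ℤˣ) ≃* H) ∧ RActsFreely K H}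

/-- The Buchstaber invariant `s(K)`. -/
noncomputable def buchstaber (K : Set (Finset (Fin m))) : ℕ := sSup (freeDims K)

/-- The real Buchstaber invariant `s_ℝ(K)`. -/
noncomputable def realBuchstaber (K : Set (Finset (Fin m))) : ℕ := sSup (freeRanks K)

theorem actsFreely_iff (K : Set (Finset (Fin m))) (H : Subgroup (Fin m → Circle)) :
    ActsFreely K H ↔ ∀ t ∈ H, ∀ σ ∈ K, (∀ i, i ∉ σ → t i = 1) → t = 1 := by
  classical
  constructor
  · intro h t ht σ hσ hi
    refine h (fun i => if i ∈ σ then 0 else 1) ?_ t ht ?_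
    · unfold ZK
      simp only [Set.mem_iUnion]
      refine ⟨σ, hσ, ?_, ?_⟩
      · intro i his
        simp [his]
      · intro i his
        simp [his]
    · funext i
      by_cases his : i ∈ σ
      · simp [his]
      · simp [his, hi i his]
  · intro h z hz t ht he
    unfold ZK at hz
    simp only [Set.mem_iUnion] at hz
    obtain ⟨σ, hσ, _, h2⟩ := hz
    refine h t ht σ hσ ?_
    intro i his
    have h3 := congrFun he i
    have h4 : z i ≠ 0 := by
      intro h5
      have := h2 i his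
      rw [h5, norm_zero] at this
      exact zero_ne_one this
    have h5 : (t i : ℂ) = 1 := by
      have h6 : (t i : ℂ) * z i = 1 * z i := by rw [one_mul]; exact h3
      exact mul_right_cancel₀ h4 h6
    exact Circle.ext (by rw [h5]; simp)

theorem rActsFreely_iff (K : Set (Finset (Fin m))) (H : Subgroup (Fin m → ℤˣ)) :
    RActsFreely K H ↔ ∀ t ∈ H, ∀ σ ∈ K, (∀ i, i ∉ σ → t i = 1) → t = 1 := by
  classical
  constructor
  · intro h t ht σ hσ hi
    refine h (fun i => if i ∈ σ then 0 else 1) ?_ t ht ?_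
    · unfold RZK
      simp only [Set.mem_iUnion]
      refine ⟨σ, hσ, ?_, ?_⟩
      · intro i his
        simp [his]
      · intro i his
        simp [his]
    · funext i
      by_cases his : i ∈ σ
      · simp [his]
      · simp [his, hi i his]
  · intro h z hz t ht he
    unfold RZK at hz
    simp only [Set.mem_iUnion] at hz
    obtain ⟨σ, hσ, _, h2⟩ := hz
    refine h t ht σ hσ ?_
    intro i his
    have h3 := congrFun he i
    have h4 : z i ≠ 0 := by
      intro h5
      have := h2 i his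
      rw [h5, abs_zero] at this
      exact zero_ne_one this
    have h5 : ((t i : ℤ) : ℝ) = 1 := by
      have h6 : ((t i : ℤ) : ℝ) * z i = 1 * z i := by rw [one_mul]; exact h3
      exact mul_right_cancel₀ h4 h6
    have h7 : ((t i : ℤ) : ℝ) = ((1 : ℤ) : ℝ) := by rw [h5, Int.cast_one]
    exact Units.ext (Int.cast_injective h7)

/-! ### Upper bounds -/

/-- Combinatorial version of a free action. -/
def Sfam (K : Set (Finset (Fin m))) (r : ℕ) : Prop :=
  ∃ S : (Fin r → ℤˣ) → Finset (Fin m), (∀ u w, S (u * w) = symmDiff (S u) (S w)) ∧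
    ∀ u, S u ∈ K → u = 1

theorem sfam_of_mem_freeRanks {K : Set (Finset (Fin m))} {r : ℕ} (h : r ∈ freeRanks K) :
    Sfam K r := by
  obtain ⟨H, ⟨e⟩, hf⟩ := h
  rw [rActsFreely_iff] at hf
  have hne : (-1 : ℤˣ) ≠ 1 := by decide
  refine ⟨fun u => Finset.univ.filter (fun i => (e u : Fin m → ℤˣ) i ≠ 1), ?_, ?_⟩
  · intro u w
    ext i
    rw [Finset.mem_symmDiff]
    simp only [Finset.mem_filter, Finset.mem_univ, true_and, map_mul, Subgroup.coe_mul,
      Pi.mul_apply]
    rcases Int.units_eq_one_or ((e u : Fin m → ℤˣ) i) with h1 | h1 <;>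
    rcases Int.units_eq_one_or ((e w : Fin m → ℤˣ) i) with h2 | h2 <;>
    rw [h1, h2] <;> simp [hne]
  · intro u hu
    have h1 := hf (e u : Fin m → ℤˣ) (e u).2 _ hu (by
      intro i hi
      simpa using hi)
    have h2 : e u = 1 := Subtype.ext h1
    rwa [map_eq_one_iff e e.injective] at h2

theorem circle_sq {z : Circle} (h : z * z = 1) : z = 1 ∨ (z : ℂ) = -1 := by
  have h1 : (z : ℂ) * (z : ℂ) = 1 := by
    rw [← Circle.coe_mul, h, Circle.coe_one]
  rcases mul_self_eq_one_iff.mp h1 with h2 | h2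
  · left; exact Circle.ext (by rw [h2, Circle.coe_one])
  · right; exact h2

/-- the embedding of `{1,-1}` in the circle -/
noncomputable def sc : ℤˣ →* Circle where
  toFun u := if u = 1 then 1 else -1
  map_one' := by simp
  map_mul' := by
    intro u w
    have hne : (-1 : ℤˣ) ≠ 1 := by decide
    rcases Int.units_eq_one_or u with h1 | h1 <;>
    rcases Int.units_eq_one_or w with h2 | h2 <;>
    rw [h1, h2] <;> simp [hne]

theorem neg_one_ne_one_circle : (-1 : Circle) ≠ 1 := by
  intro h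
  have h1 : ((-1 : Circle) : ℂ) = 1 := by rw [h, Circle.coe_one]
  rw [Circle.coe_neg, Circle.coe_one] at h1
  norm_num at h1

theorem circle_sq' {z : Circle} (h : z * z = 1) : z = 1 ∨ z = -1 := by
  rcases circle_sq h with h1 | h1
  · left; exact h1
  · right
    apply Circle.ext
    rw [h1, Circle.coe_neg, Circle.coe_one]

theorem sc_inj : Function.Injective sc := by
  intro u w h
  have hne : (-1 : ℤˣ) ≠ 1 := by decide
  have h0 : sc (-1) = -1 := by simp [sc, hne]
  rcases Int.units_eq_one_or u with h1 | h1 <;>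
  rcases Int.units_eq_one_or w with h2 | h2
  · rw [h1, h2]
  · rw [h1, h2, map_one, h0] at h
    exact absurd h.symm neg_one_ne_one_circle
  · rw [h1, h2, map_one, h0] at h
    exact absurd h neg_one_ne_one_circle
  · rw [h1, h2]

theorem sfam_of_mem_freeDims {K : Set (Finset (Fin m))} {r : ℕ} (h : r ∈ freeDims K) :
    Sfam K r := by
  classical
  obtain ⟨H, ⟨e⟩, hf⟩ := h
  rw [actsFreely_iff] at hf
  let c : (Fin r → ℤˣ) →* (Fin r → Circle) := sc.compLeft (Fin r)
  have hc : Function.Injective c := fun u w h => funext (fun i => sc_inj (congrFun h i))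
  let t : (Fin r → ℤˣ) → (Fin m → Circle) := fun u => (e (c u) : Fin m → Circle)
  have htmul : ∀ u w, t (u * w) = t u * t w := by
    intro u w
    show ((e (c (u * w)) : H) : Fin m → Circle) = _
    rw [map_mul, map_mul]; rfl
  have htt : ∀ u i, t u i = 1 ∨ t u i = -1 := by
    intro u i
    apply circle_sq'
    have h1 := htmul u u
    have h2 : u * u = 1 := by
      funext j
      exact Int.units_mul_self (u j)
    have h3 : t 1 = 1 := by
      show ((e (c 1) : H) : Fin m → Circle) = 1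
      rw [map_one, map_one]; rfl
    rw [h2, h3] at h1
    exact (congrFun h1 i).symm
  refine ⟨fun u => Finset.univ.filter (fun i => t u i ≠ 1), ?_, ?_⟩
  · intro u w
    ext i
    rw [Finset.mem_symmDiff]
    simp only [Finset.mem_filter, Finset.mem_univ, true_and, htmul, Pi.mul_apply]
    rcases htt u i with h1 | h1 <;> rcases htt w i with h2 | h2 <;>
    rw [h1, h2] <;> simp [neg_one_ne_one_circle]
  · intro u hu
    have h1 := hf (t u) (e (c u)).2 _ hu (by
      intro i hi
      simpa using hi)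
    have h2 : e (c u) = 1 := Subtype.ext h1
    have h3 : c u = 1 := by rwa [map_eq_one_iff e e.injective] at h2
    rwa [map_eq_one_iff c hc] at h3

theorem units_pi_mul_self {r : ℕ} (u : Fin r → ℤˣ) : u * u = 1 := by
  funext j
  exact Int.units_mul_self (u j)

theorem Sfam.inj {K : Set (Finset (Fin m))} (hK : ∀ σ ∈ K, ∀ τ ⊆ σ, τ ∈ K) {r : ℕ}
    {S : (Fin r → ℤˣ) → Finset (Fin m)} (h1 : ∀ u w, S (u * w) = symmDiff (S u) (S w))
    (h2 : ∀ u, S u ∈ K → u = 1) {φ : Finset (Fin m)} (hφ : φ ∈ K) :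
    Function.Injective (fun u => S u \ φ) := by
  intro u w h
  have h3 : S u \ φ = S w \ φ := h
  have h4 : S (u * w) ⊆ φ := by
    rw [h1]
    intro i hi
    rw [Finset.mem_symmDiff] at hi
    by_contra hcon
    rcases hi with ⟨h5, h6⟩ | ⟨h5, h6⟩
    · have : i ∈ S u \ φ := Finset.mem_sdiff.mpr ⟨h5, hcon⟩
      rw [h3] at this
      exact h6 (Finset.mem_sdiff.mp this).1
    · have : i ∈ S w \ φ := Finset.mem_sdiff.mpr ⟨h5, hcon⟩
      rw [← h3] at this
      exact h6 (Finset.mem_sdiff.mp this).1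
  have h5 := h2 _ (hK φ hφ _ h4)
  calc u = u * (w * w) := by rw [units_pi_mul_self, mul_one]
    _ = w := by rw [← mul_assoc, h5, one_mul]

theorem card_units_pi (r : ℕ) : Fintype.card (Fin r → ℤˣ) = 2 ^ r := by
  rw [Fintype.card_fun, Fintype.card_fin, Fintype.card_units_int]

theorem Sfam.le {K : Set (Finset (Fin m))} (hK : ∀ σ ∈ K, ∀ τ ⊆ σ, τ ∈ K) {r : ℕ}
    (h : Sfam K r) {φ : Finset (Fin m)} (hφ : φ ∈ K) : r ≤ m - φ.card := by
  obtain ⟨S, h1, h2⟩ := h
  have hinj := Sfam.inj hK h1 h2 hφ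
  have h3 : Fintype.card (Fin r → ℤˣ) ≤ (φᶜ.powerset).card := by
    rw [← Finset.card_univ]
    apply Finset.card_le_card_of_injOn (fun u => S u \ φ)
    · intro u _
      rw [Finset.mem_coe, Finset.mem_powerset]
      intro i hi
      exact Finset.mem_compl.mpr (Finset.mem_sdiff.mp hi).2
    · exact hinj.injOn
  rw [card_units_pi, Finset.card_powerset, Finset.card_compl, Fintype.card_fin] at h3
  exact (Nat.pow_le_pow_iff_right (by norm_num)).mp h3

/-! ### Lower bounds -/

/-- The monomial homomorphism with exponent matrix `A`. -/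
noncomputable def chi {G : Type*} [CommGroup G] {r : ℕ} (A : Fin m → Fin r → ℤ) :
    (Fin r → G) →* (Fin m → G) where
  toFun x i := ∏ j, x j ^ A i j
  map_one' := by funext i; simp
  map_mul' := by
    intro x y
    funext i
    simp [mul_zpow, Finset.prod_mul_distrib]

theorem chi_apply {G : Type*} [CommGroup G] {r : ℕ} (A : Fin m → Fin r → ℤ) (x : Fin r → G)
    (i : Fin m) : chi A x i = ∏ j, x j ^ A i j := rfl

/-- `B` is a left inverse of `A` supported outside `σ`. -/
def LeftInv {r : ℕ} (A : Fin m → Fin r → ℤ) (B : Fin r → Fin m → ℤ) (σ : Finset (Fin m)) : Prop :=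
  (∀ j, ∀ i ∈ σ, B j i = 0) ∧ ∀ j l, ∑ i, B j i * A i l = if j = l then 1 else 0

theorem prod_zpow_sum {G ι : Type*} [CommGroup G] (s : Finset ι) (f : ι → ℤ) (x : G) :
    ∏ i ∈ s, x ^ f i = x ^ ∑ i ∈ s, f i := by
  classical
  induction s using Finset.induction_on with
  | empty => simp
  | insert i s hi ih => rw [Finset.prod_insert hi, Finset.sum_insert hi, ih, zpow_add]

theorem chi_left {G : Type*} [CommGroup G] {r : ℕ} {A : Fin m → Fin r → ℤ}
    {B : Fin r → Fin m → ℤ} {σ : Finset (Fin m)} (h : LeftInv A B σ) (x : Fin r → G)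
    (hx : ∀ i, i ∉ σ → chi A x i = 1) : x = 1 := by
  funext j
  have h1 : ∏ i, (chi A x i) ^ B j i = 1 := by
    refine Finset.prod_eq_one ?_
    intro i _
    by_cases hi : i ∈ σ
    · rw [h.1 j i hi, zpow_zero]
    · rw [hx i hi, one_zpow]
  have h2 : ∏ i, (chi A x i) ^ B j i = ∏ l, x l ^ (∑ i, B j i * A i l) := by
    simp only [chi_apply]
    have h3 : ∀ i, (∏ l, x l ^ A i l) ^ B j i = ∏ l, x l ^ (B j i * A i l) := by
      intro i
      rw [← Finset.prod_zpow]
      refine Finset.prod_congr rfl ?_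
      intro l _
      rw [← zpow_mul, mul_comm]
    simp only [h3]
    rw [Finset.prod_comm]
    refine Finset.prod_congr rfl ?_
    intro l _
    exact prod_zpow_sum _ _ _
  rw [h2] at h1
  rw [Finset.prod_eq_single j] at h1
  · rw [h.2, if_pos rfl, zpow_one] at h1
    exact h1
  · intro l _ hl
    rw [h.2, if_neg hl.symm, zpow_zero]
  · intro h; exact absurd (Finset.mem_univ _) h

/-- Every face is contained in a set with a left inverse. -/
def Good {r : ℕ} (K : Set (Finset (Fin m))) (A : Fin m → Fin r → ℤ) : Prop :=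
  ∀ σ ∈ K, ∃ (τ : Finset (Fin m)) (B : Fin r → Fin m → ℤ), σ ⊆ τ ∧ LeftInv A B τ

theorem chi_inj {G : Type*} [CommGroup G] {r : ℕ} {K : Set (Finset (Fin m))}
    {A : Fin m → Fin r → ℤ} (h : Good K A) (h0 : ∅ ∈ K) :
    Function.Injective (chi A : (Fin r → G) →* (Fin m → G)) := by
  rw [injective_iff_map_eq_one]
  intro x hx
  obtain ⟨τ, B, _, hB⟩ := h ∅ h0
  exact chi_left hB x (fun i _ => congrFun hx i)

theorem mem_freeRanks {r : ℕ} {K : Set (Finset (Fin m))}
    {A : Fin m → Fin r → ℤ} (h : Good K A) (h0 : ∅ ∈ K) : r ∈ freeRanks K := by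
  refine ⟨(chi A).range, ⟨MonoidHom.ofInjective (chi_inj h h0)⟩, ?_⟩
  rw [rActsFreely_iff]
  rintro _ ⟨x, rfl⟩ σ hσ hi
  obtain ⟨τ, B, h1, hB⟩ := h σ hσ
  rw [chi_left hB x (fun i hi2 => hi i (fun h3 => hi2 (h1 h3))), map_one]

theorem mem_freeDims {r : ℕ} {K : Set (Finset (Fin m))}
    {A : Fin m → Fin r → ℤ} (h : Good K A) (h0 : ∅ ∈ K) : r ∈ freeDims K := by
  have hinj := chi_inj (G := Circle) h h0
  have hcont : Continuous (chi A : (Fin r → Circle) →* (Fin m → Circle)) := by
    apply continuous_pi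
    intro i
    simp only [chi_apply]
    exact continuous_finsetProd _ (fun j _ => (continuous_apply j).zpow _)
  let e := MonoidHom.ofInjective hinj
  have he : Continuous e := by
    apply Continuous.subtype_mk hcont
  refine ⟨(chi A).range, ⟨{ e with
    continuous_toFun := he
    continuous_invFun := (Continuous.homeoOfEquivCompactToT2 (f := e.toEquiv) he).symm.continuous }⟩, ?_⟩
  rw [actsFreely_iff]
  rintro _ ⟨x, rfl⟩ σ hσ hi
  obtain ⟨τ, B, h1, hB⟩ := h σ hσ
  rw [chi_left hB x (fun i hi2 => hi i (fun h3 => hi2 (h1 h3))), map_one]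

end Pool.Agent.Lib_helper42.Kz
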