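import Mathlib
import Pool.Agent.Lib_helper42.Kz.Bits

/-! Simple polytopes given by inequalities, and their nerve complexes. -/

set_option autoImplicit false

namespace Pool.Agent.Lib_helper42.Kz

/-- A simple `n`-dimensional polytope with `m` facets: the bounded set
`{x | ⟨a i, x⟩ ≤ b i for all i}`, with nonempty interior, such that every inequality defines a
facet, and such that at every point the normals of the active inequalities are linearly
independent. -/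
structure SimplePolytope (n m : ℕ) where
  a : Fin m → Fin n → ℝ
  b : Fin m → ℝ
  bounded : Bornology.IsBounded {x : Fin n → ℝ | ∀ i, a i ⬝ᵥ x ≤ b i}
  full : ∃ x : Fin n → ℝ, ∀ i, a i ⬝ᵥ x < b i
  facet : ∀ i, ∃ x : Fin n → ℝ, a i ⬝ᵥ x = b i ∧ ∀ j, j ≠ i → a j ⬝ᵥ x < b j
  simple : ∀ x : Fin n → ℝ, (∀ i, a i ⬝ᵥ x ≤ b i) →
    LinearIndependent ℝ (fun i : {i : Fin m // a i ⬝ᵥ x = b i} => a i)

/-- The simplicial complex `K_P`: the sets of facets with a common point. -/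
def SimplePolytope.K {n m : ℕ} (P : SimplePolytope n m) : Set (Finset (Fin m)) :=
  {σ | ∃ x : Fin n → ℝ, (∀ i, P.a i ⬝ᵥ x ≤ P.b i) ∧ ∀ i ∈ σ, P.a i ⬝ᵥ x = P.b i}

theorem SimplePolytope.down {n m : ℕ} (P : SimplePolytope n m) :
    ∀ σ ∈ P.K, ∀ τ ⊆ σ, τ ∈ P.K := by
  rintro σ ⟨x, h1, h2⟩ τ hτ
  exact ⟨x, h1, fun i hi => h2 i (hτ hi)⟩

/-- integer dot product -/
def dz (u w : Fin 4 → ℤ) : ℤ := u 0 * w 0 + u 1 * w 1 + u 2 * w 2 + u 3 * w 3

/-- real version of an integer vector -/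
def rv (u : Fin 4 → ℤ) : Fin 4 → ℝ := fun j => (u j : ℝ)

theorem rv_dot (u w : Fin 4 → ℤ) : rv u ⬝ᵥ rv w = (dz u w : ℝ) := by
  simp [dotProduct, rv, dz, Fin.sum_univ_four]

theorem rv_dot_smul (u w : Fin 4 → ℤ) (c : ℝ) : rv u ⬝ᵥ (c • rv w) = c * (dz u w : ℝ) := by
  rw [dotProduct_smul, rv_dot, smul_eq_mul]

/-- Certificates that the integer vectors `A i` are the normals of a simple polytope
`{x | ⟨A i, x⟩ ≤ 1}` whose complex has the bitmask of faces `F`. -/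
structure PolyData where
  F : ℕ
  A : Fin 8 → Fin 4 → ℤ
  /-- facets of the complex with a vertex `X / d` -/
  V : List (ℕ × (Fin 4 → ℤ) × ℤ)
  /-- edge directions -/
  W : List (ℕ × (Fin 8 → Fin 4 → ℤ))
  /-- missing faces with multipliers -/
  M : List (ℕ × (Fin 8 → ℤ))
  /-- upper bounds of the coordinates and their negatives -/
  U : Fin 4 → (Fin 8 → ℤ) × ℤ
  L : Fin 4 → (Fin 8 → ℤ) × ℤ
  /-- interior points of the facets -/
  I : Fin 8 → (Fin 4 → ℤ) × ℤ

/-- combination of the normals -/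
def lc (A : Fin 8 → Fin 4 → ℤ) (l : Fin 8 → ℤ) (j : Fin 4) : ℤ := ∑ i, l i * A i j

/-- Validity of the certificates. -/
structure PolyData.Valid (D : PolyData) : Prop where
  v : ∀ e ∈ D.V, 0 < e.2.2 ∧ ∀ i : Fin 8, if e.1.testBit i then dz (D.A i) e.2.1 = e.2.2 else
    dz (D.A i) e.2.1 < e.2.2
  vF : allBelow 256 (fun s => !(D.F.testBit s) || D.V.any (fun e => s &&& e.1 == s)) = true
  w : ∀ e ∈ D.W, ∀ i : Fin 8, e.1.testBit i = true →
    dz (D.A i) (e.2 i) ≠ 0 ∧ ∀ j : Fin 8, e.1.testBit j = true → j ≠ i → dz (D.A j) (e.2 i) = 0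
  wF : allBelow 256 (fun s => !(D.F.testBit s) || D.W.any (fun e => s &&& e.1 == s)) = true
  m : ∀ e ∈ D.M, (∀ j, lc D.A e.2 j = 0) ∧ ∑ i, e.2 i < 0 ∧
    ∀ i : Fin 8, e.1.testBit i = true ∨ 0 ≤ e.2 i
  mF : allBelow 256 (fun s => D.F.testBit s || D.M.any (fun e => s &&& e.1 == e.1)) = true
  u : ∀ j, 0 < (D.U j).2 ∧ (∀ i, 0 ≤ (D.U j).1 i) ∧
    ∀ l, lc D.A (D.U j).1 l = if l = j then (D.U j).2 else 0
  l : ∀ j, 0 < (D.L j).2 ∧ (∀ i, 0 ≤ (D.L j).1 i) ∧
    ∀ l, lc D.A (D.L j).1 l = if l = j then -(D.L j).2 else 0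
  i : ∀ i, 0 < (D.I i).2 ∧ dz (D.A i) (D.I i).1 = (D.I i).2 ∧
    ∀ j, j ≠ i → dz (D.A j) (D.I i).1 < (D.I i).2

theorem lc_dot (A : Fin 8 → Fin 4 → ℤ) (l : Fin 8 → ℤ) (x : Fin 4 → ℝ) :
    ∑ i, (l i : ℝ) * (rv (A i) ⬝ᵥ x) = ∑ j, (lc A l j : ℝ) * x j := by
  simp only [dotProduct, Finset.mul_sum, lc, Int.cast_sum, Int.cast_mul, Finset.sum_mul]
  rw [Finset.sum_comm]
  refine Finset.sum_congr rfl ?_
  intro j _
  refine Finset.sum_congr rfl ?_
  intro i _
  simp only [rv]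
  ring

theorem sub_of_and {s t : ℕ} (h : s &&& t = s) : T s ⊆ T t := by
  intro i hi
  rw [mem_T] at hi ⊢
  rw [← h, Nat.testBit_and, Bool.and_eq_true] at hi
  exact hi.2

variable {D : PolyData}

theorem PolyData.face_of_active (hV : D.Valid) (x : Fin 4 → ℝ) (hx : ∀ i, rv (D.A i) ⬝ᵥ x ≤ 1)
    (s : ℕ) (hs : s < 256) (hact : ∀ i ∈ T s, rv (D.A i) ⬝ᵥ x = 1) : D.F.testBit s = true := by
  have h1 := allBelow_spec hV.mF s hs
  rw [Bool.or_eq_true] at h1
  rcases h1 with h1 | h1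
  · exact h1
  · exfalso
    rw [List.any_eq_true] at h1
    obtain ⟨e, he, h2⟩ := h1
    rw [beq_iff_eq] at h2
    have hsub : T e.1 ⊆ T s := by
      apply sub_of_and
      rw [Nat.and_comm]; exact h2
    obtain ⟨h3, h4, h5⟩ := hV.m e he
    have h6 := lc_dot D.A e.2 x
    have h7 : ∑ j, (lc D.A e.2 j : ℝ) * x j = 0 := by
      refine Finset.sum_eq_zero ?_
      intro j _
      rw [h3 j]; simp
    rw [h7] at h6
    have h8 : ∑ i, (e.2 i : ℝ) * (rv (D.A i) ⬝ᵥ x) ≤ ∑ i, (e.2 i : ℝ) := by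
      refine Finset.sum_le_sum ?_
      intro i _
      rcases h5 i with h9 | h9
      · rw [hact i (hsub (mem_T.mpr h9)), mul_one]
      · have : (0 : ℝ) ≤ (e.2 i : ℝ) := by exact_mod_cast h9
        nlinarith [hx i]
    have h9 : ∑ i, (e.2 i : ℝ) < 0 := by exact_mod_cast h4
    linarith

/-- The simple polytope of valid certificates. -/
noncomputable def PolyData.poly (D : PolyData) (hV : D.Valid) : SimplePolytope 4 8 where
  a i := rv (D.A i)
  b _ := 1
  bounded := by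
    rw [isBounded_iff_forall_norm_le]
    refine ⟨∑ j, ((∑ i, |((D.U j).1 i : ℝ)|) + ∑ i, |((D.L j).1 i : ℝ)|), ?_⟩
    intro x hx
    have hx' : ∀ i, rv (D.A i) ⬝ᵥ x ≤ 1 := hx
    rw [pi_norm_le_iff_of_nonneg (by positivity)]
    intro j
    have hj : |x j| ≤ (∑ i, |((D.U j).1 i : ℝ)|) + ∑ i, |((D.L j).1 i : ℝ)| := by
      obtain ⟨u1, u2, u3⟩ := hV.u j
      obtain ⟨l1, l2, l3⟩ := hV.l j
      have e1 := lc_dot D.A (D.U j).1 x
      have e2 := lc_dot D.A (D.L j).1 x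
      have e3 : ∑ l, (lc D.A (D.U j).1 l : ℝ) * x l = ((D.U j).2 : ℝ) * x j := by
        rw [Finset.sum_eq_single j]
        · rw [u3, if_pos rfl]
        · intro l _ hl; rw [u3, if_neg hl]; simp
        · intro h; exact absurd (Finset.mem_univ _) h
      have e4 : ∑ l, (lc D.A (D.L j).1 l : ℝ) * x l = -((D.L j).2 : ℝ) * x j := by
        rw [Finset.sum_eq_single j]
        · rw [l3, if_pos rfl]; simp
        · intro l _ hl; rw [l3, if_neg hl]; simp
        · intro h; exact absurd (Finset.mem_univ _) h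
      rw [e3] at e1
      rw [e4] at e2
      have f1 : ∑ i, (((D.U j).1 i : ℤ) : ℝ) * (rv (D.A i) ⬝ᵥ x) ≤ ∑ i, |((D.U j).1 i : ℝ)| := by
        refine Finset.sum_le_sum ?_
        intro i _
        have : (0 : ℝ) ≤ ((D.U j).1 i : ℝ) := by exact_mod_cast u2 i
        rw [abs_of_nonneg this]
        nlinarith [hx' i]
      have f2 : ∑ i, (((D.L j).1 i : ℤ) : ℝ) * (rv (D.A i) ⬝ᵥ x) ≤ ∑ i, |((D.L j).1 i : ℝ)| := by
        refine Finset.sum_le_sum ?_
        intro i _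
        have : (0 : ℝ) ≤ ((D.L j).1 i : ℝ) := by exact_mod_cast l2 i
        rw [abs_of_nonneg this]
        nlinarith [hx' i]
      have g1 : (1 : ℝ) ≤ ((D.U j).2 : ℝ) := by exact_mod_cast u1
      have g2 : (1 : ℝ) ≤ ((D.L j).2 : ℝ) := by exact_mod_cast l1
      have p1 : 0 ≤ ∑ i, |((D.U j).1 i : ℝ)| := Finset.sum_nonneg (fun i _ => abs_nonneg _)
      have p2 : 0 ≤ ∑ i, |((D.L j).1 i : ℝ)| := Finset.sum_nonneg (fun i _ => abs_nonneg _)
      rw [abs_le]
      constructor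
      · by_cases hneg : 0 ≤ x j
        · linarith
        · push Not at hneg
          nlinarith
      · by_cases hpos : x j ≤ 0
        · linarith
        · push Not at hpos
          nlinarith
    rw [Real.norm_eq_abs]
    refine hj.trans ?_
    exact Finset.single_le_sum
      (f := fun j => (∑ i, |((D.U j).1 i : ℝ)|) + ∑ i, |((D.L j).1 i : ℝ)|)
      (fun j _ => by positivity) (Finset.mem_univ j)
  full := ⟨0, fun i => by rw [dotProduct_zero]; exact one_pos⟩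
  facet := by
    intro i
    obtain ⟨h1, h2, h3⟩ := hV.i i
    have h4 : (0 : ℝ) < ((D.I i).2 : ℝ) := by exact_mod_cast h1
    refine ⟨((D.I i).2 : ℝ)⁻¹ • rv (D.I i).1, ?_, ?_⟩
    · rw [rv_dot_smul, h2, inv_mul_cancel₀ (ne_of_gt h4)]
    · intro j hj
      rw [rv_dot_smul]
      have h5 : (dz (D.A j) (D.I i).1 : ℝ) < ((D.I i).2 : ℝ) := by exact_mod_cast h3 j hj
      calc ((D.I i).2 : ℝ)⁻¹ * (dz (D.A j) (D.I i).1 : ℝ)
          < ((D.I i).2 : ℝ)⁻¹ * ((D.I i).2 : ℝ) := by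
            apply mul_lt_mul_of_pos_left h5 (inv_pos.mpr h4)
        _ = 1 := inv_mul_cancel₀ (ne_of_gt h4)
  simple := by
    intro x hx
    have h1 : D.F.testBit (bm (Finset.univ.filter (fun i => rv (D.A i) ⬝ᵥ x = 1))) = true := by
      refine PolyData.face_of_active hV x hx _ (bm_lt _) ?_
      intro i hi
      rw [T_bm] at hi
      exact (Finset.mem_filter.mp hi).2
    have h2 := allBelow_spec hV.wF _ (bm_lt (Finset.univ.filter (fun i => rv (D.A i) ⬝ᵥ x = 1)))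
    rw [h1, Bool.not_true, Bool.false_or, List.any_eq_true] at h2
    obtain ⟨e, he, h3⟩ := h2
    rw [beq_iff_eq] at h3
    have hsub := sub_of_and h3
    rw [T_bm] at hsub
    rw [linearIndependent_iff']
    intro s g hg i hi
    have hmem : ∀ j : {i : Fin 8 // rv (D.A i) ⬝ᵥ x = 1}, e.1.testBit (j : Fin 8) = true := by
      intro j
      exact mem_T.mp (hsub (Finset.mem_filter.mpr ⟨Finset.mem_univ _, j.2⟩))
    obtain ⟨h4, h5⟩ := hV.w e he i (hmem i)
    have h6 := congrArg (fun y => y ⬝ᵥ rv (e.2 i)) hg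
    simp only [zero_dotProduct] at h6
    rw [sum_dotProduct, Finset.sum_eq_single i] at h6
    · rw [smul_dotProduct, rv_dot, smul_eq_mul] at h6
      rcases mul_eq_zero.mp h6 with h7 | h7
      · exact h7
      · exact absurd (by exact_mod_cast h7) h4
    · intro j _ hj
      rw [smul_dotProduct, rv_dot, h5 j (hmem j) (fun h => hj (Subtype.ext h))]
      simp
    · intro h; exact absurd hi h

theorem PolyData.mem_K (hV : D.Valid) (s : ℕ) (hs : s < 256) :
    T s ∈ (D.poly hV).K ↔ D.F.testBit s = true := by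
  constructor
  · rintro ⟨x, h1, h2⟩
    exact PolyData.face_of_active hV x h1 s hs h2
  · intro h
    have h1 := allBelow_spec hV.vF s hs
    rw [h, Bool.not_true, Bool.false_or, List.any_eq_true] at h1
    obtain ⟨e, he, h2⟩ := h1
    rw [beq_iff_eq] at h2
    have hsub := sub_of_and h2
    obtain ⟨h3, h4⟩ := hV.v e he
    have h5 : (0 : ℝ) < (e.2.2 : ℝ) := by exact_mod_cast h3
    refine ⟨(e.2.2 : ℝ)⁻¹ • rv e.2.1, ?_, ?_⟩
    · intro i
      show rv (D.A i) ⬝ᵥ _ ≤ 1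
      rw [rv_dot_smul]
      have h6 : (dz (D.A i) e.2.1 : ℝ) ≤ (e.2.2 : ℝ) := by
        have h7 := h4 i
        split_ifs at h7
        · rw [h7]
        · exact_mod_cast h7.le
      calc (e.2.2 : ℝ)⁻¹ * (dz (D.A i) e.2.1 : ℝ)
          ≤ (e.2.2 : ℝ)⁻¹ * (e.2.2 : ℝ) := by
            apply mul_le_mul_of_nonneg_left h6 (inv_pos.mpr h5).le
        _ = 1 := inv_mul_cancel₀ (ne_of_gt h5)
    · intro i hi
      show rv (D.A i) ⬝ᵥ _ = 1
      have h7 := h4 i
      rw [if_pos (mem_T.mp (hsub hi))] at h7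
      rw [rv_dot_smul, h7, inv_mul_cancel₀ (ne_of_gt h5)]

end Pool.Agent.Lib_helper42.Kz
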