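import Mathlib
import Pool.Agent.Lib_helper42.Kz.Poly
import Pool.Agent.Lib_helper42.Kz.Buch
import Pool.Agent.Lib_helper42.Kz.Defs

/-! The definitions used in the statement: face rings, Koszul algebra, bigraded Tor algebra. -/

set_option autoImplicit false

namespace Pool.Agent.Lib_helper42.Kz

universe u

section

variable {R M : Type u} [CommRing R] [AddCommGroup M] [Module R M]

/-- The contraction with a linear form `f` in an exterior algebra: the antiderivation
extending `f`. -/
noncomputable def contr (f : Module.Dual R M) (x : ExteriorAlgebra R M) : ExteriorAlgebra R M :=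
  CliffordAlgebra.contractLeft (R := R) (M := M) (Q := 0) f x

/-- An element of the module, as an element of its exterior algebra. -/
noncomputable def extOne (x : M) : ExteriorAlgebra R M := ExteriorAlgebra.ι R x

/-- A scalar, as an element of the exterior algebra. -/
noncomputable def extZero (M : Type u) [AddCommGroup M] [Module R M] (r : R) :
    ExteriorAlgebra R M := algebraMap R (ExteriorAlgebra R M) r

end

section

variable (R : Type u) [CommRing R] (m : ℕ)

/-- The exterior algebra over `R` on the generators `u_1, ..., u_m`. -/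
def Ext : Type u := ExteriorAlgebra R (Fin m → R)

noncomputable instance Ext.instRing : Ring (Ext R m) :=
  (inferInstance : Ring (ExteriorAlgebra R (Fin m → R)))

noncomputable instance Ext.instAlgebra (k : Type u) [Field k] [Algebra k R] :
    Algebra k (Ext R m) :=
  (inferInstance : Algebra k (ExteriorAlgebra R (Fin m → R)))

variable {R} {m}

/-- The exterior generator `u_i`. -/
noncomputable def Ext.u (i : Fin m) : Ext R m := extOne (Pi.single i (1 : R))

/-- The scalar `r`. -/
noncomputable def Ext.c (r : R) : Ext R m := extZero (Fin m → R) r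

/-- The Koszul differential of `v_1, ..., v_m`: the contraction with the linear form
`u_i ↦ v_i`. -/
noncomputable def Ext.d (v : Fin m → R) (x : Ext R m) : Ext R m :=
  contr (Fintype.linearCombination R v) x

variable (v : Fin m → R)

theorem Ext.d_mul {x y : Ext R m} (hx : Ext.d v x = 0) (hy : Ext.d v y = 0) :
    Ext.d v (x * y) = 0 := kd_mul_zero v hx hy

theorem Ext.d_add {x y : Ext R m} (hx : Ext.d v x = 0) (hy : Ext.d v y = 0) :
    Ext.d v (x + y) = 0 := kd_add_zero v hx hy

end

section

variable (k : Type u) [Field k] {R : Type u} [CommRing R] [Algebra k R] {m : ℕ} (v : Fin m → R)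

theorem Ext.d_algebraMap (r : k) : Ext.d v (algebraMap k (Ext R m) r) = 0 :=
  kd_algebraMap_zero k v r

/-- The subalgebra of cycles. -/
noncomputable def Ext.Z : Subalgebra k (Ext R m) where
  carrier := {x | Ext.d v x = 0}
  mul_mem' := Ext.d_mul v
  add_mem' := Ext.d_add v
  algebraMap_mem' := Ext.d_algebraMap k v

/-- The algebra of cycles. -/
def Cyc : Type u := Ext.Z k v

noncomputable instance Cyc.instRing : Ring (Cyc k v) := (Ext.Z k v).toRing

noncomputable instance Cyc.instAlgebra : Algebra k (Cyc k v) := (Ext.Z k v).algebra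

/-- A cycle as an element of the Koszul algebra. -/
def Cyc.val {k : Type u} [Field k] {R : Type u} [CommRing R] [Algebra k R] {m : ℕ}
    {v : Fin m → R} (z : Cyc k v) : Ext R m := Subtype.val z

/-- The set of boundaries. -/
def Ext.bdry : Set (Cyc k v) := {z | ∃ y : Ext R m, Ext.d v y = z.val}

variable {k} in
theorem Ext.B_add {a b : Cyc k v} (ha : a ∈ Ext.bdry k v) (hb : b ∈ Ext.bdry k v) :
    a + b ∈ Ext.bdry k v := (Bd k v).add_mem' ha hb

theorem Ext.B_zero : (0 : Cyc k v) ∈ Ext.bdry k v := (Bd k v).zero_mem'

variable {k} in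
theorem Ext.B_smul (c : Cyc k v) {a : Cyc k v} (ha : a ∈ Ext.bdry k v) :
    c * a ∈ Ext.bdry k v := (Bd k v).smul_mem' c ha

/-- The ideal of boundaries. -/
noncomputable def Ext.B : Ideal (Cyc k v) where
  carrier := Ext.bdry k v
  add_mem' := Ext.B_add v
  zero_mem' := Ext.B_zero k v
  smul_mem' := Ext.B_smul v

instance Ext.twoSided : (Ext.B k v).IsTwoSided :=
  ⟨fun b ha => (inferInstance : (Bd k v).IsTwoSided).mul_mem_of_left b ha⟩

/-- The Koszul homology algebra of `v_1, ..., v_m`. -/
def KH : Type u := Cyc k v ⧸ Ext.B k v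

noncomputable instance KH.instRing : Ring (KH k v) := Ideal.Quotient.ring (Ext.B k v)

noncomputable instance KH.instAlgebra : Algebra k (KH k v) :=
  (Ideal.Quotient.algebra k : Algebra k (Cyc k v ⧸ Ext.B k v))

/-- The homology class of a cycle. -/
noncomputable def KH.cls (z : Cyc k v) : KH k v := Ideal.Quotient.mk (Ext.B k v) z

/-- The component of bidegree `(-i, 2j)` of the Koszul algebra, where `u` has bidegree `(-1, 2)`
and `v` has bidegree `(0, 2)`. -/
noncomputable def Ext.part (i j : ℕ) : Submodule k (Ext R m) :=
  Submodule.span k {x | ∃ (p : ℕ) (a : Fin p → Fin m) (b : Fin i → Fin m), p + i = j ∧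
    x = (List.ofFn fun t => Ext.c (v (a t))).prod * (List.ofFn fun t => Ext.u (b t)).prod}

/-- The component of bidegree `(-i, 2j)` of the Koszul homology algebra. -/
noncomputable def KH.part (i j : ℕ) : Submodule k (KH k v) :=
  Submodule.span k {x | ∃ z : Cyc k v, z.val ∈ Ext.part k v i j ∧ KH.cls k v z = x}

end

section

variable (k : Type u) [Field k] {m : ℕ} (K : Set (Finset (Fin m)))

/-- The Stanley-Reisner ideal `I_K`, generated by the monomials of the non-faces. -/
noncomputable def srIdeal : Ideal (MvPolynomial (Fin m) k) :=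
  Ideal.span {p | ∃ σ : Finset (Fin m), σ ∉ K ∧ p = ∏ i ∈ σ, MvPolynomial.X i}

/-- The Stanley-Reisner ring `k[K]`. -/
def SR : Type u := MvPolynomial (Fin m) k ⧸ srIdeal k K

noncomputable instance SR.instCommRing : CommRing (SR k K) := Ideal.Quotient.commRing (srIdeal k K)

noncomputable instance SR.instAlgebra : Algebra k (SR k K) :=
  (Ideal.Quotient.algebra k : Algebra k (MvPolynomial (Fin m) k ⧸ srIdeal k K))

/-- The generator `v_i` of `k[K]`. -/
noncomputable def SR.v (i : Fin m) : SR k K :=
  Submodule.Quotient.mk (p := srIdeal k K) (MvPolynomial.X i)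

/-- The algebra `Tor_{k[m]}(k[K]; k)`, as the homology algebra of the Koszul algebra
`Λ[u_1, ..., u_m] ⊗ k[K]`. -/
def TorAlg : Type u := KH k (SR.v k K)

noncomputable instance TorAlg.instRing : Ring (TorAlg k K) := KH.instRing k (SR.v k K)

noncomputable instance TorAlg.instAlgebra : Algebra k (TorAlg k K) :=
  KH.instAlgebra k (SR.v k K)

/-- The component `Tor^{-i,2j}_{k[m]}(k[K]; k)`. -/
noncomputable def torComp (i j : ℕ) : Submodule k (TorAlg k K) := KH.part k (SR.v k K) i j

/-- The bigraded Betti number `β^{-i,2j}(K)`. -/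
noncomputable def bettiNumber (i j : ℕ) : ℕ := Module.finrank k (torComp k K i j)

end

end Pool.Agent.Lib_helper42.Kz
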