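import Mathlib
import Pool.Agent.Lib_helper42.Kz.Stmt
import Pool.Agent.Lib_helper42.Kz.FaceRing

/-! Comparison of the definitions of the statement with those of the computation. -/

set_option autoImplicit false

namespace Pool.Agent.Lib_helper42.Kz

universe u

section

variable (k : Type u) [Field k] {m : ℕ} (K : Set (Finset (Fin m)))

/-- the two face rings agree -/
noncomputable def faceDataSR (hK : ∀ σ ∈ K, ∀ τ ⊆ σ, τ ∈ K) :
    FaceData k (SR.v k K) (fun σ => σ ∈ K) :=
  (faceData k K hK : FaceData k (vv k K) (fun σ => σ ∈ K))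

end

section

variable (k : Type u) [Field k] {R : Type u} [CommRing R] [Algebra k R] {m : ℕ} (v : Fin m → R)

/-- the two homology algebras agree -/
noncomputable def psi : Tor k v ≃ₐ[k] KH k v := (AlgEquiv.refl : Tor k v ≃ₐ[k] Tor k v)

theorem psi_cls (z : Zc k v) : psi k v (cls k v z) = KH.cls k v (z : Cyc k v) := rfl

theorem gens_eq {R : Type*} [CommRing R] (v : Fin m → R) {p i : ℕ} (a : Fin p → Fin m)
    (b : Fin i → Fin m) :
    ((∏ t, v (a t)) • (List.ofFn fun t => gen (R := R) (b t)).prod : EA R m) =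
      (List.ofFn fun t => algebraMap R (EA R m) (v (a t))).prod *
        (List.ofFn fun t => gen (R := R) (b t)).prod := by
  rw [Algebra.smul_def, ← List.prod_ofFn (f := fun t => v (a t)), map_list_prod, List.map_ofFn]
  rfl

theorem part_eq_bideg (i j : ℕ) : Ext.part k v i j = bideg k v i j := by
  have h : {x : Ext R m | ∃ (p : ℕ) (a : Fin p → Fin m) (b : Fin i → Fin m), p + i = j ∧
      x = (List.ofFn fun t => Ext.c (v (a t))).prod * (List.ofFn fun t => Ext.u (b t)).prod} =
      {x : Ext R m | ∃ (p : ℕ) (a : Fin p → Fin m) (b : Fin i → Fin m), p + i = j ∧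
        x = ((∏ t, v (a t)) • (List.ofFn fun t => gen (R := R) (b t)).prod : EA R m)} := by
    ext x
    constructor
    · rintro ⟨p, a, b, h1, h2⟩
      exact ⟨p, a, b, h1, h2.trans (gens_eq v a b).symm⟩
    · rintro ⟨p, a, b, h1, h2⟩
      exact ⟨p, a, b, h1, h2.trans (gens_eq v a b)⟩
  unfold Ext.part
  rw [h]
  rfl

theorem map_psi (i j : ℕ) : (torPart k v i j).map (psi k v).toLinearMap = KH.part k v i j := by
  apply le_antisymm
  · rintro _ ⟨_, ⟨z, hz, rfl⟩, rfl⟩
    apply Submodule.subset_span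
    refine ⟨z, ?_, rfl⟩
    rw [part_eq_bideg]
    exact hz
  · unfold KH.part
    rw [Submodule.span_le]
    rintro _ ⟨z, hz, rfl⟩
    rw [part_eq_bideg] at hz
    exact ⟨_, ⟨z, hz, rfl⟩, rfl⟩

/-- transfer of an isomorphism -/
theorem transfer {R' : Type u} [CommRing R'] [Algebra k R'] {n : ℕ} (v' : Fin n → R')
    (h : ∃ φ : Tor k v ≃ₐ[k] Tor k v',
      ∀ i j, (torPart k v i j).map φ.toLinearMap = torPart k v' i j) :
    ∃ φ : KH k v ≃ₐ[k] KH k v',
      ∀ i j, (KH.part k v i j).map φ.toLinearMap = KH.part k v' i j := by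
  obtain ⟨φ, hφ⟩ := h
  refine ⟨((psi k v).symm.trans φ).trans (psi k v'), ?_⟩
  intro i j
  have h1 := map_psi k v i j
  have h2 := map_psi k v' i j
  rw [← h1, ← h2, ← hφ i j]
  ext x
  simp only [Submodule.mem_map, AlgEquiv.toLinearMap_apply, exists_exists_and_eq_and,
    AlgEquiv.trans_apply, AlgEquiv.symm_apply_apply]

end

theorem betti_eq_of_iso (k : Type u) [Field k] {m n : ℕ} (K : Set (Finset (Fin m)))
    (L : Set (Finset (Fin n)))
    (h : ∃ φ : TorAlg k K ≃ₐ[k] TorAlg k L,
      ∀ i j, (torComp k K i j).map φ.toLinearMap = torComp k L i j) (i j : ℕ) :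
    bettiNumber k K i j = bettiNumber k L i j := by
  obtain ⟨φ, hφ⟩ := h
  unfold bettiNumber
  rw [← hφ i j]
  exact (LinearEquiv.finrank_map_eq φ.toLinearEquiv (torComp k K i j)).symm

end Pool.Agent.Lib_helper42.Kz
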