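import Mathlib
import Pool.Agent.Lib_helper42.Kz.Poly
import Pool.Agent.Lib_helper42.Kz.Data

/-! The two polytopes. -/

set_option autoImplicit false

namespace Pool.Agent.Lib_helper42.Kz


/-- certificates for the polytope P -/
def datP : PolyData where
  F := FP
  A := ![![0, 2, -2, 0], ![2, -1, 1, 2], ![-2, -2, 1, -2], ![2, 0, -1, 1], ![-1, -2, 0, 2], ![0, 2, -2, 2], ![-2, 1, 1, -2], ![-1, 1, 1, 0]]
  V := [(43, ![3, 4, 2, 0], 4),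
    (139, ![4, 5, 3, -1], 4),
    (163, ![6, 9, 5, 0], 8),
    (29, ![0, -5, -8, -2], 6),
    (77, ![5, 0, -2, -8], 4),
    (53, ![-4, -1, -4, 0], 6),
    (101, ![-3, 0, -2, 0], 4),
    (57, ![0, -1, -2, 0], 2),
    (201, ![10, 11, 7, -5], 8),
    (225, ![0, 3, 1, 0], 4),
    (30, ![13, -28, -11, -6], 31),
    (78, ![2, 0, 1, -2], 1),
    (150, ![-10, -4, 34, 11], 40),
    (198, ![0, 0, 1, 0], 1),
    (58, ![6, -7, -11, 15], 38),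
    (202, ![4, 4, 3, -2], 3),
    (178, ![-6, 7, 11, 16], 24),
    (116, ![-8, 0, -4, 1], 10),
    (212, ![-2, 0, 2, 1], 4),
    (240, ![-10, 3, 1, 5], 14)]
  W := [(43, ![![3, 6, 4, -2], ![1, 2, 2, 0], ![0, 0, 0, 0], ![0, -1, -1, 0], ![0, 0, 0, 0], ![-1, -1, -1, 1], ![0, 0, 0, 0], ![0, 0, 0, 0]]),
    (139, ![![-4, -1, -3, 5], ![-2, -1, -1, 3], ![0, 0, 0, 0], ![2, 1, 1, -2], ![0, 0, 0, 0], ![0, 0, 0, 0], ![0, 0, 0, 0], ![1, 1, 1, -1]]),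
    (163, ![![6, 5, 1, -4], ![2, 1, 1, 0], ![0, 0, 0, 0], ![0, 0, 0, 0], ![0, 0, 0, 0], ![-2, -1, -1, 2], ![0, 0, 0, 0], ![0, 1, 1, 0]]),
    (29, ![![-6, 1, -14, -2], ![0, 0, 0, 0], ![0, -1, -1, -1], ![2, -2, -2, -1], ![-3, -2, -2, 4], ![0, 0, 0, 0], ![0, 0, 0, 0], ![0, 0, 0, 0]]),
    (77, ![![-1, 0, -2, 0], ![0, 0, 0, 0], ![0, -1, -1, -1], ![1, 0, 0, -1], ![0, 0, 0, 0], ![0, 0, 0, 0], ![3, 2, 2, -4], ![0, 0, 0, 0]]),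
    (53, ![![4, -5, -8, -3], ![0, 0, 0, 0], ![-2, 1, 1, 0], ![0, 0, 0, 0], ![1, -2, -2, 0], ![-2, 2, 2, 1], ![0, 0, 0, 0], ![0, 0, 0, 0]]),
    (101, ![![1, 0, -2, -2], ![0, 0, 0, 0], ![-1, -1, -1, 0], ![0, 0, 0, 0], ![0, 0, 0, 0], ![-1, 0, 0, 1], ![-1, 2, 2, 0], ![0, 0, 0, 0]]),
    (57, ![![-2, -4, -9, -5], ![0, 0, 0, 0], ![0, 0, 0, 0], ![2, -1, -1, 0], ![-1, -2, -2, 0], ![0, 1, 1, 1], ![0, 0, 0, 0], ![0, 0, 0, 0]]),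
    (201, ![![-2, 1, -3, 1], ![0, 0, 0, 0], ![0, 0, 0, 0], ![2, 1, 1, -1], ![0, 0, 0, 0], ![0, 0, 0, 0], ![2, 1, 1, -3], ![0, 1, 1, 1]]),
    (225, ![![4, 3, 1, -2], ![0, 0, 0, 0], ![0, 0, 0, 0], ![0, 0, 0, 0], ![0, 0, 0, 0], ![-2, -1, -1, 1], ![-2, -1, -1, 0], ![1, 1, 1, 0]]),
    (30, ![![0, 0, 0, 0], ![6, -1, 14, 2], ![4, -11, -1, -9], ![10, -12, -18, -7], ![-7, -4, -6, 8], ![0, 0, 0, 0], ![0, 0, 0, 0], ![0, 0, 0, 0]]),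
    (78, ![![0, 0, 0, 0], ![1, 0, 2, 0], ![1, -2, 0, -2], ![1, 0, 0, -1], ![0, 0, 0, 0], ![0, 0, 0, 0], ![7, 4, 6, -8], ![0, 0, 0, 0]]),
    (150, ![![0, 0, 0, 0], ![10, -4, 14, 1], ![0, -1, 1, -1], ![0, 0, 0, 0], ![-10, -4, -6, 11], ![0, 0, 0, 0], ![0, 0, 0, 0], ![-10, 12, 18, 7]]),
    (198, ![![0, 0, 0, 0], ![2, 0, 2, -1], ![-2, -2, 0, 1], ![0, 0, 0, 0], ![0, 0, 0, 0], ![0, 0, 0, 0], ![10, 4, 6, -11], ![-1, 0, 0, 1]]),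
    (58, ![![0, 0, 0, 0], ![2, 4, 9, 5], ![0, 0, 0, 0], ![6, -7, -11, -4], ![-3, -6, -4, 2], ![-4, 11, 1, 9], ![0, 0, 0, 0], ![0, 0, 0, 0]]),
    (202, ![![0, 0, 0, 0], ![2, -1, 3, -1], ![0, 0, 0, 0], ![2, 2, 0, -1], ![0, 0, 0, 0], ![0, 0, 0, 0], ![4, 1, 3, -5], ![-1, 2, 0, 2]]),
    (178, ![![0, 0, 0, 0], ![6, 1, 5, 4], ![0, 0, 0, 0], ![0, 0, 0, 0], ![-6, -5, -1, 4], ![0, 1, -1, 1], ![0, 0, 0, 0], ![-6, 7, 11, 4]]),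
    (116, ![![0, 0, 0, 0], ![0, 0, 0, 0], ![-2, -5, -11, -6], ![0, 0, 0, 0], ![-1, 0, 2, 2], ![-2, 0, -6, -1], ![-4, 5, 8, 3], ![0, 0, 0, 0]]),
    (212, ![![0, 0, 0, 0], ![0, 0, 0, 0], ![2, -2, 4, -1], ![0, 0, 0, 0], ![-2, 0, -2, 1], ![0, 0, 0, 0], ![-10, 4, -14, -1], ![2, 0, 6, 1]]),
    (240, ![![0, 0, 0, 0], ![0, 0, 0, 0], ![0, 0, 0, 0], ![0, 0, 0, 0], ![-4, -3, -1, 2], ![-2, 2, -4, 1], ![-6, -1, -5, -4], ![2, 5, 11, 6]])]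
  M := [(7, ![-5, -4, -2, 2, 0, 1, 0, 0]),
    (19, ![-19, -10, 0, 8, -4, 10, 0, 0]),
    (38, ![0, -15, -22, 0, 12, -18, 1, 0]),
    (44, ![13, 0, -10, -6, 8, -15, 0, 0]),
    (67, ![-3, -4, 0, 4, 0, 0, -2, 4]),
    (81, ![-5, 0, 4, 0, -4, 6, -2, 0]),
    (82, ![0, -3, 4, 0, -3, 0, -10, 9]),
    (88, ![1, 0, 0, -12, -4, 0, -10, 0]),
    (98, ![1, -2, 0, 0, 0, -2, -4, 4]),
    (104, ![2, 1, 0, -2, 0, -1, -1, 0]),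
    (133, ![-1, 0, -2, 0, 1, 0, 3, -3]),
    (140, ![0, 1, -2, -4, 0, 0, 1, -4]),
    (145, ![-7, 0, 0, 0, -2, 6, 4, -6]),
    (152, ![4, 5, 0, -8, -1, 0, 0, -5]),
    (164, ![0, 0, -14, 0, 9, -6, 17, -15]),
    (168, ![7, 6, 0, -8, 0, -2, 0, -4])]
  U := ![(![0, 0, 2, 6, 0, 0, 1, 3], 3), (![1, 1, 0, 0, 0, 0, 1, 0], 2), (![0, 1, 0, 0, 0, 0, 1, 0], 2), (![0, 0, 0, 2, 1, 0, 1, 1], 2)]
  L := ![(![0, 0, 0, 2, 1, 0, 2, 0], 1), (![1, 1, 1, 0, 0, 0, 0, 0], 1), (![3, 2, 2, 0, 0, 0, 0, 0], 2), (![0, 0, 1, 3, 0, 0, 2, 0], 3)]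
  I := ![(![86, 96, -24, -77], 240), (![417760, 269472, 391498, -125373], 706800), (![2614, -7452, -1506, -14515], 37200), (![115358, 35871, 9151, -80205], 141360), (![-1288208, -1079311, -1070933, 750385], 4947600), (![-6077, 10095, -3796, 6059], 39900), (![2578, 3085, 2769, -3851], 8400), (![2200, 5241, 5359, 6], 8400)]

theorem validP : (datP).Valid where
  v := by decide +kernel
  vF := by decide +kernel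
  w := by decide +kernel
  wF := by decide +kernel
  m := by decide +kernel
  mF := by decide +kernel
  u := by decide +kernel
  l := by decide +kernel
  i := by decide +kernel

/-- certificates for the polytope Q -/
def datQ : PolyData where
  F := FQ
  A := ![![-1, 0, 2, 0], ![-2, -1, -2, 2], ![-2, 1, 1, 1], ![0, 1, -2, -1], ![0, -2, -2, 2], ![0, -2, 2, -1], ![2, -1, -1, 1], ![2, 0, -1, -2]]
  V := [(23, ![-2, -4, 5, 7], 12),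
    (39, ![-1, -1, 1, 1], 3),
    (51, ![-4, -8, 9, 12], 22),
    (45, ![-1, 0, 0, -1], 1),
    (141, ![0, 5, 2, -3], 4),
    (85, ![2, -1, 5, 8], 8),
    (197, ![7, 9, 5, 3], 3),
    (169, ![-7, 4, 3, -15], 13),
    (113, ![6, -7, 15, 20], 24),
    (225, ![21, 9, 19, 3], 17),
    (46, ![-43, -8, -6, -34], 38),
    (78, ![5, 16, -6, 14], 14),
    (86, ![1, 2, 0, 4], 4),
    (90, ![1, 2, -2, 2], 4),
    (154, ![-1, -2, -2, -2], 4),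
    (170, ![-11, -16, -12, -18], 26),
    (178, ![-13, -26, -18, -24], 40),
    (204, ![7, 12, 2, 4], 4),
    (216, ![1, 0, -2, 0], 4),
    (240, ![11, -24, -6, -8], 44)]
  W := [(23, ![![-1, -2, 1, -1], ![-2, -1, -1, -2], ![2, 4, 1, 5], ![0, 0, 0, 0], ![2, 0, 1, 3], ![0, 0, 0, 0], ![0, 0, 0, 0], ![0, 0, 0, 0]]),
    (39, ![![13, -2, 8, 20], ![2, -1, 1, 4], ![-10, 2, -5, -14], ![0, 0, 0, 0], ![0, 0, 0, 0], ![-2, 0, -1, -3], ![0, 0, 0, 0], ![0, 0, 0, 0]]),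
    (51, ![![1, 2, 6, 8], ![-6, -1, -3, -4], ![0, 0, 0, 0], ![0, 0, 0, 0], ![10, -2, 5, 14], ![-2, -4, -1, -5], ![0, 0, 0, 0], ![0, 0, 0, 0]]),
    (45, ![![5, 8, 6, -4], ![0, 0, 0, 0], ![-6, -4, -3, 2], ![-2, 1, -1, -4], ![0, 0, 0, 0], ![-4, -5, -2, -1], ![0, 0, 0, 0], ![0, 0, 0, 0]]),
    (141, ![![-1, -1, 0, -1], ![0, 0, 0, 0], ![4, 7, 2, 3], ![-4, -3, -2, -3], ![0, 0, 0, 0], ![0, 0, 0, 0], ![0, 0, 0, 0], ![4, 5, 2, 1]]),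
    (85, ![![0, -1, 1, 0], ![0, 0, 0, 0], ![0, 1, 0, 1], ![0, 0, 0, 0], ![-2, -3, -1, 0], ![0, 0, 0, 0], ![2, 1, 1, 2], ![0, 0, 0, 0]]),
    (197, ![![1, 0, 2, 0], ![0, 0, 0, 0], ![4, 9, 2, 3], ![0, 0, 0, 0], ![0, 0, 0, 0], ![0, 0, 0, 0], ![4, 3, 2, 3], ![2, 3, 1, 0]]),
    (169, ![![-1, 8, 6, -4], ![0, 0, 0, 0], ![0, 0, 0, 0], ![-8, -1, -4, -6], ![0, 0, 0, 0], ![-4, -7, -2, -3], ![0, 0, 0, 0], ![6, 4, 3, -2]]),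
    (113, ![![0, 1, 3, 4], ![0, 0, 0, 0], ![0, 0, 0, 0], ![0, 0, 0, 0], ![-6, -5, -3, 4], ![0, -1, 0, -1], ![6, 1, 3, 4], ![0, 0, 0, 0]]),
    (225, ![![11, 12, 14, 4], ![0, 0, 0, 0], ![0, 0, 0, 0], ![0, 0, 0, 0], ![0, 0, 0, 0], ![-4, -9, -2, -3], ![8, 1, 4, 6], ![6, 5, 3, -4]]),
    (46, ![![0, 0, 0, 0], ![-5, -8, -6, 4], ![-7, 4, 3, -2], ![-13, 2, -8, -20], ![0, 0, 0, 0], ![-11, -10, 2, -14], ![0, 0, 0, 0], ![0, 0, 0, 0]]),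
    (78, ![![0, 0, 0, 0], ![-3, -4, -2, 0], ![3, 18, 2, 14], ![1, 6, -4, 0], ![0, 0, 0, 0], ![0, 0, 0, 0], ![11, 10, -2, 14], ![0, 0, 0, 0]]),
    (86, ![![0, 0, 0, 0], ![0, 1, -1, 0], ![0, 0, 1, 1], ![0, 0, 0, 0], ![-1, -6, 4, 0], ![0, 0, 0, 0], ![1, 2, -1, 1], ![0, 0, 0, 0]]),
    (90, ![![0, 0, 0, 0], ![0, 1, 0, 1], ![0, 0, 0, 0], ![0, 0, -1, -1], ![-3, -18, -2, -14], ![0, 0, 0, 0], ![1, 2, 0, 2], ![0, 0, 0, 0]]),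
    (154, ![![0, 0, 0, 0], ![-1, -1, 0, -1], ![0, 0, 0, 0], ![3, 6, -2, 4], ![9, 6, -2, 10], ![0, 0, 0, 0], ![0, 0, 0, 0], ![-1, -2, 0, -2]]),
    (170, ![![0, 0, 0, 0], ![1, -8, -6, 4], ![0, 0, 0, 0], ![-17, 6, -2, -16], ![0, 0, 0, 0], ![-9, -6, 2, -10], ![0, 0, 0, 0], ![7, -4, -3, 2]]),
    (178, ![![0, 0, 0, 0], ![-11, -2, -6, -8], ![0, 0, 0, 0], ![0, 0, 0, 0], ![17, -6, 2, 16], ![-3, -6, 2, -4], ![0, 0, 0, 0], ![-1, -2, -6, -8]]),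
    (204, ![![0, 0, 0, 0], ![0, 0, 0, 0], ![3, 6, 2, 2], ![-1, 0, -2, 0], ![0, 0, 0, 0], ![0, 0, 0, 0], ![1, 1, 0, 1], ![3, 4, 2, 0]]),
    (216, ![![0, 0, 0, 0], ![0, 0, 0, 0], ![0, 0, 0, 0], ![0, 3, -2, 1], ![-3, -6, -2, -2], ![0, 0, 0, 0], ![1, 1, 0, 1], ![0, -1, 0, -1]]),
    (240, ![![0, 0, 0, 0], ![0, 0, 0, 0], ![0, 0, 0, 0], ![0, 0, 0, 0], ![-11, -12, -14, -4], ![0, -3, 2, -1], ![11, 2, 6, 8], ![0, -1, -3, -4]])]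
  M := [(11, ![-38, -7, 26, -3, 0, 15, 0, 0]),
    (25, ![-18, 9, 0, -11, -13, 3, 0, 0]),
    (28, ![0, 6, -3, -2, -7, 0, 3, 0]),
    (52, ![28, 8, -22, 0, -3, -12, 0, 0]),
    (56, ![0, 18, 0, -20, -13, -6, 0, 18]),
    (67, ![-4, -8, 4, 0, 9, 0, -6, 0]),
    (73, ![-4, 0, 1, -3, 0, 0, -2, 1]),
    (98, ![0, -8, 1, 0, 10, -2, -7, 0]),
    (100, ![4, 0, -3, 0, 1, -2, -1, 0]),
    (104, ![0, 0, 0, -11, 5, -6, -9, 9]),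
    (131, ![-2, -1, 0, 1, 0, 1, 0, -2]),
    (134, ![4, -4, -13, 9, 0, 0, 0, -15]),
    (145, ![-44, 0, 0, 0, -17, 16, 2, -24]),
    (148, ![0, 0, -3, 1, -1, 0, 0, -3]),
    (164, ![12, 0, -13, 5, 0, -4, 0, -7]),
    (194, ![0, -2, 0, 1, 2, 0, -1, -1])]
  U := ![(![3, 0, 0, 2, 0, 0, 2, 0], 1), (![0, 0, 3, 0, 0, 0, 1, 2], 2), (![2, 0, 0, 1, 0, 0, 1, 0], 1), (![0, 0, 1, 0, 0, 0, 1, 0], 2)]
  L := ![(![1, 0, 2, 0, 1, 0, 0, 2], 1), (![0, 0, 1, 1, 0, 1, 1, 0], 1), (![0, 0, 2, 0, 1, 0, 0, 2], 2), (![0, 0, 1, 1, 0, 1, 0, 1], 3)]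
  I := ![(![26960, 53095, 86410, 22872], 145860), (![-4460331, -1970422, -3055776, 2910082], 22822800), (![7370, 25187, 11029, 10444], 31920), (![-5090, 33713, -9110, -17227], 69160), (![761, -2388, -14, 4198], 13200), (![-12182671, -12043677, 8369689, -14600068], 55426800), (![112717, 121111, 46643, 99400], 157080), (![1249171, 1685052, 573866, -496362], 2917200)]

theorem validQ : (datQ).Valid where
  v := by decide +kernel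
  vF := by decide +kernel
  w := by decide +kernel
  wF := by decide +kernel
  m := by decide +kernel
  mF := by decide +kernel
  u := by decide +kernel
  l := by decide +kernel
  i := by decide +kernel

/-- The polytope `P`: polar to a cyclic polytope. -/
noncomputable def polyP : SimplePolytope 4 8 := datP.poly validP

/-- The polytope `Q`. -/
noncomputable def polyQ : SimplePolytope 4 8 := datQ.poly validQ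

theorem mem_polyP (s : ℕ) (hs : s < 256) : T s ∈ polyP.K ↔ FP.testBit s = true :=
  PolyData.mem_K validP s hs

theorem mem_polyQ (s : ℕ) (hs : s < 256) : T s ∈ polyQ.K ↔ FQ.testBit s = true :=
  PolyData.mem_K validQ s hs

end Pool.Agent.Lib_helper42.Kz
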