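import Mathlib
import Pool.Agent.Lib_helper42.Kz.Buch
import Pool.Agent.Lib_helper42.Kz.DataPoly

/-! Buchstaber invariants of the two complexes. -/

set_option autoImplicit false

namespace Pool.Agent.Lib_helper42.Kz

/-- exponents of a rank 3 torus -/
def AP : Fin 8 → Fin 3 → ℤ := ![![0, 1, -1], ![-1, 0, 1], ![0, -1, -1], ![-1, 0, 0], ![0, 0, 1], ![-1, 0, 1], ![-1, -1, 0], ![-1, -1, 1]]

/-- left inverses -/
def BP : List (ℕ × (Fin 3 → Fin 8 → ℤ)) := [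
  (43, ![![0, 0, 1, 0, 1, 0, -1, 0], ![0, 0, -1, 0, -1, 0, 0, 0], ![0, 0, 0, 0, 1, 0, 0, 0]]),
  (139, ![![0, 0, 0, 0, 1, -1, 0, 0], ![0, 0, -1, 0, -1, 0, 0, 0], ![0, 0, 0, 0, 1, 0, 0, 0]]),
  (163, ![![0, 0, 0, -1, 0, 0, 0, 0], ![0, 0, -1, 0, -1, 0, 0, 0], ![0, 0, 0, 0, 1, 0, 0, 0]]),
  (29, ![![0, -1, 0, 0, 0, 0, -1, 1], ![0, 0, 0, 0, 0, 1, 0, -1], ![0, 0, 0, 0, 0, 0, -1, 1]]),
  (77, ![![0, -1, 0, 0, 1, 0, 0, 0], ![0, 0, 0, 0, 0, 1, 0, -1], ![0, 0, 0, 0, 1, 0, 0, 0]]),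
  (53, ![![0, 0, 0, -1, 0, 0, 0, 0], ![0, 0, 0, 1, 0, 0, -1, 0], ![0, 0, 0, 0, 0, 0, -1, 1]]),
  (101, ![![0, 0, 0, -1, 0, 0, 0, 0], ![0, 1, 0, 0, 0, 0, 0, -1], ![0, 0, 0, 0, 1, 0, 0, 0]]),
  (57, ![![0, -1, 0, 0, 0, 0, -1, 1], ![0, 1, 0, 0, 0, 0, 0, -1], ![0, 0, 0, 0, 0, 0, -1, 1]]),
  (201, ![![0, -1, 0, 0, 1, 0, 0, 0], ![0, 0, -1, 0, -1, 0, 0, 0], ![0, 0, 0, 0, 1, 0, 0, 0]]),
  (225, ![![0, 0, 0, -1, 0, 0, 0, 0], ![0, 0, -1, 0, -1, 0, 0, 0], ![0, 0, 0, 0, 1, 0, 0, 0]]),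
  (30, ![![-1, 0, 0, 0, 0, 0, 0, -1], ![0, 0, 0, 0, 0, 1, 0, -1], ![0, 0, 0, 0, 0, 0, -1, 1]]),
  (78, ![![-1, 0, 0, 0, 0, 0, 0, -1], ![0, 0, 0, 0, 0, 1, 0, -1], ![0, 0, 0, 0, 1, 0, 0, 0]]),
  (150, ![![0, 0, 0, -1, 0, 0, 0, 0], ![0, 0, 0, 1, 0, 0, -1, 0], ![0, 0, 0, -1, 0, 1, 0, 0]]),
  (198, ![![0, 0, 0, -1, 0, 0, 0, 0], ![1, 0, 0, 0, 1, 0, 0, 0], ![0, 0, 0, 0, 1, 0, 0, 0]]),
  (58, ![![-1, 0, 0, 0, 0, 0, 0, -1], ![0, 0, -1, 0, 0, 0, 1, -1], ![0, 0, 0, 0, 0, 0, -1, 1]]),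
  (202, ![![0, 0, 0, 0, 1, -1, 0, 0], ![0, 0, -1, 0, -1, 0, 0, 0], ![0, 0, 0, 0, 1, 0, 0, 0]]),
  (178, ![![0, 0, 0, -1, 0, 0, 0, 0], ![0, 0, 0, 1, 0, 0, -1, 0], ![-1, 0, 0, 1, 0, 0, -1, 0]]),
  (116, ![![0, 0, 0, -1, 0, 0, 0, 0], ![0, 1, 0, 0, 0, 0, 0, -1], ![0, 1, 0, -1, 0, 0, 0, 0]]),
  (212, ![![0, 0, 0, -1, 0, 0, 0, 0], ![1, 0, 0, -1, 0, 1, 0, 0], ![0, 0, 0, -1, 0, 1, 0, 0]]),
  (240, ![![0, 0, 0, -1, 0, 0, 0, 0], ![0, -1, -1, 1, 0, 0, 0, 0], ![0, 1, 0, -1, 0, 0, 0, 0]])]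

/-- exponents of a rank 4 torus -/
def AQ : Fin 8 → Fin 4 → ℤ := ![![-1, 0, -1, -1], ![1, 0, 1, 0], ![1, -1, 0, 0], ![1, 0, 0, 0], ![1, 1, 0, 1], ![0, 1, 0, 0], ![0, 0, 1, 0], ![0, 0, 0, 1]]

/-- left inverses -/
def BQ : List (ℕ × (Fin 4 → Fin 8 → ℤ)) := [
  (23, ![![0, 0, 0, 1, 0, 0, 0, 0], ![0, 0, 0, 0, 0, 1, 0, 0], ![0, 0, 0, 0, 0, 0, 1, 0], ![0, 0, 0, 0, 0, 0, 0, 1]]),
  (39, ![![0, 0, 0, 1, 0, 0, 0, 0], ![0, 0, 0, -1, 1, 0, 0, -1], ![0, 0, 0, 0, 0, 0, 1, 0], ![0, 0, 0, 0, 0, 0, 0, 1]]),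
  (51, ![![0, 0, 0, 1, 0, 0, 0, 0], ![0, 0, -1, 1, 0, 0, 0, 0], ![0, 0, 0, 0, 0, 0, 1, 0], ![0, 0, 0, 0, 0, 0, 0, 1]]),
  (45, ![![0, 1, 0, 0, 0, 0, -1, 0], ![0, -1, 0, 0, 1, 0, 1, -1], ![0, 0, 0, 0, 0, 0, 1, 0], ![0, 0, 0, 0, 0, 0, 0, 1]]),
  (141, ![![0, 1, 0, 0, 0, 0, -1, 0], ![0, 0, 0, 0, 0, 1, 0, 0], ![0, 0, 0, 0, 0, 0, 1, 0], ![0, -1, 0, 0, 1, -1, 1, 0]]),
  (85, ![![0, 0, 0, 1, 0, 0, 0, 0], ![0, 0, 0, 0, 0, 1, 0, 0], ![0, 1, 0, -1, 0, 0, 0, 0], ![0, 0, 0, 0, 0, 0, 0, 1]]),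
  (197, ![![0, 0, 0, 1, 0, 0, 0, 0], ![0, 0, 0, 0, 0, 1, 0, 0], ![0, 1, 0, -1, 0, 0, 0, 0], ![0, 0, 0, -1, 1, -1, 0, 0]]),
  (169, ![![0, 1, 0, 0, 0, 0, -1, 0], ![0, 1, -1, 0, 0, 0, -1, 0], ![0, 0, 0, 0, 0, 0, 1, 0], ![0, -2, 1, 0, 1, 0, 2, 0]]),
  (113, ![![0, 0, 0, 1, 0, 0, 0, 0], ![0, 0, -1, 1, 0, 0, 0, 0], ![0, 1, 0, -1, 0, 0, 0, 0], ![0, 0, 0, 0, 0, 0, 0, 1]]),
  (225, ![![0, 0, 0, 1, 0, 0, 0, 0], ![0, 0, -1, 1, 0, 0, 0, 0], ![0, 1, 0, -1, 0, 0, 0, 0], ![0, 0, 1, -2, 1, 0, 0, 0]]),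
  (46, ![![-1, 0, 0, 0, 0, 0, -1, -1], ![1, 0, 0, 0, 1, 0, 1, 0], ![0, 0, 0, 0, 0, 0, 1, 0], ![0, 0, 0, 0, 0, 0, 0, 1]]),
  (78, ![![0, 0, 0, 0, 1, -1, 0, -1], ![0, 0, 0, 0, 0, 1, 0, 0], ![-1, 0, 0, 0, -1, 1, 0, 0], ![0, 0, 0, 0, 0, 0, 0, 1]]),
  (86, ![![0, 0, 0, 1, 0, 0, 0, 0], ![0, 0, 0, 0, 0, 1, 0, 0], ![-1, 0, 0, -1, 0, 0, 0, -1], ![0, 0, 0, 0, 0, 0, 0, 1]]),
  (90, ![![0, 0, 1, 0, 0, 1, 0, 0], ![0, 0, 0, 0, 0, 1, 0, 0], ![-1, 0, -1, 0, 0, -1, 0, -1], ![0, 0, 0, 0, 0, 0, 0, 1]]),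
  (154, ![![0, 0, 1, 0, 0, 1, 0, 0], ![0, 0, 0, 0, 0, 1, 0, 0], ![0, 0, 0, 0, 0, 0, 1, 0], ![-1, 0, -1, 0, 0, -1, -1, 0]]),
  (170, ![![1, 0, 1, 0, 1, 0, 1, 0], ![1, 0, 0, 0, 1, 0, 1, 0], ![0, 0, 0, 0, 0, 0, 1, 0], ![-2, 0, -1, 0, -1, 0, -2, 0]]),
  (178, ![![0, 0, 0, 1, 0, 0, 0, 0], ![0, 0, -1, 1, 0, 0, 0, 0], ![0, 0, 0, 0, 0, 0, 1, 0], ![-1, 0, 0, -1, 0, 0, -1, 0]]),
  (204, ![![1, 1, 0, 0, 1, -1, 0, 0], ![0, 0, 0, 0, 0, 1, 0, 0], ![-1, 0, 0, 0, -1, 1, 0, 0], ![-1, -1, 0, 0, 0, 0, 0, 0]]),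
  (216, ![![0, 0, 1, 0, 0, 1, 0, 0], ![0, 0, 0, 0, 0, 1, 0, 0], ![0, 1, -1, 0, 0, -1, 0, 0], ![-1, -1, 0, 0, 0, 0, 0, 0]]),
  (240, ![![0, 0, 0, 1, 0, 0, 0, 0], ![0, 0, -1, 1, 0, 0, 0, 0], ![0, 1, 0, -1, 0, 0, 0, 0], ![-1, -1, 0, 0, 0, 0, 0, 0]])]

/-- check of a list of left inverses -/
structure InvChk {r : ℕ} (F : ℕ) (A : Fin 8 → Fin r → ℤ) (B : List (ℕ × (Fin r → Fin 8 → ℤ))) :
    Prop where
  cover : allBelow 256 (fun s => !(F.testBit s) || B.any (fun e => s &&& e.1 == s)) = true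
  zero : ∀ e ∈ B, ∀ j, ∀ i : Fin 8, e.1.testBit i = true → e.2 j i = 0
  inv : ∀ e ∈ B, ∀ j l, ∑ i, e.2 j i * A i l = if j = l then 1 else 0

theorem invChkP : InvChk FP AP BP where
  cover := by decide +kernel
  zero := by decide +kernel
  inv := by decide +kernel

theorem invChkQ : InvChk FQ AQ BQ where
  cover := by decide +kernel
  zero := by decide +kernel
  inv := by decide +kernel

theorem good_of_chk {r : ℕ} {F : ℕ} {A : Fin 8 → Fin r → ℤ}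
    {B : List (ℕ × (Fin r → Fin 8 → ℤ))} (h : InvChk F A B) {K : Set (Finset (Fin 8))}
    (hF : ∀ s < 256, T s ∈ K ↔ F.testBit s = true) : Good K A := by
  intro σ hσ
  obtain ⟨s, hs, rfl⟩ := T_surj σ
  have h1 := allBelow_spec h.cover s hs
  rw [(hF s hs).mp hσ, Bool.not_true, Bool.false_or, List.any_eq_true] at h1
  obtain ⟨e, he, h2⟩ := h1
  rw [beq_iff_eq] at h2
  refine ⟨T e.1, e.2, sub_of_and h2, ?_, ?_⟩
  · intro j i hi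
    exact h.zero e he j i (mem_T.mp hi)
  · intro j l
    exact h.inv e he j l

/-- the exhaustive search: no four elements generate a free action -/
def srch (F : ℕ) : Bool :=
  allBelow 16 (fun a0 => F.testBit (1 + 16 * a0) ||
    allBelow 16 (fun a1 => F.testBit (2 + 16 * a1) ||
      F.testBit ((1 + 16 * a0) ^^^ (2 + 16 * a1)) ||
      allBelow 16 (fun a2 => F.testBit (4 + 16 * a2) ||
        F.testBit ((1 + 16 * a0) ^^^ (4 + 16 * a2)) ||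
        F.testBit ((2 + 16 * a1) ^^^ (4 + 16 * a2)) ||
        F.testBit ((1 + 16 * a0) ^^^ (2 + 16 * a1) ^^^ (4 + 16 * a2)) ||
        allBelow 16 (fun a3 => F.testBit (8 + 16 * a3) ||
          F.testBit ((1 + 16 * a0) ^^^ (8 + 16 * a3)) ||
          F.testBit ((2 + 16 * a1) ^^^ (8 + 16 * a3)) ||
          F.testBit ((1 + 16 * a0) ^^^ (2 + 16 * a1) ^^^ (8 + 16 * a3)) ||
          F.testBit ((4 + 16 * a2) ^^^ (8 + 16 * a3)) ||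
          F.testBit ((1 + 16 * a0) ^^^ (4 + 16 * a2) ^^^ (8 + 16 * a3)) ||
          F.testBit ((2 + 16 * a1) ^^^ (4 + 16 * a2) ^^^ (8 + 16 * a3)) ||
          F.testBit ((1 + 16 * a0) ^^^ (2 + 16 * a1) ^^^ (4 + 16 * a2) ^^^ (8 + 16 * a3))))))

theorem srchP : srch FP = true := by decide +kernel

theorem T_xor (s t : ℕ) : T (s ^^^ t) = symmDiff (T s) (T t) := by
  ext i
  rw [Finset.mem_symmDiff, mem_T, mem_T, mem_T, Nat.testBit_xor]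
  cases h1 : s.testBit i <;> cases h2 : t.testBit i <;> simp

theorem no_four {F : ℕ} (hsr : srch F = true) {K : Set (Finset (Fin 8))}
    (hK : ∀ σ ∈ K, ∀ τ ⊆ σ, τ ∈ K) (hF : ∀ s < 256, T s ∈ K ↔ F.testBit s = true)
    (h240 : T 240 ∈ K) : ¬ Sfam K 4 := by
  rintro ⟨S, h1, h2⟩
  have hinj := Sfam.inj hK h1 h2 h240
  -- the map to subsets of the first four vertices is onto
  have hsurj : ∀ j : ℕ, j < 16 → ∃ u, ∃ a < 16, S u = T (j + 16 * a) := by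
    intro j hj
    have hmaps : Set.MapsTo (fun u => S u \ T 240) (Finset.univ : Finset (Fin 4 → ℤˣ))
        ((T 240)ᶜ.powerset : Finset (Finset (Fin 8))) := by
      intro u _
      rw [Finset.mem_coe, Finset.mem_powerset]
      intro i hi
      exact Finset.mem_compl.mpr (Finset.mem_sdiff.mp hi).2
    have hcard : ((T 240)ᶜ.powerset : Finset (Finset (Fin 8))).card ≤
        (Finset.univ : Finset (Fin 4 → ℤˣ)).card := by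
      rw [Finset.card_univ, card_units_pi]
      decide
    have hon := Finset.surjOn_of_injOn_of_card_le (fun u => S u \ T 240) hmaps hinj.injOn hcard
    have hmem : T j ∈ (((T 240)ᶜ.powerset : Finset (Finset (Fin 8))) : Set (Finset (Fin 8))) := by
      rw [Finset.mem_coe, Finset.mem_powerset]
      interval_cases j <;> decide
    obtain ⟨u, _, hu⟩ := hon hmem
    have hu' : S u \ T 240 = T j := hu
    refine ⟨u, bm (S u) / 16, ?_, ?_⟩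
    · have := bm_lt (S u)
      omega
    · have h3 : T (bm (S u)) \ T 240 = T j := by rw [T_bm]; exact hu'
      have h4 : ∀ n < 256, T n \ T 240 = T (n % 16) := by
        decide +kernel
      rw [h4 _ (bm_lt _)] at h3
      have h5 := T_inj (by have := bm_lt (S u); omega) (by omega) h3
      have h6 : j + 16 * (bm (S u) / 16) = bm (S u) := by omega
      rw [h6, T_bm]
  -- faces are excluded
  have hex : ∀ n < 256, n ≠ 0 → (∃ u, S u = T n) → F.testBit n ≠ true := by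
    rintro n hn hn0 ⟨u, hu⟩ hF'
    have h3 : S u ∈ K := by rw [hu]; exact (hF n hn).mpr hF'
    have h4 := h2 u h3
    have h5 : S (1 : Fin 4 → ℤˣ) = ∅ := by
      have := h1 1 1
      rw [mul_one, symmDiff_self] at this
      exact this
    rw [h4, h5] at hu
    have h6 : T 0 = ∅ := by decide
    rw [← h6] at hu
    exact hn0 (T_inj (by norm_num) hn hu).symm
  have hmul : ∀ a b, (∃ u, S u = T a) → (∃ u, S u = T b) → ∃ u, S u = T (a ^^^ b) := by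
    rintro a b ⟨u, hu⟩ ⟨w, hw⟩
    exact ⟨u * w, by rw [h1, hu, hw, T_xor]⟩
  obtain ⟨u0, a0, ha0, h0⟩ := hsurj 1 (by norm_num)
  obtain ⟨u1, a1, ha1, h1'⟩ := hsurj 2 (by norm_num)
  obtain ⟨u2, a2, ha2, h2'⟩ := hsurj 4 (by norm_num)
  obtain ⟨u3, a3, ha3, h3'⟩ := hsurj 8 (by norm_num)
  have e0 : ∃ u, S u = T (1 + 16 * a0) := ⟨u0, h0⟩
  have e1 : ∃ u, S u = T (2 + 16 * a1) := ⟨u1, h1'⟩
  have e2 : ∃ u, S u = T (4 + 16 * a2) := ⟨u2, h2'⟩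
  have e3 : ∃ u, S u = T (8 + 16 * a3) := ⟨u3, h3'⟩
  have hlt : ∀ a b : ℕ, a < 256 → b < 256 → a ^^^ b < 256 := fun a b ha hb =>
    Nat.xor_lt_two_pow (n := 8) ha hb
  have l0 : 1 + 16 * a0 < 256 := by omega
  have l1 : 2 + 16 * a1 < 256 := by omega
  have l2 : 4 + 16 * a2 < 256 := by omega
  have l3 : 8 + 16 * a3 < 256 := by omega
  have hmod : ∀ a b : ℕ, (a ^^^ b) % 16 = (a % 16) ^^^ (b % 16) := by
    intro a b
    have := Nat.xor_mod_two_pow (a := a) (b := b) (n := 4)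
    exact this
  have m0 : (1 + 16 * a0) % 16 = 1 := by omega
  have m1 : (2 + 16 * a1) % 16 = 2 := by omega
  have m2 : (4 + 16 * a2) % 16 = 4 := by omega
  have m3 : (8 + 16 * a3) % 16 = 8 := by omega
  have hnz : ∀ n, n % 16 ≠ 0 → n ≠ 0 := by
    rintro n h rfl; exact h rfl
  have s0 := allBelow_spec hsr a0 ha0
  rw [Bool.or_eq_true] at s0
  rcases s0 with s0 | s0
  · exact hex _ l0 (hnz _ (by rw [m0]; decide)) e0 s0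
  have s1 := allBelow_spec s0 a1 ha1
  rw [Bool.or_eq_true, Bool.or_eq_true] at s1
  rcases s1 with (s1 | s1) | s1
  · exact hex _ l1 (hnz _ (by rw [m1]; decide)) e1 s1
  · exact hex _ (hlt _ _ l0 l1) (hnz _ (by rw [hmod, m0, m1]; decide)) (hmul _ _ e0 e1) s1
  have s2 := allBelow_spec s1 a2 ha2
  rw [Bool.or_eq_true, Bool.or_eq_true, Bool.or_eq_true, Bool.or_eq_true] at s2
  have e01 := hmul _ _ e0 e1
  have l01 := hlt _ _ l0 l1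
  have m01 : ((1 + 16 * a0) ^^^ (2 + 16 * a1)) % 16 = 3 := by rw [hmod, m0, m1]; decide
  rcases s2 with (((s2 | s2) | s2) | s2) | s2
  · exact hex _ l2 (hnz _ (by rw [m2]; decide)) e2 s2
  · exact hex _ (hlt _ _ l0 l2) (hnz _ (by rw [hmod, m0, m2]; decide)) (hmul _ _ e0 e2) s2
  · exact hex _ (hlt _ _ l1 l2) (hnz _ (by rw [hmod, m1, m2]; decide)) (hmul _ _ e1 e2) s2
  · exact hex _ (hlt _ _ l01 l2) (hnz _ (by rw [hmod, m01, m2]; decide)) (hmul _ _ e01 e2) s2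
  have s3 := allBelow_spec s2 a3 ha3
  simp only [Bool.or_eq_true] at s3
  have e02 := hmul _ _ e0 e2
  have l02 := hlt _ _ l0 l2
  have m02 : ((1 + 16 * a0) ^^^ (4 + 16 * a2)) % 16 = 5 := by rw [hmod, m0, m2]; decide
  have e12 := hmul _ _ e1 e2
  have l12 := hlt _ _ l1 l2
  have m12 : ((2 + 16 * a1) ^^^ (4 + 16 * a2)) % 16 = 6 := by rw [hmod, m1, m2]; decide
  have e012 := hmul _ _ e01 e2
  have l012 := hlt _ _ l01 l2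
  have m012 : ((1 + 16 * a0) ^^^ (2 + 16 * a1) ^^^ (4 + 16 * a2)) % 16 = 7 := by
    rw [hmod, m01, m2]; decide
  rcases s3 with ((((((s3 | s3) | s3) | s3) | s3) | s3) | s3) | s3
  · exact hex _ l3 (hnz _ (by rw [m3]; decide)) e3 s3
  · exact hex _ (hlt _ _ l0 l3) (hnz _ (by rw [hmod, m0, m3]; decide)) (hmul _ _ e0 e3) s3
  · exact hex _ (hlt _ _ l1 l3) (hnz _ (by rw [hmod, m1, m3]; decide)) (hmul _ _ e1 e3) s3
  · exact hex _ (hlt _ _ l01 l3) (hnz _ (by rw [hmod, m01, m3]; decide)) (hmul _ _ e01 e3) s3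
  · exact hex _ (hlt _ _ l2 l3) (hnz _ (by rw [hmod, m2, m3]; decide)) (hmul _ _ e2 e3) s3
  · exact hex _ (hlt _ _ l02 l3) (hnz _ (by rw [hmod, m02, m3]; decide)) (hmul _ _ e02 e3) s3
  · exact hex _ (hlt _ _ l12 l3) (hnz _ (by rw [hmod, m12, m3]; decide)) (hmul _ _ e12 e3) s3
  · exact hex _ (hlt _ _ l012 l3) (hnz _ (by rw [hmod, m012, m3]; decide)) (hmul _ _ e012 e3) s3

theorem sSup_eq {S : Set ℕ} {n : ℕ} (h1 : n ∈ S) (h2 : ∀ r ∈ S, r ≤ n) : sSup S = n :=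
  (IsGreatest.csSup_eq ⟨h1, fun r hr => h2 r hr⟩)

theorem card_T240 : (T 240).card = 4 := by decide

theorem sfamP {r : ℕ} (h : Sfam polyP.K r) : r ≤ 3 := by
  have h240 : T 240 ∈ polyP.K := (mem_polyP 240 (by norm_num)).mpr (by decide +kernel)
  have h1 := h.le polyP.down h240
  rw [card_T240] at h1
  by_contra hcon
  have h2 : r = 4 := by omega
  subst h2
  exact no_four srchP polyP.down mem_polyP h240 h

theorem sfamQ {r : ℕ} (h : Sfam polyQ.K r) : r ≤ 4 := by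
  have h240 : T 240 ∈ polyQ.K := (mem_polyQ 240 (by norm_num)).mpr (by decide +kernel)
  have h1 := h.le polyQ.down h240
  rw [card_T240] at h1
  omega

theorem emptyP : ∅ ∈ polyP.K := by
  have h := (mem_polyP 0 (by norm_num)).mpr (by decide +kernel)
  have h0 : T 0 = ∅ := by decide
  rwa [h0] at h

theorem emptyQ : ∅ ∈ polyQ.K := by
  have h := (mem_polyQ 0 (by norm_num)).mpr (by decide +kernel)
  have h0 : T 0 = ∅ := by decide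
  rwa [h0] at h

theorem buchP : buchstaber polyP.K = 3 :=
  sSup_eq (mem_freeDims (good_of_chk invChkP mem_polyP) emptyP)
    (fun _ hr => sfamP (sfam_of_mem_freeDims hr))

theorem buchQ : buchstaber polyQ.K = 4 :=
  sSup_eq (mem_freeDims (good_of_chk invChkQ mem_polyQ) emptyQ)
    (fun _ hr => sfamQ (sfam_of_mem_freeDims hr))

theorem realBuchP : realBuchstaber polyP.K = 3 :=
  sSup_eq (mem_freeRanks (good_of_chk invChkP mem_polyP) emptyP)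
    (fun _ hr => sfamP (sfam_of_mem_freeRanks hr))

theorem realBuchQ : realBuchstaber polyQ.K = 4 :=
  sSup_eq (mem_freeRanks (good_of_chk invChkQ mem_polyQ) emptyQ)
    (fun _ hr => sfamQ (sfam_of_mem_freeRanks hr))

end Pool.Agent.Lib_helper42.Kz
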