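import Mathlib
import Pool.Agent.Lib_helper42.Kz.Bound

/-! The fundamental functional on the Koszul algebra and the bigrading. -/

set_option autoImplicit false

namespace Pool.Agent.Lib_helper42.Kz

universe u w

variable {k : Type w} [Field k] {R : Type u} [CommRing R] [Algebra k R] {m : ℕ}

/-! ### The bigrading -/

theorem mul_list_mem (v : Fin m → R) {p q i j : ℕ} (a : Fin p → Fin m) (a' : Fin q → Fin m)
    (b : Fin i → Fin m) (b' : Fin j → Fin m) :
    ((∏ t, v (a t)) • (List.ofFn fun t => gen (R := R) (b t)).prod : EA R m) *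
      ((∏ t, v (a' t)) • (List.ofFn fun t => gen (R := R) (b' t)).prod) =
    (∏ t, v (Fin.append a a' t)) • (List.ofFn fun t => gen (R := R) (Fin.append b b' t)).prod := by
  rw [smul_mul_smul_comm]
  congr 1
  · rw [Fin.prod_univ_add]
    simp
  · rw [← List.prod_append]
    congr 1
    have : (fun t => gen (R := R) (Fin.append b b' t)) =
        Fin.append (fun t => gen (R := R) (b t)) (fun t => gen (R := R) (b' t)) := by
      funext t
      refine Fin.addCases (fun t => ?_) (fun t => ?_) t <;> simp
    rw [this, List.ofFn_fin_append]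

theorem bideg_mul (v : Fin m → R) {i j i' j' : ℕ} {x y : EA R m} (hx : x ∈ bideg k v i j)
    (hy : y ∈ bideg k v i' j') : x * y ∈ bideg k v (i + i') (j + j') := by
  unfold bideg at hx
  induction hx using Submodule.span_induction with
  | zero => rw [zero_mul]; exact Submodule.zero_mem _
  | add x z _ _ h1 h2 => rw [add_mul]; exact Submodule.add_mem _ h1 h2
  | smul c x _ h => rw [smul_mul_assoc]; exact Submodule.smul_mem _ _ h
  | mem x hx =>
    obtain ⟨p, a, b, hp, rfl⟩ := hx
    unfold bideg at hy
    induction hy using Submodule.span_induction with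
    | zero => rw [mul_zero]; exact Submodule.zero_mem _
    | add x z _ _ h1 h2 => rw [mul_add]; exact Submodule.add_mem _ h1 h2
    | smul c x _ h => rw [mul_smul_comm]; exact Submodule.smul_mem _ _ h
    | mem y hy =>
      obtain ⟨q, a', b', hq, rfl⟩ := hy
      apply Submodule.subset_span
      refine ⟨p + q, Fin.append a a', Fin.append b b', by omega, ?_⟩
      exact mul_list_mem v a a' b b'

theorem EE_eq_ofFn (J : Finset (Fin m)) :
    (EE J : EA R m) = (List.ofFn fun t => gen (R := R) (J.orderEmbOfFin rfl t)).prod := by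
  unfold EE
  rw [← Finset.listMap_orderEmbOfFin_finRange J rfl, List.map_map, ← List.ofFn_eq_map]
  rfl

theorem mon_ind_eq (v : Fin m → R) (σ : Finset (Fin m)) :
    mon v (ind σ) = ∏ t : Fin σ.card, v (σ.orderEmbOfFin rfl t) := by
  have h1 : mon v (ind σ) = ∏ i ∈ σ, v i := by
    unfold mon ind
    rw [← Finset.prod_subset (Finset.subset_univ σ)]
    · refine Finset.prod_congr rfl ?_
      intro i hi
      rw [if_pos hi, pow_one]
    · intro i _ hi
      rw [if_neg hi, pow_zero]
  rw [h1]
  have h2 : (Finset.univ : Finset (Fin σ.card)).map (σ.orderEmbOfFin rfl).toEmbedding = σ := by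
    rw [Finset.map_orderEmbOfFin_univ]
  conv_lhs => rw [← h2]
  rw [Finset.prod_map]
  rfl

theorem cell_mem_bideg (v : Fin m → R) (σ J : Finset (Fin m)) :
    cell v σ J ∈ bideg k v J.card (σ.card + J.card) := by
  apply Submodule.subset_span
  refine ⟨σ.card, σ.orderEmbOfFin rfl, J.orderEmbOfFin rfl, rfl, ?_⟩
  rw [cell, mon_ind_eq, EE_eq_ofFn]

theorem one_mem_bideg (v : Fin m → R) : (1 : EA R m) ∈ bideg k v 0 0 := by
  have := cell_mem_bideg (k := k) v ∅ ∅
  rw [cell, EE_empty] at this
  have h1 : mon v (ind ∅) = 1 := by simp [mon, ind]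
  rw [h1, one_smul] at this
  exact this

/-- a product of generators is a signed exterior monomial -/
theorem ofFn_eq (i : ℕ) (b : Fin i → Fin m) :
    (List.ofFn fun t => gen (R := R) (b t)).prod = 0 ∨
    ∃ (c : ℤ) (J : Finset (Fin m)), J.card = i ∧
      (List.ofFn fun t => gen (R := R) (b t)).prod = c • (EE J : EA R m) := by
  induction i with
  | zero =>
    right
    exact ⟨1, ∅, rfl, by simp [EE_empty]⟩
  | succ i ih =>
    rw [List.ofFn_succ, List.prod_cons]
    rcases ih (fun t => b t.succ) with h | ⟨c, J, hJ, h⟩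
    · left; rw [h, mul_zero]
    · rw [h, mul_smul_comm, gen_mul_EE]
      by_cases hb : b 0 ∈ J
      · left; rw [if_pos hb, smul_zero]
      · right
        refine ⟨c * sgn (b 0) J, insert (b 0) J, ?_, ?_⟩
        · rw [Finset.card_insert_of_notMem hb, hJ]
        · rw [if_neg hb, smul_smul]

theorem prod_eq_mon (v : Fin m → R) (p : ℕ) (a : Fin p → Fin m) :
    ∃ α : Fin m → ℕ, ∑ i, α i = p ∧ ∏ t, v (a t) = mon v α := by
  induction p with
  | zero => exact ⟨0, by simp, by simp [mon]⟩
  | succ p ih =>
    obtain ⟨α, h1, h2⟩ := ih (fun t => a t.succ)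
    refine ⟨α + Pi.single (a 0) 1, ?_, ?_⟩
    · simp only [Pi.add_apply, Finset.sum_add_distrib, h1]
      simp
    · rw [Fin.prod_univ_succ, h2, mul_comm, mon_mul_v]

theorem sum_ind (σ : Finset (Fin m)) : ∑ i, ind σ i = σ.card := by
  unfold ind
  simp

/-! ### The functional -/

variable {v : Fin 8 → R} {K : Finset (Fin 8) → Prop}

/-- A fundamental cycle. -/
structure Orient (K : Finset (Fin 8) → Prop) (e : Finset (Fin 8) → ℤ) : Prop where
  face : ∀ σ, e σ ≠ 0 → K σ
  card : ∀ σ, e σ ≠ 0 → σ.card = 4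
  closed : ∀ J : Finset (Fin 8), ∑ i ∈ J, sgn i J * e (insert i Jᶜ) = 0

/-- the functional -/
noncomputable def lam (D : FaceData k v K) (e : Finset (Fin 8) → ℤ) : EA R 8 →ₗ[k] k :=
  ∑ σ : Finset (Fin 8), ((e σ : ℤ) : k) • D.coord σ σᶜ

theorem lam_mon (D : FaceData k v K) {e : Finset (Fin 8) → ℤ} (he : Orient K e)
    (α : Fin 8 → ℕ) (L : Finset (Fin 8)) :
    lam D e (mon v α • EE L) = if α = ind Lᶜ then ((e Lᶜ : ℤ) : k) else 0 := by
  unfold lam
  rw [LinearMap.sum_apply, Finset.sum_eq_single Lᶜ]
  · rw [LinearMap.smul_apply, compl_compl]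
    by_cases h0 : e Lᶜ = 0
    · rw [h0]; simp
    · rw [D.coord_mon _ _ _ (he.face _ h0)]
      by_cases h : α = ind Lᶜ
      · rw [if_pos h, if_pos ⟨rfl, h⟩, smul_eq_mul, mul_one]
      · rw [if_neg h, if_neg (fun h2 => h h2.2), smul_zero]
  · intro σ _ hσ
    rw [LinearMap.smul_apply]
    by_cases h0 : e σ = 0
    · rw [h0]; simp
    · rw [D.coord_mon _ _ _ (he.face _ h0), if_neg, smul_zero]
      rintro ⟨h, _⟩
      apply hσ
      rw [h, compl_compl]
  · intro h; exact absurd (Finset.mem_univ _) h

attribute [irreducible] lam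

theorem lam_kd (D : FaceData k v K) {e : Finset (Fin 8) → ℤ} (he : Orient K e) (x : EA R 8) :
    lam D e (kd v x) = 0 := by
  have hx : x ∈ Submodule.span k (goodSet v ∅) := by rw [D.span_top]; trivial
  induction hx using Submodule.span_induction with
  | zero => rw [map_zero, map_zero]
  | add x y _ _ h1 h2 => rw [map_add, map_add, h1, h2, add_zero]
  | smul c x _ h =>
    have : kd v (c • x) = c • kd v x := by
      have h2 := ((kd v).restrictScalars k).map_smul c x
      exact h2
    rw [this, map_smul, h, smul_zero]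
  | mem x hx =>
    obtain ⟨α, J, _, rfl⟩ := hx
    rw [kd_mon_EE, map_sum]
    have h1 : ∀ i ∈ J, lam D e (sgn i J • (mon v (α + Pi.single i 1) • EE (J.erase i))) =
        if α = ind Jᶜ then ((sgn i J * e (insert i Jᶜ) : ℤ) : k) else 0 := by
      intro i hi
      rw [map_zsmul, lam_mon D he]
      have h2 : (J.erase i)ᶜ = insert i Jᶜ := by
        ext j
        simp only [Finset.mem_compl, Finset.mem_erase, Finset.mem_insert]
        tauto
      have h3 : i ∉ Jᶜ := by simpa using hi
      rw [h2, ind_insert h3]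
      by_cases h : α = ind Jᶜ
      · rw [if_pos (by rw [h]), if_pos h, zsmul_eq_mul]
        push_cast
        ring
      · rw [if_neg (fun h4 => h (add_right_cancel h4)), if_neg h, smul_zero]
    rw [Finset.sum_congr rfl h1]
    by_cases h : α = ind Jᶜ
    · simp only [if_pos h]
      rw [← Int.cast_sum, he.closed, Int.cast_zero]
    · simp only [if_neg h]
      exact Finset.sum_const_zero

theorem lam_bideg (D : FaceData k v K) {e : Finset (Fin 8) → ℤ} (he : Orient K e)
    {i j : ℕ} (hij : ¬ (i = 4 ∧ j = 8)) {x : EA R 8} (hx : x ∈ bideg k v i j) :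
    lam D e x = 0 := by
  unfold bideg at hx
  induction hx using Submodule.span_induction with
  | zero => rw [map_zero]
  | add x y _ _ h1 h2 => rw [map_add, h1, h2, add_zero]
  | smul c x _ h => rw [map_smul, h, smul_zero]
  | mem x hx =>
    obtain ⟨p, a, b, hp, rfl⟩ := hx
    obtain ⟨α, hα, h2⟩ := prod_eq_mon v p a
    rw [h2]
    rcases ofFn_eq (R := R) i b with h | ⟨c, J, hJ, h⟩
    · rw [h, smul_zero, map_zero]
    · rw [h, smul_comm, map_zsmul, lam_mon D he]
      by_cases h3 : α = ind Jᶜ
      · rw [if_pos h3]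
        by_cases h4 : e Jᶜ = 0
        · rw [h4]; simp
        · exfalso
          have h5 := he.card _ h4
          have h6 : p = 4 := by rw [← hα, h3, sum_ind, h5]
          have h7 : J.card = 4 := by
            rw [Finset.card_compl, Fintype.card_fin] at h5
            have := Finset.card_le_univ J
            rw [Fintype.card_fin] at this
            omega
          exact hij ⟨by omega, by omega⟩
      · rw [if_neg h3, smul_zero]

theorem ind_add_eq {σ τ ρ : Finset (Fin m)} :
    ind σ + ind τ = ind ρ ↔ Disjoint σ τ ∧ σ ∪ τ = ρ := by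
  constructor
  · intro h
    have h1 : ∀ i, ind σ i + ind τ i = ind ρ i := fun i => congrFun h i
    constructor
    · rw [Finset.disjoint_left]
      intro i hi hi2
      have := h1 i
      unfold ind at this
      rw [if_pos hi, if_pos hi2] at this
      split_ifs at this; omega
    · ext i
      have := h1 i
      unfold ind at this
      rw [Finset.mem_union]
      split_ifs at this <;> simp_all
  · rintro ⟨h, rfl⟩
    funext i
    have h1 := (Finset.disjoint_left.mp h) (a := i)
    show ind σ i + ind τ i = ind (σ ∪ τ) i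
    unfold ind
    by_cases h2 : i ∈ σ <;> by_cases h3 : i ∈ τ <;> simp_all

theorem lam_cell_mul_cell (D : FaceData k v K) {e : Finset (Fin 8) → ℤ} (he : Orient K e)
    (σ J τ L : Finset (Fin 8)) :
    lam D e (cell v σ J * cell v τ L) =
      if Disjoint J L ∧ Disjoint σ τ ∧ σ ∪ τ = (J ∪ L)ᶜ then ((sgn2 J L * e (σ ∪ τ) : ℤ) : k)
      else 0 := by
  unfold cell
  rw [smul_mul_smul_comm, mon_mul, EE_mul_EE]
  by_cases h : Disjoint J L
  · rw [if_pos h, smul_comm, map_zsmul, lam_mon D he]
    by_cases h2 : Disjoint σ τ ∧ σ ∪ τ = (J ∪ L)ᶜ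
    · rw [if_pos (ind_add_eq.mpr h2), if_pos ⟨h, h2⟩, zsmul_eq_mul, h2.2]
      push_cast
      ring
    · rw [if_neg (fun h3 => h2 (ind_add_eq.mp h3)), if_neg (fun h3 => h2 h3.2), smul_zero]
  · rw [if_neg h, if_neg (fun h3 => h h3.1), smul_zero, map_zero]

end Pool.Agent.Lib_helper42.Kz
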