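import Mathlib
import Pool.Agent.Lib_helper42.Kz.Lam
import Pool.Agent.Lib_helper42.Kz.Abs

/-! Evaluation of the fundamental functional and of the differential on bitmask data. -/

set_option autoImplicit false

namespace Pool.Agent.Lib_helper42.Kz

universe u w

/-- bounded integer sum -/
def sumZ : ℕ → (ℕ → ℤ) → ℤ
  | 0, _ => 0
  | n + 1, p => p n + sumZ n p

theorem sumZ_eq (n : ℕ) (p : ℕ → ℤ) : ∑ i : Fin n, p i = sumZ n p := by
  rw [Fin.sum_univ_eq_sum_range (fun i => p i) n]
  induction n with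
  | zero => rfl
  | succ n ih => rw [Finset.sum_range_succ, ih, sumZ, add_comm]

/-- bounded integer product -/
def prodZ : ℕ → (ℕ → ℤ) → ℤ
  | 0, _ => 1
  | n + 1, p => p n * prodZ n p

theorem prodZ_eq (n : ℕ) (p : ℕ → ℤ) : ∏ i : Fin n, p i = prodZ n p := by
  rw [Fin.prod_univ_eq_prod_range (fun i => p i) n]
  induction n with
  | zero => rfl
  | succ n ih => rw [Finset.prod_range_succ, ih, prodZ, mul_comm]

/-- number of elements of a bitmask -/
def pc (s : ℕ) : ℕ := sumBelow 8 (fun i => if s.testBit i then 1 else 0)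

theorem card_T (s : ℕ) : (T s).card = pc s := by
  unfold T pc
  rw [Finset.card_filter, ← sumBelow_eq 8 (fun i => if s.testBit i then 1 else 0)]

/-- sign from bitmasks -/
def sgb (i t : ℕ) : ℤ :=
  if (sumBelow 8 (fun l => if t.testBit l && Nat.blt l i then 1 else 0)) % 2 = 0 then 1 else -1

theorem sgb_eq (i : Fin 8) (t : ℕ) : sgn i (T t) = sgb i t := by
  unfold sgn sgb
  have h1 : ((T t).filter (· < i)).card =
      sumBelow 8 (fun l => if t.testBit l && Nat.blt l i then 1 else 0) := by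
    unfold T
    rw [Finset.filter_filter, Finset.card_filter,
      ← sumBelow_eq 8 (fun l => if t.testBit l && Nat.blt l i then 1 else 0)]
    refine Finset.sum_congr rfl ?_
    intro l _
    congr 1
    rw [Bool.and_eq_true, Nat.blt_eq, Fin.lt_def]
  rw [h1]
  generalize sumBelow 8 (fun l => if t.testBit l && Nat.blt l i then 1 else 0) = n
  rcases Nat.even_or_odd n with h | h
  · rw [h.neg_one_pow, if_pos (Nat.even_iff.mp h)]
  · rw [h.neg_one_pow, if_neg]
    rw [Nat.odd_iff.mp h]; decide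

/-- product sign from bitmasks -/
def sg2b (s t : ℕ) : ℤ := prodZ 8 (fun i => if s.testBit i then sgb i t else 1)

theorem sg2b_eq (s t : ℕ) : sgn2 (T s) (T t) = sg2b s t := by
  unfold sgn2 sg2b
  rw [← prodZ_eq 8 (fun i => if s.testBit i then sgb i t else 1)]
  conv_lhs => unfold T
  rw [Finset.prod_filter]
  refine Finset.prod_congr rfl ?_
  intro i _
  by_cases h : s.testBit i = true
  · rw [if_pos h, if_pos h]; exact sgb_eq i t
  · rw [if_neg h, if_neg h]

theorem T_compl {n : ℕ} : T (255 ^^^ n) = (T n)ᶜ := by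
  ext i
  rw [mem_T, Finset.mem_compl, mem_T, Nat.testBit_xor]
  have : (255 : ℕ).testBit i = true := by
    revert i; decide
  rw [this]
  simp

theorem T_or (s t : ℕ) : T (s ||| t) = T s ∪ T t := by
  ext i
  rw [mem_T, Finset.mem_union, mem_T, mem_T, Nat.testBit_or, Bool.or_eq_true]

theorem or_lt {s t : ℕ} (hs : s < 256) (ht : t < 256) : s ||| t < 256 :=
  Nat.or_lt_two_pow (n := 8) hs ht

theorem xor_lt' {s t : ℕ} (hs : s < 256) (ht : t < 256) : s ^^^ t < 256 :=
  Nat.xor_lt_two_pow (n := 8) hs ht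

/-- the orientation as a function on bitmasks -/
def ef (P N n : ℕ) : ℤ := if P.testBit n then 1 else if N.testBit n then -1 else 0

/-- the orientation as a function on subsets -/
noncomputable def eo (P N : ℕ) (σ : Finset (Fin 8)) : ℤ := ef P N (bm σ)

theorem eo_T {P N n : ℕ} (hn : n < 256) : eo P N (T n) = ef P N n := by
  unfold eo; rw [bm_T hn]

/-- check of an orientation -/
structure OrientChk (F P N : ℕ) : Prop where
  face : allBelow 256 (fun n => (ef P N n == 0) || (F.testBit n && (pc n == 4))) = true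
  closed : allBelow 256 (fun J => sumZ 8 (fun i => if J.testBit i then
    sgb i J * ef P N ((255 ^^^ J) ^^^ 2 ^ i) else 0) == 0) = true

theorem orient_of_chk {K : Finset (Fin 8) → Prop} {F P N : ℕ}
    (hF : ∀ s < 256, K (T s) ↔ F.testBit s = true) (h : OrientChk F P N) :
    Orient K (eo P N) := by
  have h1 : ∀ σ, eo P N σ ≠ 0 → F.testBit (bm σ) = true ∧ pc (bm σ) = 4 := by
    intro σ hσ
    have h2 := allBelow_spec h.face _ (bm_lt σ)
    rw [Bool.or_eq_true, Bool.and_eq_true, beq_iff_eq, beq_iff_eq] at h2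
    rcases h2 with h2 | h2
    · exact absurd h2 hσ
    · exact h2
  refine ⟨?_, ?_, ?_⟩
  · intro σ hσ
    rw [← T_bm σ, hF _ (bm_lt σ)]
    exact (h1 σ hσ).1
  · intro σ hσ
    rw [← T_bm σ, card_T]
    exact (h1 σ hσ).2
  · intro J
    obtain ⟨n, hn, rfl⟩ := T_surj J
    have h2 := allBelow_spec h.closed n hn
    rw [beq_iff_eq] at h2
    rw [← sumZ_eq 8 (fun i => if n.testBit i then
      sgb i n * ef P N ((255 ^^^ n) ^^^ 2 ^ i) else 0)] at h2
    rw [← h2]
    have h3 : (T n) = Finset.univ.filter (fun i : Fin 8 => n.testBit i = true) := rfl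
    conv_lhs => rw [h3, Finset.sum_filter]
    refine Finset.sum_congr rfl ?_
    intro i _
    by_cases hi : n.testBit i = true
    · rw [if_pos hi, if_pos hi, ← h3, sgb_eq]
      congr 1
      rw [← T_compl, ← T_xor_insert, eo_T]
      · exact xor_lt (xor_lt' (by norm_num) hn) i.2
      · rw [T_compl, Finset.mem_compl, not_not]
        exact mem_T.mpr hi
    · rw [if_neg hi, if_neg hi]

variable {k : Type w} [Field k] {R : Type u} [CommRing R] [Algebra k R]
variable {v : Fin 8 → R} {K : Finset (Fin 8) → Prop}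

/-- value of the functional on a product of two cells -/
def LAM (P N s t s' t' : ℕ) : ℤ :=
  if ((t &&& t' == 0) && (s &&& s' == 0) && ((s ||| s') == 255 ^^^ (t ||| t'))) then
    sg2b t t' * ef P N (s ||| s') else 0

theorem LAM_eq (D : FaceData k v K) {F P N : ℕ}
    (hF : ∀ s < 256, K (T s) ↔ F.testBit s = true) (h : OrientChk F P N)
    {s t s' t' : ℕ} (hs : s < 256) (ht : t < 256) (hs' : s' < 256) (ht' : t' < 256) :
    lam D (eo P N) (cell v (T s) (T t) * cell v (T s') (T t')) = ((LAM P N s t s' t' : ℤ) : k) := by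
  rw [lam_cell_mul_cell D (orient_of_chk hF h)]
  unfold LAM
  have hiff : (Disjoint (T t) (T t') ∧ Disjoint (T s) (T s') ∧ T s ∪ T s' = (T t ∪ T t')ᶜ) ↔
      (((t &&& t' == 0) && (s &&& s' == 0) && ((s ||| s') == 255 ^^^ (t ||| t'))) = true) := by
    rw [Bool.and_eq_true, Bool.and_eq_true, beq_iff_eq, beq_iff_eq, beq_iff_eq,
      disjoint_T ht, disjoint_T hs, ← T_or, ← T_or, ← T_compl, and_assoc]
    constructor
    · rintro ⟨h1, h2, h3⟩
      exact ⟨h1, h2, T_inj (or_lt hs hs') (xor_lt' (by norm_num) (or_lt ht ht')) h3⟩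
    · rintro ⟨h1, h2, h3⟩
      exact ⟨h1, h2, by rw [h3]⟩
  by_cases hc : Disjoint (T t) (T t') ∧ Disjoint (T s) (T s') ∧ T s ∪ T s' = (T t ∪ T t')ᶜ
  · rw [if_pos hc, if_pos (hiff.mp hc), sg2b_eq, ← T_or, eo_T (or_lt hs hs')]
  · rw [if_neg hc, if_neg (fun h => hc (hiff.mpr h)), Int.cast_zero]

/-- a combination of cells of multidegree `J` -/
noncomputable def comb (v : Fin 8 → R) (J : ℕ) (l : List (ℤ × ℕ)) : EA R 8 :=
  (l.map (fun c => c.1 • cell v (T c.2) (T (J ^^^ c.2)))).sum

/-- the functional on products of combinations -/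
def lamL (P N J : ℕ) (l : List (ℤ × ℕ)) (J' : ℕ) (l' : List (ℤ × ℕ)) : ℤ :=
  (l.map (fun c => (l'.map (fun d =>
    c.1 * d.1 * LAM P N c.2 (J ^^^ c.2) d.2 (J' ^^^ d.2))).sum)).sum

/-- validity of a combination -/
def chkDeg (F : ℕ) (i j : ℕ) (J : ℕ) (l : List (ℤ × ℕ)) : Bool :=
  Nat.blt J 256 && l.all (fun c => Nat.blt c.2 256 && ((c.2 &&& (J ^^^ c.2)) == 0) &&
    (pc (J ^^^ c.2) == i) && (pc c.2 + pc (J ^^^ c.2) == j))

theorem chkDeg_spec {F i j J : ℕ} {l : List (ℤ × ℕ)} (h : chkDeg F i j J l = true) :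
    J < 256 ∧ ∀ c ∈ l, c.2 < 256 ∧ c.2 &&& (J ^^^ c.2) = 0 ∧ pc (J ^^^ c.2) = i ∧
      pc c.2 + pc (J ^^^ c.2) = j := by
  unfold chkDeg at h
  rw [Bool.and_eq_true, Nat.blt_eq, List.all_eq_true] at h
  refine ⟨h.1, ?_⟩
  intro c hc
  have h2 := h.2 c hc
  simp only [Bool.and_eq_true, Nat.blt_eq, beq_iff_eq] at h2
  exact ⟨h2.1.1.1, h2.1.1.2, h2.1.2, h2.2⟩

theorem comb_mem {F i j J : ℕ} {l : List (ℤ × ℕ)} (h : chkDeg F i j J l = true) :
    comb v J l ∈ bideg k v i j := by
  obtain ⟨_, h2⟩ := chkDeg_spec h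
  unfold comb
  apply list_sum_mem
  intro x hx
  rw [List.mem_map] at hx
  obtain ⟨c, hc, rfl⟩ := hx
  obtain ⟨_, _, h3, h4⟩ := h2 c hc
  refine zsmul_mem ?_ _
  have := cell_mem_bideg (k := k) v (T c.2) (T (J ^^^ c.2))
  rw [card_T, card_T, h3] at this
  rw [h3] at h4
  rw [h4] at this
  exact this

theorem lamL_eq (D : FaceData k v K) {F P N : ℕ}
    (hF : ∀ s < 256, K (T s) ↔ F.testBit s = true) (h : OrientChk F P N)
    {J J' : ℕ} {l l' : List (ℤ × ℕ)} (hJ : J < 256) (hJ' : J' < 256)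
    (hl : ∀ c ∈ l, c.2 < 256) (hl' : ∀ c ∈ l', c.2 < 256) :
    lam D (eo P N) (comb v J l * comb v J' l') = ((lamL P N J l J' l' : ℤ) : k) := by
  unfold comb lamL
  rw [← List.sum_map_mul_right, map_list_sum, Int.cast_list_sum, List.map_map, List.map_map]
  congr 1
  refine List.map_congr_left ?_
  intro c hc
  simp only [Function.comp]
  rw [← List.sum_map_mul_left, map_list_sum, Int.cast_list_sum, List.map_map, List.map_map]
  congr 1
  refine List.map_congr_left ?_
  intro d hd
  simp only [Function.comp]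
  rw [smul_mul_smul_comm, map_zsmul, LAM_eq D hF h (hl c hc) (xor_lt' hJ (hl c hc))
    (hl' d hd) (xor_lt' hJ' (hl' d hd)), zsmul_eq_mul]
  push_cast
  ring

/-- coefficient of the differential of a cell -/
def coefK (s t n : ℕ) : ℤ := sumZ 8 (fun i => if t.testBit i && (s ^^^ 2 ^ i == n) then sgb i t else 0)

theorem kd_cell_T (s t : ℕ) (hs : s < 256) (hd : s &&& t = 0) :
    kd v (cell v (T s) (T t)) =
      ∑ n : Fin 256, coefK s t n • cell v (T n) (T ((s ^^^ t) ^^^ n)) := by
  have hd' : Disjoint (T s) (T t) := (disjoint_T hs).mpr hd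
  rw [kd_cell v _ _ hd']
  have h1 : ∀ n : Fin 256, coefK s t n • cell v (T n) (T ((s ^^^ t) ^^^ n)) =
      ∑ i : Fin 8, (if t.testBit i && (s ^^^ 2 ^ (i : ℕ) == n) then sgb i t else 0) •
        cell v (T n) (T ((s ^^^ t) ^^^ n)) := by
    intro n
    unfold coefK
    rw [← sumZ_eq 8 (fun i => if t.testBit i && (s ^^^ 2 ^ i == (n : ℕ)) then sgb i t else 0),
      Finset.sum_smul]
  simp only [h1]
  rw [Finset.sum_comm]
  conv_lhs => unfold T
  rw [Finset.sum_filter]
  refine Finset.sum_congr rfl ?_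
  intro i _
  by_cases hi : t.testBit i = true
  · rw [if_pos hi]
    have hlt : s ^^^ 2 ^ (i : ℕ) < 256 := xor_lt hs i.2
    rw [Finset.sum_eq_single (⟨s ^^^ 2 ^ (i : ℕ), hlt⟩ : Fin 256)]
    · have his : i ∉ T s := fun h => (Finset.disjoint_left.mp hd') h (mem_T.mpr hi)
      have e1 : T (s ^^^ 2 ^ (i : ℕ)) = insert i (T s) := T_xor_insert his
      have e2 : T ((s ^^^ t) ^^^ (s ^^^ 2 ^ (i : ℕ))) = (T t).erase i := by
        have : (s ^^^ t) ^^^ (s ^^^ 2 ^ (i : ℕ)) = t ^^^ 2 ^ (i : ℕ) := by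
          rw [Nat.xor_comm s t, Nat.xor_assoc, ← Nat.xor_assoc s s, Nat.xor_self, Nat.zero_xor]
        rw [this, T_xor_erase (mem_T.mpr hi)]
      have e3 : (t.testBit i && (s ^^^ 2 ^ (i : ℕ) == ((⟨s ^^^ 2 ^ (i : ℕ), hlt⟩ : Fin 256) : ℕ)))
          = true := by
        rw [hi]; simp
      rw [if_pos e3]
      show sgn i (T t) • cell v (insert i (T s)) ((T t).erase i) = _
      rw [← e1, ← e2, sgb_eq]
    · intro n _ hn
      rw [if_neg, zero_smul]
      intro h
      rw [Bool.and_eq_true, beq_iff_eq] at h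
      exact hn (Fin.ext h.2.symm)
    · intro h; exact absurd (Finset.mem_univ _) h
  · rw [if_neg hi]
    symm
    refine Finset.sum_eq_zero ?_
    intro n _
    rw [if_neg, zero_smul]
    intro h
    rw [Bool.and_eq_true] at h
    exact hi h.1

/-- check of a cocycle -/
def chkCoc (F : ℕ) (J : ℕ) (l : List (ℤ × ℕ)) : Bool :=
  allBelow 256 (fun n => !(F.testBit n) ||
    ((l.map (fun c => c.1 * coefK c.2 (J ^^^ c.2) n)).sum == 0))

theorem kd_comb (D : FaceData k v K) {F i j : ℕ}
    (hF : ∀ s < 256, K (T s) ↔ F.testBit s = true)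
    {J : ℕ} {l : List (ℤ × ℕ)} (h : chkDeg F i j J l = true) (h2 : chkCoc F J l = true) :
    kd v (comb v J l) = 0 := by
  obtain ⟨_, h3⟩ := chkDeg_spec h
  have e1 : kd v (comb v J l) =
      ∑ n : Fin 256, (l.map (fun c => c.1 * coefK c.2 (J ^^^ c.2) n)).sum •
        cell v (T n) (T (J ^^^ n)) := by
    clear h2 h
    unfold comb
    induction l with
    | nil => simp
    | cons c l ih =>
      have h5 := ih (fun d hd => h3 d (List.mem_cons_of_mem _ hd))
      obtain ⟨h6, h7, _⟩ := h3 c List.mem_cons_self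
      rw [List.map_cons, List.sum_cons, map_add, h5, map_zsmul, kd_cell_T _ _ h6 h7,
        Finset.smul_sum, ← Finset.sum_add_distrib]
      refine Finset.sum_congr rfl ?_
      intro n _
      rw [List.map_cons, List.sum_cons, add_smul, smul_smul]
      congr 5
      rw [← Nat.xor_assoc, Nat.xor_comm c.2 J, Nat.xor_assoc, Nat.xor_self, Nat.xor_zero]
  rw [e1]
  refine Finset.sum_eq_zero ?_
  intro n _
  have h4 := allBelow_spec h2 n n.2
  rw [Bool.or_eq_true, beq_iff_eq] at h4
  rcases h4 with h4 | h4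
  · have h5 : ¬ K (T n) := by
      rw [hF _ n.2]
      intro h6
      rw [h6] at h4
      exact absurd h4 (by decide)
    rw [cell, D.mon_zero _ h5, zero_smul, smul_zero]
  · rw [h4, zero_smul]

/-! ### Assembling the dual system -/

/-- All checks for a table of cocycles. -/
structure Table (F P N : ℕ) (H : ℕ → ℕ × List (ℤ × ℕ)) : Prop where
  orient : OrientChk F P N
  zero : H 0 = (0, [(1, 0)])
  deg : ∀ x : Fin 64, chkDeg F (bi x) (bj x) (H x).1 (H x).2 = true
  coc : allBelow 64 (fun x => chkCoc F (H x).1 (H x).2) = true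
  gram : allBelow 64 (fun x => allBelow 64 (fun y =>
    lamL P N (H x).1 (H x).2 (H y).1 (H y).2 == gr (Fin.ofNat 64 x) (Fin.ofNat 64 y))) = true

theorem coe_add' (a b : Zc k v) : ((a + b : Zc k v) : EA R 8) = (a : EA R 8) + b := rfl

theorem coe_sub' (a b : Zc k v) : ((a - b : Zc k v) : EA R 8) = (a : EA R 8) - b := rfl

theorem coe_smul' (c : k) (a : Zc k v) : ((c • a : Zc k v) : EA R 8) = c • (a : EA R 8) := rfl

theorem lam_congr (D : FaceData k v K) {e : Finset (Fin 8) → ℤ} (he : Orient K e)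
    {a b : Zc k v} (h : cls k v a = cls k v b) : lam D e (a : EA R 8) = lam D e (b : EA R 8) := by
  rw [← sub_eq_zero, ← map_sub, cls_eq_zero_iff] at h
  obtain ⟨y, hy⟩ := h
  have h2 := lam_kd D he y
  rw [coe_sub'] at hy
  rw [hy, map_sub, sub_eq_zero] at h2
  exact h2

/-- a representative cycle -/
noncomputable def rep (x : Tor k v) : Zc k v := (cls_surj x).choose

theorem cls_rep (x : Tor k v) : cls k v (rep x) = x := (cls_surj x).choose_spec

/-- the functional on the homology, as a function -/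
noncomputable def lamF (D : FaceData k v K) (e : Finset (Fin 8) → ℤ) (x : Tor k v) : k :=
  lam D e (rep x : EA R 8)

theorem lamF_cls (D : FaceData k v K) {e : Finset (Fin 8) → ℤ} (he : Orient K e)
    (z : Zc k v) : lamF D e (cls k v z) = lam D e (z : EA R 8) := by
  have h : cls k v (rep (cls k v z)) = cls k v z := cls_rep (cls k v z)
  exact lam_congr D he h

/-- the functional on the homology -/
noncomputable def lamT (D : FaceData k v K) {e : Finset (Fin 8) → ℤ} (he : Orient K e) :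
    Tor k v →ₗ[k] k where
  toFun x := lamF D e x
  map_add' := by
    intro x y
    obtain ⟨a, rfl⟩ := cls_surj x
    obtain ⟨b, rfl⟩ := cls_surj y
    have h : lamF D e (cls k v (a + b)) = lamF D e (cls k v a) + lamF D e (cls k v b) := by
      rw [lamF_cls D he, lamF_cls D he, lamF_cls D he, coe_add', map_add]
    rw [map_add] at h
    exact h
  map_smul' := by
    intro c x
    obtain ⟨a, rfl⟩ := cls_surj x
    have h : lamF D e (cls k v (c • a)) = c • lamF D e (cls k v a) := by
      rw [lamF_cls D he, lamF_cls D he, coe_smul', map_smul]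
    rw [map_smul] at h
    exact h

theorem lamT_cls (D : FaceData k v K) {e : Finset (Fin 8) → ℤ} (he : Orient K e)
    (z : Zc k v) : lamT D he (cls k v z) = lam D e (z : EA R 8) := lamF_cls D he z

theorem torPart_mul {i j i' j' : ℕ} {a b : Tor k v} (ha : a ∈ torPart k v i j)
    (hb : b ∈ torPart k v i' j') : a * b ∈ torPart k v (i + i') (j + j') := by
  obtain ⟨x, hx, rfl⟩ := ha
  obtain ⟨y, hy, rfl⟩ := hb
  refine ⟨x * y, ?_, ?_⟩
  · exact bideg_mul v hx hy
  · exact map_mul (cls k v) x y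

/-- The dual system of a face ring. -/
noncomputable def dualSys (D : FaceData k v K) {F P N : ℕ} {H : ℕ → ℕ × List (ℤ × ℕ)}
    (hF : ∀ s < 256, K (T s) ↔ F.testBit s = true)
    {cd : ℕ → ℕ → ℕ} (hM : Matching F cd) (hT : Table F P N H) :
    DualSys k (Tor k v) (torPart k v) where
  h x := cls k v ⟨comb v (H x).1 (H x).2,
    kd_comb D hF (hT.deg x) (allBelow_spec hT.coc x x.2)⟩
  l := lamT D (orient_of_chk hF hT.orient)
  fin := (finrank_Tor_le D hF hM).1
  rk := (finrank_Tor_le D hF hM).2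
  one := by
    have h1 : (⟨comb v (H 0).1 (H 0).2, kd_comb D hF (hT.deg 0)
        (allBelow_spec hT.coc 0 (by norm_num))⟩ : Zc k v) = 1 := by
      apply Subtype.ext
      show comb v (H 0).1 (H 0).2 = 1
      rw [hT.zero]
      have h2 : T 0 = ∅ := by decide
      simp [comb, h2, cell, EE_empty, mon, ind]
    show cls k v ⟨comb v (H 0).1 (H 0).2, _⟩ = 1
    rw [h1, map_one]
  gram := by
    intro x y
    rw [← map_mul, lamT_cls]
    show lam D (eo P N) (comb v (H x).1 (H x).2 * comb v (H y).1 (H y).2) = _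
    obtain ⟨h1, h2⟩ := chkDeg_spec (hT.deg x)
    obtain ⟨h3, h4⟩ := chkDeg_spec (hT.deg y)
    rw [lamL_eq D hF hT.orient h1 h3 (fun c hc => (h2 c hc).1) (fun c hc => (h4 c hc).1)]
    have h5 := allBelow_spec (allBelow_spec hT.gram x x.2) y y.2
    rw [beq_iff_eq] at h5
    rw [h5]
    have h6 : ∀ x : Fin 64, Fin.ofNat 64 (x : ℕ) = x := by
      intro x
      apply Fin.ext
      exact Nat.mod_eq_of_lt x.2
    rw [h6, h6]
  mem := by
    intro x
    exact ⟨_, comb_mem (hT.deg x), rfl⟩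
  mul_mem := by
    intro i j i' j' a b ha hb
    exact torPart_mul ha hb
  vanish := by
    intro i j a ha hij
    obtain ⟨x, hx, rfl⟩ := ha
    have h1 := lam_bideg D (orient_of_chk hF hT.orient) hij hx
    rw [← h1]
    exact lamT_cls D (orient_of_chk hF hT.orient) x

end Pool.Agent.Lib_helper42.Kz
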