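import Mathlib
import Pool.Agent.Lib_helper42.Kz.Eval
import Pool.Agent.Lib_helper42.Kz.Data

/-! Explicit cocycles for the two complexes. -/

set_option autoImplicit false

namespace Pool.Agent.Lib_helper42.Kz


/-- positively oriented facets -/
def EPP : ℕ := 0x1000000000640000400080000000000000000000060000000080000000000

/-- negatively oriented facets -/
def ENP : ℕ := 0x200100000000000000040080000100020000000000620000060000000

/-- the cocycles -/
def HTP : List (ℕ × List (ℤ × ℕ)) := [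
  (0, [(1, 0)]),
  (7, [(1, 6)]),
  (19, [(1, 18)]),
  (38, [(1, 36)]),
  (44, [(1, 40)]),
  (67, [(1, 66)]),
  (81, [(1, 80)]),
  (82, [(1, 80)]),
  (88, [(1, 80)]),
  (98, [(1, 96)]),
  (104, [(1, 96)]),
  (133, [(1, 132)]),
  (140, [(1, 136)]),
  (145, [(1, 144)]),
  (152, [(1, 144)]),
  (164, [(1, 160)]),
  (168, [(1, 160)]),
  (23, [(1, 3)]),
  (39, [(1, 6)]),
  (71, [(1, 3)]),
  (83, [(1, 18)]),
  (83, [(1, 66)]),
  (83, [(1, 80)]),
  (89, [(1, 80)]),
  (99, [(1, 66)]),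
  (135, [(1, 5)]),
  (141, [(1, 132)]),
  (147, [(1, 17)]),
  (149, [(1, 129)]),
  (153, [(1, 144)]),
  (165, [(1, 132)]),
  (209, [(1, 17)]),
  (232, [(1, 40)]),
  (216, [(-1, 24)]),
  (184, [(-1, 136)]),
  (172, [(1, 40)]),
  (172, [(-1, 136)]),
  (172, [(-1, 40), (1, 160)]),
  (166, [(1, 36)]),
  (156, [(1, 136)]),
  (120, [(1, 72)]),
  (114, [(1, 66)]),
  (108, [(-1, 40)]),
  (106, [(1, 96)]),
  (102, [(-1, 34)]),
  (90, [(-1, 80)]),
  (46, [(-1, 36)]),
  (248, [(1, 72), (-1, 136)]),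
  (236, [(-1, 40)]),
  (217, [(1, 80), (-1, 144)]),
  (211, [(1, 17)]),
  (188, [(1, 136)]),
  (174, [(-1, 36)]),
  (173, [(1, 132)]),
  (167, [(-1, 6), (-1, 132)]),
  (157, [(-1, 132), (-1, 144)]),
  (151, [(1, 5), (-1, 17)]),
  (122, [(-1, 80), (1, 96)]),
  (115, [(-1, 66)]),
  (110, [(1, 36), (1, 96)]),
  (103, [(1, 6), (1, 66)]),
  (91, [(1, 80)]),
  (87, [(-1, 3)]),
  (255, [(1, 240)])]

/-- the cocycles -/
def HP (x : ℕ) : ℕ × List (ℤ × ℕ) := HTP.getD x (0, [])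

theorem orientP : OrientChk FP EPP ENP where
  face := by decide +kernel
  closed := by decide +kernel

theorem degP : ∀ x : Fin 64, chkDeg FP (bi x) (bj x) (HP x).1 (HP x).2 = true := by
  decide +kernel

theorem cocP : allBelow 64 (fun x => chkCoc FP (HP x).1 (HP x).2) = true := by
  decide +kernel

theorem gramP : allBelow 64 (fun x => allBelow 64 (fun y =>
    lamL EPP ENP (HP x).1 (HP x).2 (HP y).1 (HP y).2 ==
      gr (Fin.ofNat 64 x) (Fin.ofNat 64 y))) = true := by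
  decide +kernel

theorem tableP : Table FP EPP ENP HP where
  orient := orientP
  zero := by decide +kernel
  deg := degP
  coc := cocP
  gram := gramP

/-- positively oriented facets -/
def EPQ : ℕ := 0x1000001001000000406000400000000000000046040000000608000800000

/-- negatively oriented facets -/
def ENQ : ℕ := 0x200000020000000000000200000020000000000000008000000000000

/-- the cocycles -/
def HTQ : List (ℕ × List (ℤ × ℕ)) := [
  (0, [(1, 0)]),
  (11, [(1, 10)]),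
  (25, [(1, 24)]),
  (28, [(1, 24)]),
  (52, [(1, 48)]),
  (56, [(1, 48)]),
  (67, [(1, 66)]),
  (73, [(1, 72)]),
  (98, [(1, 96)]),
  (100, [(1, 96)]),
  (104, [(1, 96)]),
  (131, [(1, 130)]),
  (134, [(1, 132)]),
  (145, [(1, 144)]),
  (148, [(1, 144)]),
  (164, [(1, 160)]),
  (194, [(1, 192)]),
  (27, [(1, 9)]),
  (29, [(1, 24)]),
  (57, [(1, 24)]),
  (75, [(1, 9)]),
  (75, [(1, 65)]),
  (89, [(1, 9)]),
  (99, [(1, 66)]),
  (105, [(1, 72)]),
  (135, [(1, 130)]),
  (139, [(1, 3)]),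
  (147, [(1, 129)]),
  (149, [(1, 144)]),
  (153, [(1, 17)]),
  (195, [(1, 66)]),
  (195, [(1, 130)]),
  (228, [(1, 36)]),
  (226, [(1, 66)]),
  (198, [(-1, 130)]),
  (180, [(-1, 36)]),
  (180, [(1, 36), (-1, 132)]),
  (166, [(1, 132)]),
  (156, [(-1, 20)]),
  (150, [(1, 132)]),
  (120, [(1, 40)]),
  (116, [(1, 36)]),
  (108, [(-1, 96)]),
  (106, [(-1, 96)]),
  (102, [(-1, 96)]),
  (60, [(1, 24), (-1, 48)]),
  (60, [(1, 48)]),
  (244, [(1, 36)]),
  (230, [(1, 132), (-1, 96), (1, 192)]),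
  (227, [(-1, 66)]),
  (203, [(-1, 3)]),
  (199, [(1, 130)]),
  (188, [(1, 20)]),
  (182, [(1, 132)]),
  (157, [(1, 24), (-1, 144)]),
  (155, [(1, 9), (1, 129)]),
  (151, [(-1, 130), (-1, 144)]),
  (124, [(1, 48), (-1, 96)]),
  (121, [(-1, 24), (-1, 72)]),
  (110, [(1, 96)]),
  (107, [(-1, 66), (1, 72)]),
  (91, [(-1, 9)]),
  (61, [(-1, 24)]),
  (255, [(1, 240)])]

/-- the cocycles -/
def HQ (x : ℕ) : ℕ × List (ℤ × ℕ) := HTQ.getD x (0, [])

theorem orientQ : OrientChk FQ EPQ ENQ where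
  face := by decide +kernel
  closed := by decide +kernel

theorem degQ : ∀ x : Fin 64, chkDeg FQ (bi x) (bj x) (HQ x).1 (HQ x).2 = true := by
  decide +kernel

theorem cocQ : allBelow 64 (fun x => chkCoc FQ (HQ x).1 (HQ x).2) = true := by
  decide +kernel

theorem gramQ : allBelow 64 (fun x => allBelow 64 (fun y =>
    lamL EPQ ENQ (HQ x).1 (HQ x).2 (HQ y).1 (HQ y).2 ==
      gr (Fin.ofNat 64 x) (Fin.ofNat 64 y))) = true := by
  decide +kernel

theorem tableQ : Table FQ EPQ ENQ HQ where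
  orient := orientQ
  zero := by decide +kernel
  deg := degQ
  coc := cocQ
  gram := gramQ

end Pool.Agent.Lib_helper42.Kz
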