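import Mathlib
import Pool.Agent.Lib_helper42.Kz.Cocyc
import Pool.Agent.Lib_helper42.Kz.BuchData
import Pool.Agent.Lib_helper42.Kz.Bridge

/-! The Tor algebras of the two polytopes are isomorphic. -/

set_option autoImplicit false

namespace Pool.Agent.Lib_helper42.Kz

universe u

/-- the dual system of `P` -/
noncomputable def sysP (k : Type u) [Field k] :
    DualSys k (Tor k (SR.v k polyP.K)) (torPart k (SR.v k polyP.K)) :=
  dualSys (faceDataSR k polyP.K polyP.down) mem_polyP matchingP tableP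

/-- the dual system of `Q` -/
noncomputable def sysQ (k : Type u) [Field k] :
    DualSys k (Tor k (SR.v k polyQ.K)) (torPart k (SR.v k polyQ.K)) :=
  dualSys (faceDataSR k polyQ.K polyQ.down) mem_polyQ matchingQ tableQ

theorem torIso (k : Type u) [Field k] :
    ∃ φ : TorAlg k polyP.K ≃ₐ[k] TorAlg k polyQ.K,
      ∀ i j, (torComp k polyP.K i j).map φ.toLinearMap = torComp k polyQ.K i j :=
  transfer k (SR.v k polyP.K) (SR.v k polyQ.K) ((sysP k).exists_equiv (sysQ k))

theorem main :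
    ∃ P Q : SimplePolytope 4 8,
    (∀ (k : Type u) [Field k],
      (∃ φ : TorAlg k P.K ≃ₐ[k] TorAlg k Q.K,
        ∀ i j x, x ∈ torComp k P.K i j ↔ φ x ∈ torComp k Q.K i j) ∧
      ∀ i j, bettiNumber k P.K i j = bettiNumber k Q.K i j) ∧
    buchstaber P.K = 3 ∧ buchstaber Q.K = 4 ∧ realBuchstaber P.K = 3 ∧ realBuchstaber Q.K = 4 := by
  refine ⟨polyP, polyQ, ?_, buchP, buchQ, realBuchP, realBuchQ⟩
  intro k _
  refine ⟨?_, betti_eq_of_iso k polyP.K polyQ.K (torIso k)⟩
  obtain ⟨φ, hφ⟩ := torIso k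
  refine ⟨φ, ?_⟩
  intro i j x
  rw [← hφ i j]
  constructor
  · intro hx
    exact ⟨x, hx, rfl⟩
  · rintro ⟨y, hy, hxy⟩
    have : y = x := φ.injective hxy
    rw [← this]
    exact hy

end Pool.Agent.Lib_helper42.Kz
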